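import Pool.Agent.Lib.MP_b5021c_nt.IfaceBP
import Pool.Agent.Lib.MP_b5021c_nt.KO.H07.Ubr

/-!
# MP_b5021c_nt, all `θ`, K ODD, (O4), two overlapping components, one variable

`f`, `f'` are the coefficients of the rays of the two components (B-loads), `X p = λ f - q`,
`X p' = λ f' - q`, `λ = 1 - X - X^2`.  The ray of the second component is a ray of the closing `V''`
of the first one with the constant coefficient `p`, and conversely: THEOREM B' for `(p, f')` and for
`(p', f)`.  With the two points `1/(j+1)`, `1/j`: `f = f'`.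
-/

namespace Pool.Agent.B5.O4X

open Polynomial
open Pool.Agent.B5
open Pool.Agent.B5.O4U (tail_one up_neg lo_one coeff_cases abs_aeval_le)

/-- The two points `x = 1/(j+1)`, `y = 1/j`. -/
structure Tp (j : ℕ) (q f : ℤ[X]) (x y : ℝ) : Prop where
  j2 : 2 ≤ j
  hx : x * ((j : ℝ) + 1) = 1
  hy : y * (j : ℝ) = 1
  I : 0 < (aeval x q : ℝ)
  II : (aeval y q : ℝ) + y * aeval y f ≤ 0

variable {j : ℕ} {q f f' p p' : ℤ[X]} {x y : ℝ}

namespace Tp

theorem x0 (h : Tp j q f x y) : 0 < x := by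
  have hj : (2 : ℝ) ≤ j := by exact_mod_cast h.j2
  by_contra hcon
  push Not at hcon
  nlinarith [h.hx]

theorem y0 (h : Tp j q f x y) : 0 < y := by
  have hj : (2 : ℝ) ≤ j := by exact_mod_cast h.j2
  by_contra hcon
  push Not at hcon
  nlinarith [h.hy]

theorem xy (h : Tp j q f x y) : x < y := by
  have hj : (2 : ℝ) ≤ j := by exact_mod_cast h.j2
  have h1 := h.hx
  have h2 := h.hy
  have h3 := h.x0
  by_contra hcon
  push Not at hcon
  nlinarith

/-- `y ≤ 1/m` for `m ≤ j`. -/
theorem yle (h : Tp j q f x y) {m : ℕ} (hm : m ≤ j) : y * m ≤ 1 := by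
  have h1 : (m : ℝ) ≤ j := by exact_mod_cast hm
  have h2 := h.hy
  nlinarith [h.y0]

end Tp

theorem aC (t : ℝ) (n : ℤ) : (aeval t (C n) : ℝ) = n := by simp

/-- The sign of a polynomial with coefficients `0, 1, -1` does not change on `(0, 1/2)`. -/
theorem sgn_same {n : ℕ} : ∀ {G : ℤ[X]}, G.natDegree < n → (∀ k, |G.coeff k| ≤ 1) → ∀ {x y : ℝ},
    0 < x → x < y → y < 1 / 2 → (aeval x G : ℝ) < 0 → (aeval y G : ℝ) < 0 := by
  induction n with
  | zero => intro G h; omega
  | succ n ih =>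
    intro G hd hG x y hx hxy hy hneg
    have h1 : G = X * G.divX + C (G.coeff 0) := (X_mul_divX_add G).symm
    have hk : ∀ k, |G.divX.coeff k| ≤ 1 := fun k => by rw [coeff_divX]; exact hG _
    have e : ∀ t : ℝ, (aeval t G : ℝ) = t * aeval t G.divX + G.coeff 0 := by
      intro t
      conv_lhs => rw [h1]
      rw [map_add, map_mul, aeval_X, aC]
    have hb : ∀ t : ℝ, 0 < t → t < 1 / 2 → |t * (aeval t G.divX : ℝ)| < 1 := by
      intro t ht0 ht1
      have h2 := abs_aeval_le (G := G.divX) hk ht0.le (by linarith)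
      have h3 : 0 < 1 - t := by linarith
      rw [abs_mul, abs_of_pos ht0]
      calc t * |(aeval t G.divX : ℝ)| ≤ t * (1 - t)⁻¹ := mul_le_mul_of_nonneg_left h2 ht0.le
        _ < 1 := by
          rw [← div_eq_mul_inv, div_lt_one h3]
          linarith
    by_cases h0 : G.coeff 0 = 0
    · have e1 := e x
      have e2 := e y
      rw [h0] at e1 e2
      push_cast at e1 e2
      rw [add_zero] at e1 e2
      have h3 : (aeval x G.divX : ℝ) < 0 := by
        by_contra hcon
        push Not at hcon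
        nlinarith [mul_nonneg hx.le hcon]
      by_cases hG0 : G = 0
      · rw [hG0] at hneg
        simp at hneg
      have hdd : G.divX.natDegree < n := by
        rw [natDegree_divX_eq_natDegree_tsub_one]
        rcases Nat.eq_zero_or_pos G.natDegree with h4 | h4
        · exfalso
          apply hG0
          rw [eq_C_of_natDegree_eq_zero h4, h0, map_zero]
        · omega
      have h4 := ih hdd hk hx hxy hy h3
      rw [e2]
      exact mul_neg_of_pos_of_neg (by linarith) h4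
    · have h2 := abs_le.mp (hG 0)
      have h3 : G.coeff 0 = 1 ∨ G.coeff 0 = -1 := by omega
      rcases h3 with h3 | h3
      · exfalso
        have e1 := e x
        rw [h3] at e1
        push_cast at e1
        have := (abs_lt.mp (hb x hx (by linarith))).1
        linarith
      · have e2 := e y
        rw [h3] at e2
        push_cast at e2
        have := (abs_lt.mp (hb y (by linarith) hy)).2
        linarith

/-- The values for `f = 1`. -/
theorem one_vals {P : ℤ[X]} (h : Tp j q 1 x y) (hX : X * p = (1 - X - X ^ 2) * 1 - q)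
    (hp : p = C (j : ℤ) + P) : (aeval x P : ℝ) < -x ∧ -y ≤ (aeval y P : ℝ) := by
  have hq : q = (1 - X - X ^ 2) - X * p := by rw [hX]; ring
  have e : ∀ t : ℝ, (aeval t q : ℝ) = 1 - t - t ^ 2 - t * (j + aeval t P) := by
    intro t
    rw [hq, hp]
    simp only [map_sub, map_mul, map_add, map_one, aeval_X, map_pow, aC, Int.cast_natCast]
  have h1 := h.I
  have h2 := h.II
  rw [e] at h1 h2
  rw [map_one] at h2
  have hx := h.hx
  have hy := h.hy
  have hx0 := h.x0
  have hy0 := h.y0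
  constructor
  · have h3 : x * (x + aeval x P) < 0 := by nlinarith
    have h4 : x + (aeval x P : ℝ) < 0 := by
      by_contra hcon
      push Not at hcon
      nlinarith [mul_nonneg hx0.le hcon]
    linarith
  · have h3 : 0 ≤ y * (y + aeval y P) := by nlinarith
    have h4 : 0 ≤ y + (aeval y P : ℝ) := by
      by_contra hcon
      push Not at hcon
      nlinarith [mul_pos hy0 (by linarith : 0 < -(y + (aeval y P : ℝ)))]
    linarith

/-- `f = 1` is impossible, `p = j + t X^k`. -/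
theorem one_bin {k : ℕ} {t : ℤ} (hk : 1 ≤ k) (h : Tp j q 1 x y)
    (hX : X * p = (1 - X - X ^ 2) * 1 - q) (hp : p = C (j : ℤ) + C t * X ^ k) : False := by
  obtain ⟨h1, h2⟩ := one_vals h hX hp
  rw [map_mul, map_pow, aeval_X, aC] at h1 h2
  obtain ⟨m, rfl⟩ := Nat.exists_eq_add_of_le' hk
  rw [pow_succ] at h1 h2
  have hx0 := h.x0
  have hy0 := h.y0
  have hxy := h.xy
  have h3 : (t : ℝ) * x ^ m < -1 := by
    by_contra hcon
    push Not at hcon
    nlinarith
  have h4 : -1 ≤ (t : ℝ) * y ^ m := by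
    by_contra hcon
    push Not at hcon
    nlinarith
  have h5 : x ^ m ≤ y ^ m := pow_le_pow_left₀ hx0.le hxy.le m
  have h6 : 0 < x ^ m := pow_pos hx0 m
  have h7 : (t : ℝ) < 0 := by
    by_contra hcon
    push Not at hcon
    nlinarith [mul_nonneg hcon h6.le]
  nlinarith

/-- `f = 1` is impossible, `p = j + sg F`. -/
theorem one_uf {F : ℤ[X]} {sg : ℕ} (hs1 : 1 ≤ sg) (hs2 : sg + 2 ≤ j) (F0 : F.coeff 0 = 0)
    (Fk : ∀ k, |F.coeff k| ≤ 1) (h : Tp j q 1 x y)
    (hX : X * p = (1 - X - X ^ 2) * 1 - q) (hp : p = C (j : ℤ) + C (sg : ℤ) * F) : False := by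
  obtain ⟨h1, h2⟩ := one_vals h hX hp
  rw [map_mul, aC, Int.cast_natCast] at h1 h2
  have hx0 := h.x0
  have hy0 := h.y0
  have hxy := h.xy
  have hx := h.hx
  have hy := h.hy
  have hj' : (3 : ℝ) ≤ j := by exact_mod_cast (by omega : 3 ≤ j)
  have hs1' : (1 : ℝ) ≤ sg := by exact_mod_cast hs1
  have hs2' : (sg : ℝ) + 2 ≤ j := by exact_mod_cast hs2
  have hx4 : x ≤ 1 / 4 := by nlinarith
  have hy3 : y ≤ 1 / 3 := by nlinarith
  have hsx : (sg : ℝ) * x ≤ 1 - 3 * x := by nlinarith
  -- `F_1 = -1`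
  have hF1 : F.coeff 1 = -1 := by
    by_contra hne
    have h3 := abs_le.mp (Fk 1)
    have h4 : 0 ≤ F.coeff 1 := by omega
    have h5 : (0 : ℝ) ≤ F.coeff 1 := by exact_mod_cast h4
    have h6 := (abs_le.mp (tail_one F0 Fk hx0 (by linarith))).1
    have h7 : -(x ^ 2) ≤ (1 - x) * (aeval x F : ℝ) := by
      nlinarith [mul_nonneg (mul_nonneg hx0.le (by linarith : (0 : ℝ) ≤ 1 - x)) h5]
    have h8 : (1 - x) * ((sg : ℝ) * aeval x F) < -(x * (1 - x)) := by nlinarith
    have h9 : -((sg : ℝ) * x * x) ≤ (1 - x) * ((sg : ℝ) * aeval x F) := by nlinarith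
    have h10 : (sg : ℝ) * x * x ≤ (1 - 3 * x) * x := by nlinarith
    nlinarith [mul_pos hx0 hx0]
  -- `sg = 1`
  have hsg : sg = 1 := by
    by_contra hne
    have h3 : 2 ≤ sg := by omega
    have h4 : (4 : ℝ) ≤ j := by exact_mod_cast (by omega : 4 ≤ j)
    have h5 : y ≤ 1 / 4 := by nlinarith
    have h6 := (abs_le.mp (tail_one F0 Fk hy0 (by linarith))).2
    rw [hF1] at h6
    push_cast at h6
    have h7 : (1 - y) * (aeval y F : ℝ) ≤ -(y * (1 - 2 * y)) := by nlinarith
    have h8 : (2 : ℝ) ≤ sg := by exact_mod_cast h3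
    have h9 : -(y * (1 - y)) ≤ (1 - y) * ((sg : ℝ) * aeval y F) := by nlinarith
    have h10 : (1 - y) * ((sg : ℝ) * aeval y F) ≤ -(sg * (y * (1 - 2 * y))) := by nlinarith
    have h11 : 0 < y * (1 - 2 * y) := mul_pos hy0 (by linarith)
    nlinarith
  subst hsg
  push_cast at h1 h2
  rw [one_mul] at h1 h2
  -- `F = -X + X^2 H`
  have e1 : F = X * F.divX + C (F.coeff 0) := (X_mul_divX_add F).symm
  have e2 : F.divX = X * F.divX.divX + C (F.divX.coeff 0) := (X_mul_divX_add F.divX).symm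
  rw [coeff_divX, hF1] at e2
  rw [F0, map_zero, add_zero] at e1
  have e3 : ∀ t : ℝ, (aeval t F : ℝ) = t * (t * aeval t F.divX.divX - 1) := by
    intro t
    conv_lhs => rw [e1, e2]
    rw [map_mul, map_add, map_mul, aeval_X, aC]
    push_cast
    ring
  rw [e3] at h1 h2
  have h3 : (aeval x F.divX.divX : ℝ) < 0 := by
    by_contra hcon
    push Not at hcon
    nlinarith [mul_nonneg (mul_nonneg hx0.le hx0.le) hcon]
  have h4 : (aeval y F.divX.divX : ℝ) < 0 :=
    sgn_same (Nat.lt_succ_self _) (fun k => by rw [coeff_divX, coeff_divX]; exact Fk _) hx0 hxy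
      (by linarith) h3
  nlinarith [mul_pos (mul_pos hy0 hy0) (by linarith : 0 < -(aeval y F.divX.divX : ℝ))]

/-- `f = 1` is impossible if `(p, g)` is a pair of THEOREM B' for some `g`. -/
theorem one_bpf {g : ℤ[X]} (h : Tp j q 1 x y) (hX : X * p = (1 - X - X ^ 2) * 1 - q)
    (hB : Bpf j p g) : False := by
  rcases hB with ⟨k, t, r, hk, hp, -⟩ | ⟨s, F, x', hs, hp, -, F0, Fk, -, -, -⟩
  · exact one_bin hk h hX hp
  · exact one_uf (sg := s + 1) (by omega) (by omega) F0 Fk h hX (by push_cast; exact hp)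

/-- `f = 1` is impossible. -/
theorem one_bqx (h : Tp j q 1 x y) (hX : X * p = (1 - X - X ^ 2) * 1 - q)
    (hB : Bqx j p) : False := by
  rcases hB with ⟨k, t, hk, hp⟩ | ⟨s, M, F, hs, ⟨hM, F0, Fk, -⟩, hp⟩
  · exact one_bin hk h hX hp
  · exact one_uf (sg := s + 1) (by omega) (by omega) F0 Fk h hX (by push_cast; exact hp)

/-! ## `f ≠ 1`, `f' ≠ 1` -/

theorem lam_ne (n : ℤ) : (1 - X - X ^ 2 + C n * X : ℤ[X]) ≠ 0 := by
  intro h
  have := congrArg (fun P => P.coeff 0) h
  simp [coeff_one, coeff_X, coeff_X_pow] at this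

theorem lam_deg (n : ℤ) : (1 - X - X ^ 2 + C n * X : ℤ[X]).natDegree = 2 := by
  have : (1 - X - X ^ 2 + C n * X : ℤ[X]) = C (-1) * X ^ 2 + C (n - 1) * X + C 1 := by
    simp only [map_sub, map_neg, map_one]
    ring
  rw [this]
  exact natDegree_quadratic (by norm_num)

/-- UF / binomial. -/
theorem uf_bin {F : ℤ[X]} {n r t : ℤ} {k : ℕ}
    (h : (1 - X - X ^ 2 + C n * X) * F = X ^ k * (C r * (1 - X - X ^ 2) + C t * X)) :
    F = C r * X ^ k := by
  have hX : Prime (X : ℤ[X]) := prime_X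
  have h0 : ¬ (X : ℤ[X]) ∣ (1 - X - X ^ 2 + C n * X) := by
    rw [X_dvd_iff]
    simp [coeff_one, coeff_X, coeff_X_pow]
  have h1 : (X : ℤ[X]) ^ k ∣ F := hX.pow_dvd_of_dvd_mul_left k h0 ⟨_, h⟩
  obtain ⟨G, rfl⟩ := h1
  have h2 : (1 - X - X ^ 2 + C n * X) * G = C r * (1 - X - X ^ 2) + C t * X := by
    have h3 : (X : ℤ[X]) ^ k * ((1 - X - X ^ 2 + C n * X) * G) =
        X ^ k * (C r * (1 - X - X ^ 2) + C t * X) := by
      rw [← h]
      ring
    exact mul_left_cancel₀ (pow_ne_zero k X_ne_zero) h3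
  by_cases hG : G = 0
  · subst hG
    rw [mul_zero] at h2
    have h3 := congrArg (fun P => P.coeff 0) h2
    simp [coeff_one, coeff_X, coeff_X_pow] at h3
    rw [← h3]
    simp
  have h3 : G.natDegree = 0 := by
    have h4 := congrArg natDegree h2
    rw [natDegree_mul (lam_ne n) hG, lam_deg] at h4
    have h5 : (C r * (1 - X - X ^ 2) + C t * X : ℤ[X]).natDegree ≤ 2 := by
      have : (C r * (1 - X - X ^ 2) + C t * X : ℤ[X]) = C (-r) * X ^ 2 + C (t - r) * X + C r := by
        simp only [map_sub, map_neg]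
        ring
      rw [this]
      exact natDegree_quadratic_le
    omega
  rw [eq_C_of_natDegree_eq_zero h3] at h2 ⊢
  have h4 := congrArg (fun P => P.coeff 0) h2
  simp [coeff_one, coeff_X, coeff_X_pow] at h4
  rw [h4]
  ring

/-- The numerical inequality. -/
theorem num_uf {y m M : ℝ} (hy0 : 0 < y) (hy4 : y ≤ 1 / 4) (hm1 : 1 ≤ m)
    (hm : m * y ≤ 1 - 3 * y) (hM : M * y ≤ 1 - 2 * y) :
    y * (1 - y) * (1 - y - y ^ 2 + m * y) <
      (1 - 2 * y) * ((1 - y - y ^ 2) * (1 - y ^ 2) + M * (1 - m) * y ^ 2) := by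
  have h1 : 0 ≤ (m - 1) * y * (1 - 2 * y - M * y) :=
    mul_nonneg (mul_nonneg (by linarith) hy0.le) (by linarith)
  have h2 : -((m * y - y) * (1 - 2 * y)) ≤ M * (1 - m) * y ^ 2 := by nlinarith
  have h3 : (1 - 2 * y) * ((1 - y - y ^ 2) * (1 - y ^ 2) - (m * y - y) * (1 - 2 * y)) ≤
      (1 - 2 * y) * ((1 - y - y ^ 2) * (1 - y ^ 2) + M * (1 - m) * y ^ 2) := by
    apply mul_le_mul_of_nonneg_left _ (by linarith)
    linarith
  refine lt_of_lt_of_le ?_ h3
  set w : ℝ := m * y with hw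
  have h4 : 0 ≤ (1 - 3 * y - w) * ((1 - 2 * y) ^ 2 + y * (1 - y)) := by
    apply mul_nonneg (by linarith)
    nlinarith [sq_nonneg (1 - 2 * y)]
  have h5 : 0 < y * (3 - 14 * y + 18 * y ^ 2 - 2 * y ^ 3 - 2 * y ^ 4) := by
    apply mul_pos hy0
    have h6 : y ^ 3 ≤ (1 / 4) ^ 3 := pow_le_pow_left₀ hy0.le hy4 3
    have h7 : y ^ 4 ≤ (1 / 4) ^ 4 := pow_le_pow_left₀ hy0.le hy4 4
    nlinarith [sq_nonneg (y - 7 / 18)]
  nlinarith

/-- UF / UF with `sg ≠ sg'`: both points. -/
theorem uf_uf {F F' : ℤ[X]} {sg sg' : ℕ} (hlt : sg < sg') (hs1 : 1 ≤ sg) (hs2 : sg' + 2 ≤ j)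
    (F0 : F.coeff 0 = 0) (Fk : ∀ k, |F.coeff k| ≤ 1)
    (F0' : F'.coeff 0 = 0) (h : Tp j q f x y) (h' : Tp j q f' x y) (hf : f = 1 + F) (hf' : f' = 1 + F')
    (hp : p = C (j : ℤ) + C (sg : ℤ) * F') (hp' : p' = C (j : ℤ) + C (sg' : ℤ) * F)
    (hX : X * p = (1 - X - X ^ 2) * f - q) (hX' : X * p' = (1 - X - X ^ 2) * f' - q) :
    False := by
  have hE : (1 - X - X ^ 2 + C (sg' : ℤ) * X) * F = (1 - X - X ^ 2 + C (sg : ℤ) * X) * F' := by
    have e1 : X * p - X * p' = (1 - X - X ^ 2) * f - (1 - X - X ^ 2) * f' := by rw [hX, hX']; ring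
    rw [hp, hp', hf, hf'] at e1
    linear_combination -e1
  have hq : q = (1 - X - X ^ 2) * f - X * p := by rw [hX]; ring
  have e : ∀ t : ℝ, (aeval t q : ℝ) = (1 - t - t ^ 2) * (1 + aeval t F) -
      t * (j + sg * aeval t F') := by
    intro t
    rw [hq, hp, hf]
    simp only [map_sub, map_mul, map_add, map_one, aeval_X, map_pow, aC, Int.cast_natCast]
  have eE : ∀ t : ℝ, (1 - t - t ^ 2 + sg' * t) * (aeval t F : ℝ) =
      (1 - t - t ^ 2 + sg * t) * (aeval t F' : ℝ) := by
    intro t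
    have := congrArg (fun P => (aeval t P : ℝ)) hE
    simpa only [map_sub, map_mul, map_add, map_one, aeval_X, map_pow, aC, Int.cast_natCast]
      using this
  have hx0 := h.x0
  have hy0 := h.y0
  have hx := h.hx
  have hy := h.hy
  have hj' : (4 : ℝ) ≤ j := by exact_mod_cast (by omega : 4 ≤ j)
  have hs1' : (1 : ℝ) ≤ sg := by exact_mod_cast hs1
  have hlt' : (sg : ℝ) + 1 ≤ sg' := by exact_mod_cast hlt
  have hs2' : (sg' : ℝ) + 2 ≤ j := by exact_mod_cast hs2
  have hx5 : x ≤ 1 / 5 := by nlinarith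
  have hy4 : y ≤ 1 / 4 := by nlinarith
  -- coefficient one
  have hc1 : F.coeff 1 = F'.coeff 1 := by
    have e1 : F = X * F.divX := by
      conv_lhs => rw [(X_mul_divX_add F).symm, F0, map_zero, add_zero]
    have e2 : F' = X * F'.divX := by
      conv_lhs => rw [(X_mul_divX_add F').symm, F0', map_zero, add_zero]
    have e3 : (1 - X - X ^ 2 + C (sg' : ℤ) * X) * F.divX =
        (1 - X - X ^ 2 + C (sg : ℤ) * X) * F'.divX := by
      apply mul_left_cancel₀ (X_ne_zero (R := ℤ))
      rw [e1, e2] at hE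
      linear_combination hE
    have e4 := congrArg (fun P => P.coeff 0) e3
    simp only [mul_coeff_zero] at e4
    simpa [coeff_one, coeff_X, coeff_X_pow, coeff_divX] using e4
  rcases coeff_cases Fk with hF1 | hF1
  · -- `F_1 = 1`, the point `y`
    have ey := eE y
    have h1 := lo_one F0 Fk hy0 (by linarith) hF1
    have h2 := h'.II
    have h3 := e y
    rw [hf'] at h2
    rw [map_add, map_one] at h2
    have hmy : (sg : ℝ) * y ≤ 1 - 3 * y := by nlinarith
    have hMy : (sg' : ℝ) * y ≤ 1 - 2 * y := by nlinarith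
    have ha : 0 < 1 - y - y ^ 2 + sg * y := by nlinarith
    obtain ⟨κ, hκ⟩ : ∃ κ : ℝ, (aeval y F : ℝ) = (1 - y - y ^ 2 + sg * y) * κ :=
      ⟨(aeval y F : ℝ) / (1 - y - y ^ 2 + sg * y), by rw [mul_comm, div_mul_cancel₀ _ ha.ne']⟩
    have hκ' : (aeval y F' : ℝ) = (1 - y - y ^ 2 + sg' * y) * κ := by
      rw [hκ] at ey
      apply mul_left_cancel₀ ha.ne'
      linear_combination -ey
    rw [h3, hκ, hκ'] at h2
    rw [hκ] at h1
    have h4 : κ * ((1 - y - y ^ 2) * (1 - y ^ 2) + sg' * (1 - sg) * y ^ 2) ≤ y ^ 2 := by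
      have e5 : (1 - y - y ^ 2) * (1 + (1 - y - y ^ 2 + sg * y) * κ) -
          y * (j + sg * ((1 - y - y ^ 2 + sg' * y) * κ)) +
          y * (1 + (1 - y - y ^ 2 + sg' * y) * κ) =
          κ * ((1 - y - y ^ 2) * (1 - y ^ 2) + sg' * (1 - sg) * y ^ 2) - y ^ 2 +
          (1 - y * j) := by ring
      rw [e5] at h2
      linarith
    have h5 := num_uf hy0 hy4 hs1' hmy hMy
    set B : ℝ := (1 - y - y ^ 2) * (1 - y ^ 2) + sg' * (1 - sg) * y ^ 2 with hB
    have hB0 : 0 < B := by
      have : 0 < (1 - 2 * y) * B :=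
        lt_trans (mul_pos (mul_pos hy0 (by linarith)) ha) h5
      exact (mul_pos_iff_of_pos_left (by linarith)).mp this
    have h6 : y * (1 - 2 * y) * B ≤ (1 - y) * (1 - y - y ^ 2 + sg * y) * (κ * B) := by
      have := mul_le_mul_of_nonneg_right h1 hB0.le
      linarith
    have h7 : (1 - y) * (1 - y - y ^ 2 + sg * y) * (κ * B) ≤
        (1 - y) * (1 - y - y ^ 2 + sg * y) * y ^ 2 :=
      mul_le_mul_of_nonneg_left h4 (mul_nonneg (by linarith) ha.le)
    have h8 : y * ((1 - 2 * y) * B) ≤ y * (y * (1 - y) * (1 - y - y ^ 2 + sg * y)) := by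
      linarith
    have h9 := le_of_mul_le_mul_left h8 hy0
    linarith
  · -- `F_1 ≤ 0`, the point `x`
    have ex := eE x
    have h1 := up_neg F0 Fk hx0 (by linarith) hF1
    have h2 := h.I
    rw [e x] at h2
    have hmx : (sg : ℝ) * x ≤ 1 - 3 * x := by nlinarith
    have hMx : (sg' : ℝ) * x ≤ 1 - 3 * x := by nlinarith
    have ha : 0 < 1 - x - x ^ 2 + sg * x := by nlinarith
    obtain ⟨κ, hκ⟩ : ∃ κ : ℝ, (aeval x F : ℝ) = (1 - x - x ^ 2 + sg * x) * κ :=
      ⟨(aeval x F : ℝ) / (1 - x - x ^ 2 + sg * x), by rw [mul_comm, div_mul_cancel₀ _ ha.ne']⟩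
    have hκ' : (aeval x F' : ℝ) = (1 - x - x ^ 2 + sg' * x) * κ := by
      rw [hκ] at ex
      apply mul_left_cancel₀ ha.ne'
      linear_combination -ex
    rw [hκ, hκ'] at h2
    rw [hκ] at h1
    have h4 : x ^ 2 < κ * ((1 - x - x ^ 2) ^ 2 - (sg * x) * (sg' * x)) := by
      have e5 : (1 - x - x ^ 2) * (1 + (1 - x - x ^ 2 + sg * x) * κ) -
          x * (j + sg * ((1 - x - x ^ 2 + sg' * x) * κ)) =
          κ * ((1 - x - x ^ 2) ^ 2 - (sg * x) * (sg' * x)) - x ^ 2 + (1 - x * (j + 1)) := by ring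
      rw [e5] at h2
      linarith
    have hl : 1 - 3 * x ≤ 1 - x - x ^ 2 := by nlinarith
    have hsx0 : 0 ≤ (sg : ℝ) * x := by positivity
    have hsx0' : 0 ≤ (sg' : ℝ) * x := by positivity
    have h5 : (sg * x) * (sg' * x) ≤ (1 - x - x ^ 2) ^ 2 := by
      rw [sq]
      exact mul_le_mul (by linarith) (by linarith) hsx0' (by nlinarith)
    have hκ0 : 0 < κ := by
      by_contra hcon
      push Not at hcon
      have h6 : κ * ((1 - x - x ^ 2) ^ 2 - (sg * x) * (sg' * x)) ≤ 0 :=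
        mul_nonpos_of_nonpos_of_nonneg hcon (by linarith)
      nlinarith [mul_pos hx0 hx0]
    have h6 : (1 - x - x ^ 2) ^ 2 - (sg * x) * (sg' * x) ≤ (1 - x) * (1 - x - x ^ 2 + sg * x) := by
      have h7 : 0 ≤ (sg * x) * (sg' * x) := mul_nonneg hsx0 hsx0'
      have h8 : (1 - x - x ^ 2) ^ 2 ≤ (1 - x) * (1 - x - x ^ 2) := by
        rw [sq]
        apply mul_le_mul_of_nonneg_right _ (by nlinarith)
        nlinarith
      have h9 : 0 ≤ (1 - x) * (sg * x) := mul_nonneg (by linarith) hsx0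
      nlinarith
    have h7 := mul_le_mul_of_nonneg_left h6 hκ0.le
    nlinarith

/-- (UBX) `f = f'`. -/
theorem ubx (h : Tp j q f x y) (h' : Tp j q f' x y)
    (hX : X * p = (1 - X - X ^ 2) * f - q) (hX' : X * p' = (1 - X - X ^ 2) * f' - q)
    (hB : f' ≠ 1 → Bpf j p f') (hB' : f ≠ 1 → Bpf j p' f) (hQ : f' = 1 → Bqx j p)
    (hQ' : f = 1 → Bqx j p') : f = f' ∧ p = p' ∧ f ≠ 1 := by
  have hne' : f' ≠ 1 := by
    intro h1
    subst h1
    by_cases h2 : f = 1
    · subst h2
      exact one_bqx h' hX' (hQ' rfl)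
    · exact one_bpf h' hX' (hB' h2)
  have hne : f ≠ 1 := by
    intro h1
    subst h1
    exact one_bpf h hX (hB hne')
  have key : f = f' := by
    have e1 : X * p - X * p' = (1 - X - X ^ 2) * f - (1 - X - X ^ 2) * f' := by rw [hX, hX']; ring
    rcases hB hne' with ⟨k, t, r, hk, hp, hf⟩ | ⟨s, F, x1, hs, hp, hf, F0, Fk, -, -, -⟩
    · rcases hB' hne with ⟨k', t', r', hk', hp', hf'⟩ | ⟨s', F', x1', hs', hp', hf', F0', Fk', -⟩
      · -- binomial, binomial
        have hr : r ≠ 0 := by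
          rintro rfl
          apply hne'
          rw [hf]
          simp
        have hr' : r' ≠ 0 := by
          rintro rfl
          apply hne
          rw [hf']
          simp
        rw [hp, hp', hf, hf'] at e1
        have e2 : X ^ k' * (C r' * (1 - X - X ^ 2) + C t' * X) =
            X ^ k * (C r * (1 - X - X ^ 2) + C t * X : ℤ[X]) := by linear_combination -e1
        have aux : ∀ {k k' : ℕ} {r r' t t' : ℤ}, r ≠ 0 → r' ≠ 0 → k ≤ k' →
            X ^ k' * (C r' * (1 - X - X ^ 2) + C t' * X) =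
            X ^ k * (C r * (1 - X - X ^ 2) + C t * X : ℤ[X]) → k = k' ∧ r = r' := by
          intro k k' r r' t t' hr hr' hkk e2
          obtain ⟨m, rfl⟩ := Nat.exists_eq_add_of_le hkk
          have e3 : X ^ m * (C r' * (1 - X - X ^ 2) + C t' * X) =
              (C r * (1 - X - X ^ 2) + C t * X : ℤ[X]) := by
            apply mul_left_cancel₀ (pow_ne_zero k (X_ne_zero (R := ℤ)))
            rw [← e2]
            ring
          rcases Nat.eq_zero_or_pos m with hm | hm
          · subst hm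
            refine ⟨rfl, ?_⟩
            have := congrArg (fun P => P.coeff 0) e3
            simp [coeff_one, coeff_X, coeff_X_pow] at this
            exact this.symm
          · exfalso
            apply hr
            have := congrArg (fun P => P.coeff 0) e3
            obtain ⟨n, rfl⟩ := Nat.exists_eq_add_of_le' hm
            simp [coeff_one, coeff_X, coeff_X_pow, mul_coeff_zero, pow_succ] at this
            exact this.symm
        rcases le_total k k' with hkk | hkk
        · obtain ⟨h1, h2⟩ := aux hr hr' hkk e2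
          rw [hf, hf', h1, h2]
        · obtain ⟨h1, h2⟩ := aux hr' hr hkk e2.symm
          rw [hf, hf', h1, h2]
      · -- `f'` binomial, `f` UF
        rw [hp, hp', hf, hf'] at e1
        have e2 : (1 - X - X ^ 2 + C ((s' : ℤ) + 1) * X) * F' =
            X ^ k * (C r * (1 - X - X ^ 2) + C t * X) := by linear_combination -e1
        rw [hf, hf', uf_bin e2]
    · rcases hB' hne with ⟨k', t', r', hk', hp', hf'⟩ | ⟨s', F', x1', hs', hp', hf', F0', Fk', -⟩
      · -- `f'` UF, `f` binomial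
        rw [hp, hp', hf, hf'] at e1
        have e2 : (1 - X - X ^ 2 + C ((s : ℤ) + 1) * X) * F =
            X ^ k' * (C r' * (1 - X - X ^ 2) + C t' * X) := by linear_combination e1
        rw [hf, hf', uf_bin e2]
      · -- UF, UF
        rcases lt_trichotomy s s' with hss | hss | hss
        · exfalso
          exact uf_uf (sg := s + 1) (sg' := s' + 1) (by omega) (by omega) (by omega) F0' Fk' F0
            h h' hf' hf (by push_cast; exact hp) (by push_cast; exact hp') hX hX'
        · subst hss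
          rw [hp, hp', hf, hf'] at e1
          have e2 : (1 - X - X ^ 2 + C ((s : ℤ) + 1) * X) * F' =
              (1 - X - X ^ 2 + C ((s : ℤ) + 1) * X) * F := by linear_combination -e1
          rw [hf, hf', mul_left_cancel₀ (lam_ne _) e2]
        · exfalso
          exact uf_uf (sg := s' + 1) (sg' := s + 1) (by omega) (by omega) (by omega) F0 Fk F0'
            h' h hf hf' (by push_cast; exact hp') (by push_cast; exact hp) hX' hX
  refine ⟨key, ?_, hne⟩
  apply mul_left_cancel₀ (X_ne_zero (R := ℤ))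
  rw [hX, hX', key]

/-- The pair `(p, f)` of THEOREM B' with the two points: two binomials, or `j = 3`, `p = f + 2`. -/
theorem bpf_fin (h : Tp j q f x y) (hX : X * p = (1 - X - X ^ 2) * f - q) (hB : Bpf j p f) :
    (∃ (k : ℕ) (t r : ℤ), 1 ≤ k ∧ p = C (j : ℤ) + C t * X ^ k ∧ f = 1 + C r * X ^ k) ∨
    (j = 3 ∧ p = f + 2 ∧ ∀ k, 1 ≤ k → |f.coeff k| ≤ 1) := by
  rcases hB with hB | ⟨s, F, x', hs, hp, hf, F0, Fk, -, -, -⟩
  · exact Or.inl hB
  · right
    have hq : q = (1 - X - X ^ 2) * f - X * p := by rw [hX]; ring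
    have e : ∀ t : ℝ, (aeval t q : ℝ) = (1 - t - t ^ 2) * aeval t f - t * aeval t p := by
      intro t
      rw [hq]
      simp only [map_sub, map_mul, map_one, aeval_X, map_pow]
    have h1 := h.I
    have h2 := h.II
    rw [e] at h1 h2
    obtain ⟨h3, h4⟩ := O4U.ubr1 (c := 1) (f := f) (p := p) (F := F) (j := j) (sg := s + 1)
      (x := x) (y := y) (by omega) (by omega) (by omega) F0 Fk
      (by rw [one_mul]; push_cast; exact hp) (by rw [one_mul]; exact hf) (by simp) (by simp)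
      h.hx h.hy h1 (by linarith)
    have h5 : s = 0 := by omega
    subst h5 h3
    refine ⟨rfl, ?_, ?_⟩
    · rw [hp, hf]
      simp only [Nat.cast_zero, zero_add, map_one, one_mul]
      have : (C ((3 : ℕ) : ℤ) : ℤ[X]) = 3 := by simp
      rw [this]
      ring
    · intro k hk
      rw [hf, coeff_add, coeff_one, if_neg (by omega), zero_add]
      exact Fk k

end Pool.Agent.B5.O4X
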