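import Pool.Agent.Lib.MP_b5021c_nt.KO.H13.Ubx

/-!
# MP_b5021c_nt, all `θ`, K ODD, (O4), two overlapping 4-cycles: the one-variable data

`f` the coefficient of the rays of the first cycle (B-loads), `X p = λ f - q`, `V'' = c G`, `P` the
normalised constant coefficient of `G`, `g` the coefficient of an overlapping ray (of the second
cycle, with the coefficient `f'`) in `G`.
-/

namespace Pool.Agent.B5.O4X

open Polynomial
open Pool.Agent.B5

/-- `V''` of the cycle with the coefficient `f`, and a ray of coefficient `f'` in it; `c` is the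
content. -/
structure L4p (j : ℕ) (q f f' p c P g : ℤ[X]) : Prop where
  hX : X * p = (1 - X - X ^ 2) * f - q
  cp : p = c * P
  cg : f' = c * g
  c0 : c.coeff 0 = 1
  P0 : P.coeff 0 = j
  g0 : g.coeff 0 = 1
  /-- THEOREM B', `g ≠ 1`, for a ray with a killing functional at the unit load. -/
  bd : g ≠ 1 → (∃ (k : ℕ) (t r : ℤ), 1 ≤ k ∧ P = C (j : ℤ) + C t * X ^ k ∧
    g = 1 + C r * X ^ k) ∨ Bpx (j - 1) (P - g) g
  /-- THEOREM B', `g = 1`. -/
  bq : g = 1 → Bqx j P
  /-- `G` of class `V(j)`, no zeros on the circle. -/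
  zP : ∀ z : ℂ, ‖z‖ ≤ 1 → (aeval z P : ℂ) ≠ 0
  le : ∀ z : ℂ, ‖z‖ = 1 → ‖(aeval z g : ℂ)‖ ≤ ‖(aeval z P : ℂ)‖
  /-- the zeros of the content (`κ` outside the open cardioid, no zero at `1`, `-1`). -/
  cr : ∀ z : ℂ, (aeval z c : ℂ) = 0 → z ^ 2 = -1

end Pool.Agent.B5.O4X
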