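import Pool.Agent.Lib.MP_b5021c_nt.IfaceAM
import Pool.Agent.Lib.MP_b5021c_nt.IfaceF

/-!
# MP_b5021c_nt, all `θ`, K ODD, (O4), cycles of length four: ports and parity

If every ray lies in a 4-cycle and the rank is odd, then the rays are linearly dependent, and there
are two different 4-cycles with overlapping rays, such that a non-trivial combination of the sums of
opposite rays lies in the span of the rays outside the cycle, for each of the two cycles.
-/

namespace Pool.Agent.B5.O4X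

set_option linter.unusedSectionVars false

open scoped LaurentPolynomial
open Pool.Agent.B5

variable {P : Type} [Fintype P] [DecidableEq P] {L : Type} [AddCommGroup L] [Module.Free ℤ L]
  [Module.Finite ℤ L] {phi : L →+ (P → ℤ)} {D : AO ℤ L} {eta : L → (RO ℤ)ˣ}

/-- Rotation of a cycle. -/
theorem cyc_rot {k : ℕ} {Z : ZMod (k + 3) → L} {mu : ZMod (k + 3) → L →+ ℤ}
    (h : Cyc phi D eta k Z mu) (c : ZMod (k + 3)) :
    Cyc phi D eta k (fun i => Z (i + c)) (fun i => mu (i + c)) where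
  inj := fun i j hij => add_right_cancel (h.inj hij)
  mtl := fun i => by
    have := h.mtl (i + c)
    rw [show i + c + 1 = i + 1 + c by ring] at this
    exact this
  dis := fun i j hij => h.dis (i + c) (j + c) (fun e => hij (add_right_cancel e))
  coe := fun i j => h.coe (i + c) (j + c)
  ker := fun i a => h.ker (i + c) a
  nxt := fun i => by
    have := h.nxt (i + c)
    rw [show i + c + 1 = i + 1 + c by ring] at this
    exact this
  prv := fun i => by
    have := h.prv (i + c)
    rw [show i + c - 1 = i - 1 + c by ring] at this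
    exact this
  oth := fun i T hT h1 h2 => h.oth (i + c) T hT
    (by rwa [show i + c + 1 = i + 1 + c by ring]) (by rwa [show i + c - 1 = i - 1 + c by ring])
  val := fun i a ha => h.val (i + c) a ha

/-- The rays outside `U` of a ray of the cycle are its two neighbours. -/
theorem cyc_nb {k : ℕ} {Z : ZMod (k + 3) → L} {mu : ZMod (k + 3) → L →+ ℤ}
    (h : Cyc phi D eta k Z mu) {i : ZMod (k + 3)} {T : L} (hT : Ray D T)
    (hU : T ∉ US (eta (Z i)) (Z i) D) : T = Z (i + 1) ∨ T = Z (i - 1) := by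
  by_contra hcon
  push Not at hcon
  exact hU ((h.ker i T).mpr (h.oth i T hT hcon.1 hcon.2))

theorem cyc_ray {k : ℕ} {Z : ZMod (k + 3) → L} {mu : ZMod (k + 3) → L →+ ℤ}
    (h : Cyc phi D eta k Z mu) (i : ZMod (k + 3)) : Ray D (Z i) := (h.mtl i).r0

/-- Two cycles with a common ray: the neighbours. -/
theorem cyc_nb2 {k : ℕ} {Z Z' : ZMod (k + 3) → L} {mu mu' : ZMod (k + 3) → L →+ ℤ}
    (h : Cyc phi D eta k Z mu) (h' : Cyc phi D eta k Z' mu') {i i' : ZMod (k + 3)}
    (he : Z i = Z' i') : Z' (i' + 1) = Z (i + 1) ∨ Z' (i' + 1) = Z (i - 1) := by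
  apply cyc_nb h (cyc_ray h' _)
  rw [he]
  exact (h'.mtl i').m0

/-- Two cycles with a common ray have the same range. -/
theorem cyc_range {k : ℕ} {Z Z' : ZMod (k + 3) → L} {mu mu' : ZMod (k + 3) → L →+ ℤ}
    (h : Cyc phi D eta k Z mu) (h' : Cyc phi D eta k Z' mu') {i i' : ZMod (k + 3)}
    (he : Z i = Z' i') : ∀ m : ZMod (k + 3), ∃ n, Z' m = Z n := by
  have key : ∀ c : ℕ, ∃ n, Z' (i' + c) = Z n := by
    intro c
    induction c with
    | zero => exact ⟨i, by rw [Nat.cast_zero, add_zero, he]⟩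
    | succ c ih =>
      obtain ⟨n, hn⟩ := ih
      have := cyc_nb2 h h' hn.symm
      rw [Nat.cast_succ, ← add_assoc]
      rcases this with h1 | h1
      · exact ⟨_, h1⟩
      · exact ⟨_, h1⟩
  intro m
  obtain ⟨n, hn⟩ := key (ZMod.val (m - i'))
  refine ⟨n, ?_⟩
  rw [← hn, ZMod.natCast_zmod_val]
  congr 1
  ring

/-- The opposite ray is well defined. -/
theorem cyc_opp {Z Z' : ZMod (1 + 3) → L} {mu mu' : ZMod (1 + 3) → L →+ ℤ}
    (h : Cyc phi D eta 1 Z mu) (h' : Cyc phi D eta 1 Z' mu') {i i' : ZMod (1 + 3)}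
    (he : Z i = Z' i') : Z (i + 2) = Z' (i' + 2) := by
  have e4 : (4 : ZMod (1 + 3)) = 0 := by decide
  have hne : Z' (i' + 2) ≠ Z i := by
    rw [he]
    intro h1
    have h2 := h'.inj h1
    have h3 : (2 : ZMod (1 + 3)) = 0 := by simpa using h2
    revert h3
    decide
  rcases cyc_nb2 h h' he with h1 | h1
  · have h2 := cyc_nb2 h h' h1.symm
    rw [show i' + 1 + 1 = i' + 2 by ring, show i + 1 + 1 = i + 2 by ring,
      show i + 1 - 1 = i by ring] at h2
    rcases h2 with h2 | h2
    · exact h2.symm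
    · exact absurd h2 hne
  · have h2 := cyc_nb2 h h' h1.symm
    rw [show i' + 1 + 1 = i' + 2 by ring, show i - 1 + 1 = i by ring,
      show i - 1 - 1 = i + 2 - 4 by ring, e4, sub_zero] at h2
    rcases h2 with h2 | h2
    · exact absurd h2 hne
    · exact h2.symm

/-- Every ray lies in a 4-cycle. -/
def Q4 (phi : L →+ (P → ℤ)) (D : AO ℤ L) (eta : L → (RO ℤ)ˣ) : Prop :=
  ∀ T, Ray D T → ∃ Z mu, Cyc phi D eta 1 Z mu ∧ Z 0 = T

theorem rays_finite (D : AO ℤ L) : {T : L | Ray D T}.Finite := by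
  have h : (supp D).Finite := by
    have : supp D = (D.coeff.support : Set L) := by
      ext a
      simp [supp]
    rw [this]
    exact D.coeff.support.finite_toSet
  exact h.subset (fun T hT => hT.1)

/-- The number of rays is even. -/
theorem even_rays (h4 : Q4 phi D eta) : Even (rays_finite D).toFinset.card := by
  classical
  choose Z mu hZ hZ0 using h4
  set s := (rays_finite D).toFinset with hs
  have hmem : ∀ T, T ∈ s ↔ Ray D T := fun T => by simp [hs]
  have hinv : ∀ (T : L) (hT : Ray D T) (hT2 : Ray D (Z T hT 2)), Z (Z T hT 2) hT2 2 = T := by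
    intro T hT hT2
    have h1 := cyc_opp (hZ (Z T hT 2) hT2) (hZ T hT) (i := 0) (i' := 2) (hZ0 _ hT2)
    rw [zero_add] at h1
    rw [h1]
    have e4 : (2 + 2 : ZMod (1 + 3)) = 0 := by decide
    rw [e4]
    exact hZ0 T hT
  have h0 : ∑ x ∈ s, (1 : ZMod 2) = 0 := by
    refine Finset.sum_involution (fun T hT => Z T ((hmem T).mp hT) 2) ?_ ?_ ?_ ?_
    · intro T hT
      decide
    · intro T hT _ h1
      have h2 : Z T ((hmem T).mp hT) 2 = Z T ((hmem T).mp hT) 0 := by
        rw [hZ0]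
        exact h1
      have h3 := (hZ T ((hmem T).mp hT)).inj h2
      revert h3
      decide
    · intro T hT
      exact (hmem _).mpr (cyc_ray (hZ T ((hmem T).mp hT)) 2)
    · intro T hT
      exact hinv T _ _
  rw [Finset.sum_const, nsmul_eq_mul, mul_one] at h0
  exact (ZMod.natCast_eq_zero_iff_even).mp h0

/-- The rays are linearly dependent. -/
theorem dep_rays (hE2 : E2S) (hD : DD phi D) (h2 : 2 ≤ Module.finrank ℤ L)
    (hodd : Odd (Module.finrank ℤ L)) (h4 : Q4 phi D eta) :
    ∃ b : L → ℤ, ∑ T ∈ (rays_finite D).toFinset, b T • T = 0 ∧ ∃ S, Ray D S ∧ b S ≠ 0 := by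
  classical
  obtain ⟨-, -, -, -, hrk, -⟩ := hE2 ℤ P L phi D hD h2
  set s := (rays_finite D).toFinset with hs
  have hmem : ∀ T, T ∈ s ↔ Ray D T := fun T => by simp [hs]
  by_contra hcon
  push Not at hcon
  have hli : LinearIndependent ℤ (fun T : s => (T : L)) := by
    rw [linearIndependent_iff']
    intro t g hg i hi
    have h1 := hcon (fun T => if h : T ∈ s then (if (⟨T, h⟩ : s) ∈ t then g ⟨T, h⟩ else 0) else 0)
      (by
        rw [← Finset.sum_attach s, ← hg]
        symm
        calc ∑ i ∈ t, g i • (i : L) = ∑ x ∈ t, (if h : (x : L) ∈ s then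
              (if (⟨x, h⟩ : s) ∈ t then g ⟨x, h⟩ else 0) else 0) • (x : L) := by
              apply Finset.sum_congr rfl
              intro x hx
              simp [hx]
          _ = _ := by
              apply Finset.sum_subset (fun x _ => Finset.mem_attach s x)
              intro x _ hx
              simp [hx])
      i ((hmem _).mp i.2)
    simpa [hi] using h1
  have h3 := finrank_span_eq_card hli
  have h5 : Set.range (fun T : s => (T : L)) = {b | Ray D b} := by
    ext T
    simp [hmem]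
  rw [h5] at h3
  have h6 : Fintype.card s = s.card := Fintype.card_coe s
  have h7 := even_rays h4
  rw [← hs, ← h6, ← h3] at h7
  rw [← hrk] at hodd
  exact (Nat.not_even_iff_odd.mpr hodd) h7

/-- A combination of the sums of opposite rays of the cycle is in the span of the outside rays. -/
def Rlt (D : AO ℤ L) (Z : ZMod (1 + 3) → L) : Prop := ∃ a0 a1 : ℤ, a0 ≠ 0 ∧
  a0 • (Z 0 + Z 2) + a1 • (Z 1 + Z 3) ∈ Submodule.span ℤ {T | Ray D T ∧ ∀ i, T ≠ Z i}

/-- The coefficients of a relation between the rays are equal for opposite rays. -/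
theorem rel_opp {b : L → ℤ} (hb : ∑ T ∈ (rays_finite D).toFinset, b T • T = 0)
    {k : ℕ} {Z : ZMod (k + 3) → L} {mu : ZMod (k + 3) → L →+ ℤ} (h : Cyc phi D eta k Z mu)
    (i : ZMod (k + 3)) : b (Z (i + 1)) = b (Z (i - 1)) := by
  classical
  have h1 := congrArg (mu i) hb
  rw [map_sum, map_zero] at h1
  have hne : Z (i + 1) ≠ Z (i - 1) := by
    intro e
    have h2 := h.inj e
    have h3 := h.nxt i
    have h4 := h.prv i
    rw [← h2, h3] at h4
    norm_num at h4
  rw [← Finset.sum_subset (s₁ := {Z (i + 1), Z (i - 1)}) ?_ ?_] at h1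
  · rw [Finset.sum_pair hne, map_zsmul, map_zsmul, h.nxt, h.prv] at h1
    simp only [smul_eq_mul, mul_one, mul_neg] at h1
    omega
  · intro T hT
    simp only [Finset.mem_insert, Finset.mem_singleton] at hT
    rw [Set.Finite.mem_toFinset]
    rcases hT with rfl | rfl
    · exact cyc_ray h _
    · exact cyc_ray h _
  · intro T hT h2
    simp only [Finset.mem_insert, Finset.mem_singleton, not_or] at h2
    rw [Set.Finite.mem_toFinset] at hT
    rw [map_zsmul, h.oth i T hT h2.1 h2.2, smul_zero]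

theorem rlt_of {b : L → ℤ} (hb : ∑ T ∈ (rays_finite D).toFinset, b T • T = 0)
    {Z : ZMod (1 + 3) → L} {mu : ZMod (1 + 3) → L →+ ℤ} (h : Cyc phi D eta 1 Z mu)
    (h0 : b (Z 0) ≠ 0) : Rlt D Z := by
  classical
  refine ⟨b (Z 0), b (Z 1), h0, ?_⟩
  have e20 : b (Z 2) = b (Z 0) := by
    have := rel_opp hb h 1
    rw [show (1 + 1 : ZMod (1 + 3)) = 2 by decide, show (1 - 1 : ZMod (1 + 3)) = 0 by decide] at this
    exact this
  have e31 : b (Z 3) = b (Z 1) := by
    have := rel_opp hb h 2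
    rw [show (2 + 1 : ZMod (1 + 3)) = 3 by decide, show (2 - 1 : ZMod (1 + 3)) = 1 by decide] at this
    exact this
  set s := (rays_finite D).toFinset with hs
  have hmem : ∀ T, T ∈ s ↔ Ray D T := fun T => by simp [hs]
  have hsub : Finset.univ.image Z ⊆ s := by
    intro T hT
    obtain ⟨i, -, rfl⟩ := Finset.mem_image.mp hT
    exact (hmem _).mpr (cyc_ray h i)
  have h1 := Finset.sum_sdiff (f := fun T => b T • T) hsub
  rw [hb, Finset.sum_image (fun i _ j _ e => h.inj e)] at h1
  have h2 : ∑ i : ZMod (1 + 3), b (Z i) • Z i =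
      b (Z 0) • (Z 0 + Z 2) + b (Z 1) • (Z 1 + Z 3) := by
    have e : ∑ i : ZMod (1 + 3), b (Z i) • Z i =
        b (Z 0) • Z 0 + b (Z 1) • Z 1 + b (Z 2) • Z 2 + b (Z 3) • Z 3 := by
      exact Fin.sum_univ_four (fun i : Fin 4 => b (Z i) • Z i)
    rw [e, e20, e31, smul_add, smul_add]
    abel
  rw [h2] at h1
  have h3 : b (Z 0) • (Z 0 + Z 2) + b (Z 1) • (Z 1 + Z 3) =
      -∑ T ∈ s \ Finset.univ.image Z, b T • T := by
    rw [eq_neg_iff_add_eq_zero, add_comm]
    exact h1
  rw [h3]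
  apply Submodule.neg_mem
  apply Submodule.sum_mem
  intro T hT
  rw [Finset.mem_sdiff, hmem] at hT
  apply Submodule.smul_mem
  apply Submodule.subset_span
  refine ⟨hT.1, fun i e => hT.2 ?_⟩
  exact Finset.mem_image.mpr ⟨i, Finset.mem_univ i, e.symm⟩

/-- (REL) TWO OVERLAPPING 4-CYCLES. -/
theorem rel (hE2 : E2S) (hD : DD phi D) (h2 : 2 ≤ Module.finrank ℤ L)
    (hodd : Odd (Module.finrank ℤ L)) (h4 : Q4 phi D eta) :
    ∃ (Z Z' : ZMod (1 + 3) → L) (mu mu' : ZMod (1 + 3) → L →+ ℤ),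
      Cyc phi D eta 1 Z mu ∧ Cyc phi D eta 1 Z' mu' ∧ (∀ i k, Z i ≠ Z' k) ∧
      (∃ p, phi (Z 0) p = 1 ∧ phi (Z' 0) p = 1) ∧ Rlt D Z ∧ Rlt D Z' := by
  classical
  obtain ⟨b, hb, S, hS, hbS⟩ := dep_rays hE2 hD h2 hodd h4
  have hp : ∃ p, phi S p = 1 := by
    by_contra hcon
    push Not at hcon
    apply hS.2.1
    apply hD.inj
    rw [map_zero]
    funext p
    exact (hD.bin S hS.1 p).resolve_right (hcon p)
  obtain ⟨p, hp⟩ := hp
  have h5 : ∃ R, Ray D R ∧ R ≠ S ∧ b R ≠ 0 ∧ phi R p = 1 := by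
    by_contra hcon
    push Not at hcon
    have h6 := congrArg (fun x => phi x p) hb
    simp only [map_sum, map_zsmul, map_zero, Finset.sum_apply, Pi.smul_apply, Pi.zero_apply] at h6
    rw [Finset.sum_eq_single S] at h6
    · rw [hp] at h6
      apply hbS
      simpa using h6
    · intro T hT hne
      rw [Set.Finite.mem_toFinset] at hT
      by_cases h7 : b T = 0
      · rw [h7, zero_smul]
      · rw [(hD.bin T hT.1 p).resolve_right (hcon T hT hne h7), smul_zero]
    · intro h7
      exact absurd ((rays_finite D).mem_toFinset.mpr hS) h7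
  obtain ⟨R, hR, hRS, hbR, hRp⟩ := h5
  obtain ⟨Z, mu, hZ, hZ0⟩ := h4 S hS
  obtain ⟨Z', mu', hZ', hZ0'⟩ := h4 R hR
  refine ⟨Z, Z', mu, mu', hZ, hZ', ?_, ⟨p, by rw [hZ0]; exact hp, by rw [hZ0']; exact hRp⟩,
    rlt_of hb hZ (by rw [hZ0]; exact hbS), rlt_of hb hZ' (by rw [hZ0']; exact hbR)⟩
  intro i k he
  obtain ⟨n, hn⟩ := cyc_range hZ hZ' he 0
  by_cases hn0 : n = 0
  · subst hn0
    rw [hZ0, hZ0'] at hn
    exact hRS hn
  · have h6 := hZ.dis n 0 hn0 p
    rw [← hn, hZ0, hZ0', hp, hRp] at h6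
    omega

end Pool.Agent.B5.O4X
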