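import Pool.Agent.Lib.MP_b5021c_nt.KO.H40.Df4
import Pool.Agent.Lib.MP_b5021c_nt.KO.H67.Tk
import Pool.Agent.Lib.MP_b5021c_nt.KO.H96.Patx2
import Pool.Agent.Lib.MP_b5021c_nt.KO.H29.Ray4

/-!
# MP_b5021c_nt, all `θ`, K ODD, (O4): the rays moved by a double closing of a component

`Z` a cycle of the component `C` (loads B, `u = 1`, `n = j + 1`) of any length, `nu` kills the double
closing `V''` of `Z i`, `Z (i+1)` at the loads `(-1/z, z)` or `(z, -1/z)` (`Lds`); `eta` designated.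
By PATX and PX a ray `T` outside the cycle with `nu T ≠ 0` kills the whole cycle, its load is A,
`f_T = (1 - z - z²) f`, the load B is drop free (`mov_or`), and it kills no fully mutual ray outside
the cycle (`mov_only`).  For a cycle of length at least four there is no moved ray (row TK).
-/

set_option linter.unusedSectionVars false

namespace Pool.Agent.B5.O4X

open scoped LaurentPolynomial
open Polynomial
open Pool.Agent.B5 Pool.Agent.B5.KE
open Pool.Agent.B5.Nr.Sch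
open Pool.Agent.B5.Nr (TrezS)
open Pool.Agent.B5.H61 (CuspS)
open Pool.Agent.B5.KV67 (TT1 tA_val)

section

variable {P L : Type} [Fintype P] [DecidableEq P] [AddCommGroup L] [Module.Free ℤ L]
  [Module.Finite ℤ L] {phi : L →+ (P → ℤ)} {D : AO ℤ L} {eta : L → (RO ℤ)ˣ}

/-- The loads `(-1/z, z)` or `(z, -1/z)`. -/
def Lds (t0 t1 : (RO ℤ)ˣ) : Prop :=
  (1 - (t0 : RO ℤ)) * (1 - (t1 : RO ℤ)) = LaurentPolynomial.T (-1) - LaurentPolynomial.T 1

theorem lds_AC : Lds tA tC := by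
  unfold Lds
  rw [tA_val, KO.H40.tC_val]
  linear_combination (-1 : RO ℤ) * TT1

theorem Lds.symm {t0 t1 : (RO ℤ)ˣ} (h : Lds t0 t1) : Lds t1 t0 := by
  unfold Lds at h ⊢
  rw [mul_comm]
  exact h

/-- The class of `a` in the double closing. -/
noncomputable def blk (D : AO ℤ L) (S S1 : L) (u0 u1 : (RO ℤ)ˣ) (a : L) : RO ℤ :=
  D.coeff a + (u0 : RO ℤ) * D.coeff (a + S) + (u1 : RO ℤ) * D.coeff (a + S1) +
    (u0 : RO ℤ) * (u1 : RO ℤ) * D.coeff (a + S + S1)

/-- A ray in `U_S`, `U_(S1)` whose class is killed: type (0,0). -/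
theorem t00_blk (hF1 : F1S) (hD : DD phi D) {S S1 R : L} {t0 t1 : (RO ℤ)ˣ} (ht : Lds t0 t1)
    (hM : Mut D S S1 (eta S) (eta S1)) (dis : ∀ i, phi S i = 0 ∨ phi S1 i = 0)
    (ho : Out phi S S1 R) (rR : Ray D R) (u0 : R ∈ US (eta S) S D)
    (u1 : R ∈ US (eta S1) S1 D) (hb : blk D S S1 (eta S * t0) (eta S1 * t1) R = 0) :
    ∃ r, T00 phi D eta S S1 R r := by
  have hS := hF1 ℤ P L phi D S (eta S) hD.inj hD.bin (hD.bin S hM.r0.1) hM.r0.2.1
  have hS1 := hF1 ℤ P L phi D S1 (eta S1) hD.inj hD.bin (hD.bin S1 hM.r1.1) hM.r1.2.1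
  have a0 : R + S ∉ US (eta S1) S1 D := fun h => hM.m1 (by
    have := Submodule.sub_mem _ h u1
    rwa [add_sub_cancel_left] at this)
  have a1 : R + S1 ∉ US (eta S) S D := fun h => hM.m0 (by
    have := Submodule.sub_mem _ h u0
    rwa [add_sub_cancel_left] at this)
  have e0 := (hS1 _ a0).2 (fun i => by
    rw [map_add, Pi.add_apply]
    rcases dis i with h | h
    · rw [h, add_zero]
      exact (ho i).imp id And.right
    · exact Or.inr h)
  have e1 := (hS _ a1).2 (fun i => by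
    rw [map_add, Pi.add_apply]
    rcases dis i with h | h
    · exact Or.inr h
    · rw [h, add_zero]
      exact (ho i).imp id And.left)
  rw [show R + S1 + S = R + S + S1 by abel] at e1
  unfold blk at hb
  unfold Lds at ht
  rw [Units.val_mul, Units.val_mul] at hb
  have c00 : D.coeff R = (1 + LaurentPolynomial.T 1 - LaurentPolynomial.T (-1)) *
      ((eta S : RO ℤ) * (eta S1 : RO ℤ) * D.coeff (R + S + S1)) := by
    linear_combination hb - ((eta S : RO ℤ) * (t0 : RO ℤ)) * e0 -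
      ((eta S1 : RO ℤ) * (t1 : RO ℤ)) * e1 -
      ((eta S : RO ℤ) * (eta S1 : RO ℤ) * D.coeff (R + S + S1)) * ht
  refine ⟨(eta S : RO ℤ) * (eta S1 : RO ℤ) * D.coeff (R + S + S1), rR, ho, u0, u1, ?_, c00, ?_,
    ?_, rfl⟩
  · intro h0
    rw [h0, mul_zero] at c00
    exact rR.1 c00
  · linear_combination (eta S : RO ℤ) * e0
  · linear_combination (eta S1 : RO ℤ) * e1

/-- A ray outside a cycle lies in all `U` of the cycle. -/
theorem cyc_out {k : ℕ} {Z : ZMod (k + 3) → L} {mu : ZMod (k + 3) → L →+ ℤ}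
    (h : Cyc phi D eta k Z mu) {T : L} (hT : Ray D T) (hTZ : ∀ n, T ≠ Z n) (i : ZMod (k + 3)) :
    T ∈ US (eta (Z i)) (Z i) D := (h.ker i T).mpr (h.oth i T hT (hTZ _) (hTZ _))

/-- A fully mutual ray outside the cycle: the cycle is in its `U`, and its partners are outside. -/
theorem fm_out {k : ℕ} {Z : ZMod (k + 3) → L} {mu : ZMod (k + 3) → L →+ ℤ}
    (h : Cyc phi D eta k Z mu) {R : L} (hR : KO.Fm D eta R) (hRZ : ∀ n, R ≠ Z n)
    (n : ZMod (k + 3)) : Z n ∈ US (eta R) R D := by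
  by_contra hc
  exact hR.2 (Z n) (h.mtl n).r0 hc (cyc_out h hR.1 hRZ n)

theorem fm_part {k : ℕ} {Z : ZMod (k + 3) → L} {mu : ZMod (k + 3) → L →+ ℤ}
    (h : Cyc phi D eta k Z mu) {R R' : L} (hR : KO.Fm D eta R) (hRZ : ∀ n, R ≠ Z n)
    (hR' : R' ∉ US (eta R) R D) : ∀ n, R' ≠ Z n := by
  rintro n rfl
  exact hR' (fm_out h hR hRZ n)

/-- The class of a moved ray is killed. -/
theorem mov_blk (hI : Inj1S) (fp : FP phi D) {S S1 T : L} {u0 u1 : (RO ℤ)ˣ} {nu : L →+ ℤ}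
    (rS : Ray D S) (rS1 : Ray D S1) (hk : Kil phi D S S1 u0 u1 nu) (rT : Ray D T)
    (hn : nu T ≠ 0) : Out phi S S1 T ∧ blk D S S1 u0 u1 T = 0 := by
  have ho := KO.H40.kil_out hI fp rS rS1 hk rT hn
  exact ⟨ho, hk.free T ho hn⟩

/-- (MOV) A MOVED RAY OUTSIDE THE CYCLE KILLS THE CYCLE, load A, `f_T = (1 - z - z²) f`. -/
theorem mov_or (hF1 : F1S) (hF2 : F2S) (hF3 : F3S) (hI : Inj1S) (hE2 : E2S) (hRk : RkUSS)
    {q f : ℤ[X]} {a : ℝ} {j : ℕ} (hK : Ko phi D q a j) (des : KO.Des phi D q a eta)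
    (hu : f.coeff 0 = 1) {k : ℕ} {Z : ZMod (k + 3) → L} {mu : ZMod (k + 3) → L →+ ℤ}
    (h : Cyc phi D eta k Z mu) {i : ZMod (k + 3)} (hco : (eta (Z i) : RO ℤ) * D.coeff (Z i) = toLaurent (X * f))
    (hpx : ∀ R r, KO.Fm D eta R → (∀ n, R ≠ Z n) → ¬ T00 phi D eta (Z i) (Z (i + 1)) R r)
    {t0 t1 : (RO ℤ)ˣ} (ht : Lds t0 t1) {nu : L →+ ℤ}
    (hk : Kil phi D (Z i) (Z (i + 1)) (eta (Z i) * t0) (eta (Z (i + 1)) * t1) nu) {T : L}
    (hT : Ray D T) (hTZ : ∀ n, T ≠ Z n) (hn : nu T ≠ 0) :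
    (∀ n, Z n ∉ US (eta T) T D) ∧ ∃ e : (RO ℤ)ˣ, RN D T q ((1 - X - X ^ 2) * f) e a ∧
      eta T = -e ∧ Dfr phi D T (ld e 1) := by
  have fp := hK.min.fp
  have hD := fp.dd
  have h2 : 2 ≤ Module.finrank ℤ L := by have := hK.rk; have := hK.j2; omega
  have hM := h.mtl i
  have ne01 : i ≠ i + 1 := KO29.ne_succ i
  have dis := h.dis i (i + 1) ne01
  have rays : ∀ m : Fin 2, Ray D (![Z i, Z (i + 1)] m) := by
    intro m
    fin_cases m
    · exact hM.r0
    · exact hM.r1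
  -- some `Z n` is outside `U_T`
  have hex : ∃ n, Z n ∉ US (eta T) T D := by
    by_contra hcon
    push Not at hcon
    obtain ⟨R, hFm, hle, hRT, hOu, hms⟩ := (KO.MKil.two hk).patx hF1 hF2 hF3 hI fp rays
      (des.abd hE2 hRk hD h2) hT hn (by
        intro m
        fin_cases m
        · exact hcon i
        · exact hcon (i + 1))
    have hRZ : ∀ n, R ≠ Z n := by
      rintro n rfl
      rcases hRT with h1 | h1
      · exact hTZ n h1.symm
      · exact h1 (hcon n)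
    obtain ⟨r, t00⟩ := t00_blk hF1 hD ht hM dis (KO.ouv_two.mp hOu) hFm.1
      (cyc_out h hFm.1 hRZ i) (cyc_out h hFm.1 hRZ (i + 1)) (by
        rw [KO.msum_two] at hms
        exact hms)
    exact hpx R r hFm hRZ t00
  obtain ⟨n, hn1⟩ := hex
  have hall := KO67.cyc_all hF3 hD h hT hTZ hn1
  refine ⟨hall, ?_⟩
  obtain ⟨ho, hb⟩ := mov_blk hI fp hM.r0 hM.r1 hk hT hn
  obtain ⟨r, t00⟩ := t00_blk hF1 hD ht hM dis ho hT (cyc_out h hT hTZ i)
    (cyc_out h hT hTZ (i + 1)) hb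
  have hf := KO.f1d hF1 hD hT (hall i) (hF2 ℤ P L phi D (Z i) T (eta T) hD.inj hD.bin hM.r0 hT
    (hall i))
  have hc := t00.c10
  rw [add_comm (Z i) T] at hf
  -- the load of `T`
  have key : (eta T : RO ℤ) * D.coeff T =
      (1 + LaurentPolynomial.T 1 - LaurentPolynomial.T (-1)) * toLaurent (X * f) := by
    rw [← hco, t00.c00]
    linear_combination (-(1 + LaurentPolynomial.T 1 - LaurentPolynomial.T (-1)) : RO ℤ) *
      (eta (Z i) : RO ℤ) * hf + ((1 + LaurentPolynomial.T 1 - LaurentPolynomial.T (-1)) : RO ℤ) *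
      (eta T : RO ℤ) * hc
  have key2 : toLaurent X * ((eta T : RO ℤ) * D.coeff T) =
      toLaurent (X * ((X + X ^ 2 - 1) * f)) := by
    rw [key, toLaurent_X]
    simp only [map_mul, map_add, map_sub, map_one, map_pow, toLaurent_X]
    linear_combination (-(LaurentPolynomial.T 1 * toLaurent f) : RO ℤ) * TT1
  obtain ⟨fT, e, hR, -, hor⟩ := des T hT
  rcases hor with h1 | ⟨h1, -, h3⟩
  · exfalso
    rw [h1, KO.ld_S1 hR, ← map_mul] at key2
    have h4 := mul_left_cancel₀ X_ne_zero (toLaurent_injective key2)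
    have h5 := congrArg (fun p : ℤ[X] => p.coeff 0) h4
    simp [mul_coeff_zero, hu] at h5
  · refine ⟨e, ?_, h1, h3⟩
    rw [h1, KO.neg_S hR, ← map_mul] at key2
    have h4 := mul_left_cancel₀ X_ne_zero (toLaurent_injective key2)
    have h5 : fT = (1 - X - X ^ 2) * f := by linear_combination -h4
    rw [← h5]
    exact hR

/-- (MOV) A MOVED RAY `T` KILLS NO FULLY MUTUAL RAY OUTSIDE THE CYCLE. -/
theorem mov_only (hF1 : F1S) (hF2 : F2S) (hF3 : F3S) (hI : Inj1S) (hE2 : E2S) (hRk : RkUSS)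
    {q : ℤ[X]} {a : ℝ} {j : ℕ} (hK : Ko phi D q a j) (des : KO.Des phi D q a eta) {k : ℕ}
    {Z : ZMod (k + 3) → L} {mu : ZMod (k + 3) → L →+ ℤ} (h : Cyc phi D eta k Z mu)
    {i : ZMod (k + 3)}
    (hpx : ∀ R r, KO.Fm D eta R → (∀ n, R ≠ Z n) → ¬ T00 phi D eta (Z i) (Z (i + 1)) R r)
    {t0 t1 : (RO ℤ)ˣ} (ht : Lds t0 t1) {nu : L →+ ℤ}
    (hk : Kil phi D (Z i) (Z (i + 1)) (eta (Z i) * t0) (eta (Z (i + 1)) * t1) nu) {T : L}
    (hT : Ray D T) (hTZ : ∀ n, T ≠ Z n) (hn : nu T ≠ 0) {R : L} (hR : KO.Fm D eta R)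
    (hRZ : ∀ n, R ≠ Z n) : R ∈ US (eta T) T D := by
  have fp := hK.min.fp
  have hD := fp.dd
  have h2 : 2 ≤ Module.finrank ℤ L := by have := hK.rk; have := hK.j2; omega
  have hall := des.abd hE2 hRk hD h2
  have hM := h.mtl i
  have ne01 : i ≠ i + 1 := KO29.ne_succ i
  have dis := h.dis i (i + 1) ne01
  -- a moved ray is not fully mutual
  have nfm : ∀ S, Ray D S → (∀ n, S ≠ Z n) → nu S ≠ 0 → ¬ KO.Fm D eta S := by
    intro S rS hSZ hnS hFm
    obtain ⟨ho, hb⟩ := mov_blk hI fp hM.r0 hM.r1 hk rS hnS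
    obtain ⟨r, t00⟩ := t00_blk hF1 hD ht hM dis ho rS (cyc_out h rS hSZ i)
      (cyc_out h rS hSZ (i + 1)) hb
    exact hpx S r hFm hSZ t00
  -- `T` is in the `U` of every fully mutual ray outside
  have tin : ∀ S, KO.Fm D eta S → (∀ n, S ≠ Z n) → T ∈ US (eta S) S D := by
    intro S hS hSZ
    by_contra hc
    exact nfm T hT hTZ hn (hS.step hF3 hD hall hT hc)
  by_contra hRT
  have hle := (KO.incl_US hF3 hD hT hR.1 hRT (tin R hR hRZ)).1
  obtain ⟨R', hR', hRR'⟩ := hall R hR.1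
  have hFm' : KO.Fm D eta R' := hR.step hF3 hD hall hR' hRR'
  have hRZ' := fm_part h hR hRZ hRR'
  have hR'T : R' ∉ US (eta T) T D := fun hh => hRR' (hle hh)
  have hle' := (KO.incl_US hF3 hD hT hR' hR'T (tin R' hFm' hRZ')).1
  have hRU' : R ∉ US (eta R') R' D := hR.2 R' hR' hRR'
  have z0 := fm_out h hFm' hRZ' i
  have z1 := fm_out h hFm' hRZ' (i + 1)
  have hRn : nu R = 0 := by
    by_contra hc
    exact nfm R hR.1 hRZ hc hR
  have hTo := KO.H40.kil_out hI fp hM.r0 hM.r1 hk hT hn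
  have hdis := hF2 ℤ P L phi D R T (eta T) hD.inj hD.bin hR.1 hT hRT
  have f0 := KO.f1d hF1 hD hT hRT hdis
  have hRTs : R + T ∈ supp D := by
    intro hh
    change D.coeff (R + T) = 0 at hh
    rw [hh, mul_zero, add_zero] at f0
    exact hR.1.1 f0
  -- `R` is disjoint from the two closed rays
  have key : ∀ S, Ray D S → R ≠ S → (∀ p, phi T p = 0 ∨ phi S p = 0) →
      (∀ b ∈ supp D, Part phi S b → nu b = 0) → ∀ p, phi R p = 0 ∨ phi S p = 0 := by
    intro S rS hne hTS hpt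
    apply KO.dsj hI fp rS hR.1 (fun e => hne e.symm)
    rintro ⟨⟨x, hx1, hx2⟩, y, hy1, hy2⟩
    have h4 := hpt (R + T) hRTs ⟨⟨x, by
      rw [map_add, Pi.add_apply, hx1, (hTS x).resolve_right (by rw [hx2]; exact one_ne_zero),
        add_zero], hx2⟩, y, by
      rw [map_add, Pi.add_apply, hy1, (hTS y).resolve_right (by rw [hy2]; exact one_ne_zero),
        add_zero], hy2⟩
    rw [map_add, hRn, zero_add] at h4
    exact hn h4
  have r0 := key (Z i) hM.r0 (hRZ i) (fun p => (hTo p).imp id And.left)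
    (fun b hb hp => hk.part b hb (Or.inl hp))
  have r1 := key (Z (i + 1)) hM.r1 (hRZ (i + 1)) (fun p => (hTo p).imp id And.right)
    (fun b hb hp => hk.part b hb (Or.inr hp))
  have hRo : Out phi (Z i) (Z (i + 1)) R := fun p => by
    rcases r0 p with h1 | h1
    · exact Or.inl h1
    · rcases r1 p with h3 | h3
      · exact Or.inl h3
      · exact Or.inr ⟨h1, h3⟩
  have hRTo : Out phi (Z i) (Z (i + 1)) (R + T) := fun p => by
    rcases hRo p with h1 | h1
    · rcases hTo p with h3 | h3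
      · left
        rw [map_add, Pi.add_apply, h1, h3, add_zero]
      · exact Or.inr h3
    · exact Or.inr h1
  have hb := hk.free (R + T) hRTo (by rw [map_add, hRn, zero_add]; exact hn)
  -- the flips at `T`
  have fl : ∀ x, x ∈ US (eta R') R' D → (∀ p, phi x p = 0 ∨ phi T p = 0) →
      D.coeff (R + x) + (eta T : RO ℤ) * D.coeff (R + T + x) = 0 := by
    intro x hx hxT
    have h4 := KO.f1d hF1 hD hT (x := R + x) (e := eta T) (fun hh => hRU' (by
      have := Submodule.sub_mem _ (hle' hh) hx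
      rwa [add_sub_cancel_right] at this)) (fun p => by
      rcases hdis p with h1 | h1
      · rcases hxT p with h3 | h3
        · left
          rw [map_add, Pi.add_apply, h1, h3, add_zero]
        · exact Or.inr h3
      · exact Or.inr h1)
    rwa [add_right_comm] at h4
  have g0 := fl (Z i) z0 (fun p => ((hTo p).imp id And.left).symm)
  have g1 := fl (Z (i + 1)) z1 (fun p => ((hTo p).imp id And.right).symm)
  have g2 := fl (Z i + Z (i + 1)) (Submodule.add_mem _ z0 z1) (fun p => by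
    rcases hTo p with h1 | h1
    · exact Or.inr h1
    · left
      rw [map_add, Pi.add_apply, h1.1, h1.2, add_zero])
  rw [← add_assoc, ← add_assoc] at g2
  obtain ⟨r, t00⟩ := t00_blk hF1 hD ht hM dis hRo hR.1 (cyc_out h hR.1 hRZ i)
    (cyc_out h hR.1 hRZ (i + 1)) (by
      unfold blk
      linear_combination f0 + ((eta (Z i) * t0 : (RO ℤ)ˣ) : RO ℤ) * g0 +
        ((eta (Z (i + 1)) * t1 : (RO ℤ)ˣ) : RO ℤ) * g1 +
        ((eta (Z i) * t0 : (RO ℤ)ˣ) : RO ℤ) * ((eta (Z (i + 1)) * t1 : (RO ℤ)ˣ) : RO ℤ) * g2 -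
        (eta T : RO ℤ) * hb)
  exact hpx R r hR hRZ t00

end

end Pool.Agent.B5.O4X
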