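import Pool.Agent.Lib.MP_b5021c_nt.KO.H13.L4p
import Pool.Agent.Lib.MP_b5021c_nt.KO.H07.Ubd

/-!
# MP_b5021c_nt, all `θ`, K ODD, (O4), two overlapping 4-cycles: the end (one variable)
-/

namespace Pool.Agent.B5.O4X

open Polynomial
open Pool.Agent.B5

variable {j : ℕ} {q f f' p p' c c' P P' g g' : ℤ[X]} {x y : ℝ}

theorem ex_root {k : ℕ} (hk : 1 ≤ k) {w : ℂ} (hw : ‖w‖ ≤ 1) : ∃ z : ℂ, ‖z‖ ≤ 1 ∧ z ^ k = w := by
  obtain ⟨z, hz⟩ := IsAlgClosed.exists_pow_nat_eq w (by omega : 0 < k)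
  refine ⟨z, ?_, hz⟩
  by_contra hcon
  push Not at hcon
  have h1 : 1 < ‖z‖ ^ k := one_lt_pow₀ hcon (by omega)
  rw [← norm_pow, hz] at h1
  linarith

theorem ex_root1 {k : ℕ} (hk : 1 ≤ k) {w : ℂ} (hw : ‖w‖ = 1) : ∃ z : ℂ, ‖z‖ = 1 ∧ z ^ k = w := by
  obtain ⟨z, hz, hz2⟩ := ex_root hk hw.le
  refine ⟨z, ?_, hz2⟩
  have h1 : ‖z‖ ^ k = 1 := by rw [← norm_pow, hz2, hw]
  exact (pow_eq_one_iff_of_nonneg (norm_nonneg z) (by omega)).mp h1

/-- The bounds for the pair of binomials. -/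
theorem bin_bds {k : ℕ} {t r : ℤ} (hk : 1 ≤ k) (hP : P = C (j : ℤ) + C t * X ^ k)
    (hg : g = 1 + C r * X ^ k) (hz : ∀ z : ℂ, ‖z‖ ≤ 1 → (aeval z P : ℂ) ≠ 0)
    (hle : ∀ z : ℂ, ‖z‖ = 1 → ‖(aeval z g : ℂ)‖ ≤ ‖(aeval z P : ℂ)‖) :
    |t| < j ∧ |r| ≤ j := by
  have eP : ∀ z : ℂ, (aeval z P : ℂ) = j + t * z ^ k := by
    intro z
    rw [hP, map_add, map_mul, map_pow, aeval_X, aeval_C, aeval_C]
    simp
  have eg : ∀ z : ℂ, (aeval z g : ℂ) = 1 + r * z ^ k := by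
    intro z
    rw [hg, map_add, map_mul, map_pow, aeval_X, aeval_C, map_one]
    simp
  have ht : |t| < j := by
    by_contra hcon
    push Not at hcon
    have ht0 : t ≠ 0 := by
      rintro rfl
      have h1 := hz 0 (by simp)
      rw [eP] at h1
      apply h1
      rw [abs_zero] at hcon
      have : (j : ℤ) = 0 := by omega
      have h2 : j = 0 := by exact_mod_cast this
      rw [h2]
      simp
    have ht1 : (t : ℂ) ≠ 0 := by exact_mod_cast ht0
    obtain ⟨z, hz1, hz2⟩ := ex_root (k := k) hk (w := -(j : ℂ) / t) (by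
      rw [norm_div, norm_neg, Complex.norm_natCast, Complex.norm_intCast]
      have h1 : (0 : ℝ) < |(t : ℝ)| := by
        rw [abs_pos]
        exact_mod_cast ht0
      rw [div_le_one h1]
      exact_mod_cast hcon)
    apply hz z hz1
    rw [eP, hz2]
    field_simp
    ring
  refine ⟨ht, ?_⟩
  obtain ⟨h1, h2⟩ := abs_lt.mp ht
  have hp1 := hle 1 (by simp)
  rw [eP, eg, one_pow, mul_one, mul_one] at hp1
  have e1 : ‖(1 : ℂ) + r‖ = |((1 + r : ℤ) : ℝ)| := by
    rw [← Complex.norm_intCast]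
    push_cast
    rfl
  have e2 : ‖(j : ℂ) + t‖ = |((j + t : ℤ) : ℝ)| := by
    rw [← Complex.norm_intCast]
    push_cast
    rfl
  rw [e1, e2] at hp1
  obtain ⟨w, hw1, hw2⟩ := ex_root1 (k := k) hk (w := -1) (by simp)
  have hm1 := hle w hw1
  rw [eP, eg, hw2] at hm1
  have e3 : ‖(1 : ℂ) + r * -1‖ = |((1 - r : ℤ) : ℝ)| := by
    rw [← Complex.norm_intCast]
    push_cast
    ring_nf
  have e4 : ‖(j : ℂ) + t * -1‖ = |((j - t : ℤ) : ℝ)| := by
    rw [← Complex.norm_intCast]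
    push_cast
    ring_nf
  rw [e3, e4] at hm1
  have i1 : |1 + r| ≤ |(j : ℤ) + t| := by exact_mod_cast hp1
  have i2 : |1 - r| ≤ |(j : ℤ) - t| := by exact_mod_cast hm1
  rw [abs_of_nonneg (by omega : 0 ≤ (j : ℤ) + t)] at i1
  rw [abs_of_nonneg (by omega : 0 ≤ (j : ℤ) - t)] at i2
  have i3 := abs_le.mp i1
  have i4 := abs_le.mp i2
  rw [abs_le]
  constructor <;> omega

/-- A pair of binomials is impossible. -/
theorem bin_fin {k : ℕ} {t r : ℤ} (hk : 1 ≤ k) (h : Tp j q f x y)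
    (hX : X * p = (1 - X - X ^ 2) * f - q) (hp : p = C (j : ℤ) + C t * X ^ k)
    (hf : f = 1 + C r * X ^ k) (hr0 : r ≠ 0) (ht : |t| < j) (hr : |r| ≤ j) : False := by
  have hj := h.j2
  have hx0 := h.x0
  have hy0 := h.y0
  have hx := h.hx
  have hy := h.hy
  have hjr : (2 : ℝ) ≤ j := by exact_mod_cast hj
  have hq : q = (1 - X - X ^ 2) * f - X * p := by rw [hX]; ring
  have e : ∀ s : ℝ, (aeval s q : ℝ) = (1 - s - s ^ 2) * (1 + r * s ^ k) - s * (j + t * s ^ k) := by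
    intro s
    rw [hq, hp, hf]
    simp only [map_sub, map_mul, map_add, map_one, aeval_X, map_pow, aC, Int.cast_natCast]
  have h1 := h.I
  have h2 := h.II
  rw [e] at h1 h2
  rw [hf] at h2
  simp only [map_mul, map_add, map_one, aeval_X, map_pow, aC] at h2
  have i1 : x ^ 2 < x ^ k * (r * (1 - x - x ^ 2) - t * x) := by nlinarith
  have i2 : y ^ k * (r * (1 - y ^ 2) - t * y) ≤ y ^ 2 := by nlinarith
  obtain ⟨ht1, ht2⟩ := abs_lt.mp ht
  obtain ⟨hr1, hr2⟩ := abs_le.mp hr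
  have hJ : (2 : ℤ) ≤ j := by exact_mod_cast hj
  -- multiplied by `(j+1)^2` and `j^2`
  have m1 : ∀ v : ℝ, v * x ^ 2 < r * (1 - x - x ^ 2) - t * x →
      v < r * ((j : ℝ) ^ 2 + j - 1) - t * (j + 1) := by
    intro v hv
    have e1 : (j + 1 : ℝ) ^ 2 * (v * x ^ 2) = v * (x * (j + 1)) ^ 2 := by ring
    have e2 : (j + 1 : ℝ) ^ 2 * (r * (1 - x - x ^ 2) - t * x) =
        r * ((j + 1) ^ 2 - (x * (j + 1)) * (j + 1) - (x * (j + 1)) ^ 2) -
          t * ((x * (j + 1)) * (j + 1)) := by ring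
    have e3 := mul_lt_mul_of_pos_left hv (by positivity : (0 : ℝ) < (j + 1 : ℝ) ^ 2)
    rw [e1, e2, hx] at e3
    nlinarith
  have m2 : ∀ v : ℝ, r * (1 - y ^ 2) - t * y ≤ v * y ^ 2 →
      r * ((j : ℝ) ^ 2 - 1) - t * j ≤ v := by
    intro v hv
    have e1 : (j : ℝ) ^ 2 * (v * y ^ 2) = v * (y * j) ^ 2 := by ring
    have e2 : (j : ℝ) ^ 2 * (r * (1 - y ^ 2) - t * y) =
        r * (j ^ 2 - (y * j) ^ 2) - t * ((y * j) * j) := by ring
    have e3 := mul_le_mul_of_nonneg_left hv (by positivity : (0 : ℝ) ≤ (j : ℝ) ^ 2)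
    rw [e1, e2, hy] at e3
    nlinarith
  rcases Nat.lt_or_ge k 2 with hk2 | hk2
  · -- `k = 1`
    have hk1 : k = 1 := by omega
    subst hk1
    rw [pow_one] at i1 i2
    have j1 : (j + 1 : ℝ) * x ^ 2 < r * (1 - x - x ^ 2) - t * x := by
      have : (j + 1 : ℝ) * x ^ 2 = x := by
        calc (j + 1 : ℝ) * x ^ 2 = (x * (j + 1)) * x := by ring
          _ = x := by rw [hx, one_mul]
      rw [this]
      by_contra hcon
      push Not at hcon
      nlinarith
    have j2 : r * (1 - y ^ 2) - t * y ≤ (j : ℝ) * y ^ 2 := by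
      have : (j : ℝ) * y ^ 2 = y := by
        calc (j : ℝ) * y ^ 2 = (y * j) * y := by ring
          _ = y := by rw [hy, one_mul]
      rw [this]
      by_contra hcon
      push Not at hcon
      nlinarith
    have l1 := m1 _ j1
    have l2 := m2 _ j2
    have l1' : (j : ℤ) + 1 < r * ((j : ℤ) ^ 2 + j - 1) - t * (j + 1) := by exact_mod_cast l1
    have l2' : r * ((j : ℤ) ^ 2 - 1) - t * j ≤ j := by exact_mod_cast l2
    have l3 : (j : ℤ) ≤ r := by nlinarith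
    have l4 : r = j := by omega
    subst l4
    nlinarith
  · obtain ⟨m, rfl⟩ := Nat.exists_eq_add_of_le' hk2
    rw [pow_add] at i1 i2
    have hxm : 0 < x ^ m := pow_pos hx0 m
    have hym : 0 < y ^ m := pow_pos hy0 m
    have k1 : 1 < x ^ m * (r * (1 - x - x ^ 2) - t * x) := by
      by_contra hcon
      push Not at hcon
      have : x ^ 2 * (x ^ m * (r * (1 - x - x ^ 2) - t * x)) ≤ x ^ 2 * 1 :=
        mul_le_mul_of_nonneg_left hcon (by positivity)
      nlinarith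
    have k2 : y ^ m * (r * (1 - y ^ 2) - t * y) ≤ 1 := by
      by_contra hcon
      push Not at hcon
      have : y ^ 2 * 1 < y ^ 2 * (y ^ m * (r * (1 - y ^ 2) - t * y)) :=
        mul_lt_mul_of_pos_left hcon (by positivity)
      nlinarith
    rcases Nat.eq_zero_or_pos m with hm | hm
    · subst hm
      rw [pow_zero, one_mul] at k1 k2
      have j1 : (j + 1 : ℝ) ^ 2 * x ^ 2 < r * (1 - x - x ^ 2) - t * x := by
        have : (j + 1 : ℝ) ^ 2 * x ^ 2 = 1 := by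
          calc (j + 1 : ℝ) ^ 2 * x ^ 2 = (x * (j + 1)) ^ 2 := by ring
            _ = 1 := by rw [hx, one_pow]
        rw [this]
        exact k1
      have j2 : r * (1 - y ^ 2) - t * y ≤ (j : ℝ) ^ 2 * y ^ 2 := by
        have : (j : ℝ) ^ 2 * y ^ 2 = 1 := by
          calc (j : ℝ) ^ 2 * y ^ 2 = (y * j) ^ 2 := by ring
            _ = 1 := by rw [hy, one_pow]
        rw [this]
        exact k2
      have l1 := m1 _ j1
      have l2 := m2 _ j2
      have l1' : ((j : ℤ) + 1) ^ 2 < r * ((j : ℤ) ^ 2 + j - 1) - t * (j + 1) := by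
        exact_mod_cast l1
      have l2' : r * ((j : ℤ) ^ 2 - 1) - t * j ≤ (j : ℤ) ^ 2 := by exact_mod_cast l2
      nlinarith
    · have hxm1 : x ^ m ≤ x := by
        obtain ⟨n, rfl⟩ := Nat.exists_eq_add_of_le' hm
        rw [pow_succ]
        exact mul_le_of_le_one_left hx0.le (pow_le_one₀ hx0.le (by nlinarith))
      have hpos : 0 < r * (1 - x - x ^ 2) - t * x := by
        by_contra hcon
        push Not at hcon
        nlinarith [mul_nonneg hxm.le (neg_nonneg.mpr hcon)]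
      have k3 : 1 < x * (r * (1 - x - x ^ 2) - t * x) :=
        lt_of_lt_of_le k1 (mul_le_mul_of_nonneg_right hxm1 hpos.le)
      have j1 : (j + 1 : ℝ) ^ 3 * x ^ 2 < r * (1 - x - x ^ 2) - t * x := by
        have : x * ((j + 1 : ℝ) ^ 3 * x ^ 2) = 1 := by
          calc x * ((j + 1 : ℝ) ^ 3 * x ^ 2) = (x * (j + 1)) ^ 3 := by ring
            _ = 1 := by rw [hx, one_pow]
        by_contra hcon
        push Not at hcon
        have := mul_le_mul_of_nonneg_left hcon hx0.le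
        linarith
      have l1 := m1 _ j1
      have l1' : ((j : ℤ) + 1) ^ 3 < r * ((j : ℤ) ^ 2 + j - 1) - t * (j + 1) := by
        exact_mod_cast l1
      have l3 : r * ((j : ℤ) ^ 2 + j - 1) ≤ j * ((j : ℤ) ^ 2 + j - 1) :=
        mul_le_mul_of_nonneg_right hr2 (by nlinarith)
      have l4 : -(t * ((j : ℤ) + 1)) ≤ j * (j + 1) := by nlinarith
      nlinarith

theorem L4p.bpf (h : Tp j q f x y) (L : L4p j q f f' p c P g) (hg : g ≠ 1) : Bpf j P g := by
  rcases L.bd hg with h1 | h1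
  · exact Or.inl h1
  · have h2 := bpx_succ h1
    rw [Nat.sub_add_cancel (by have := h.j2; omega)] at h2
    exact bpf_of_bpx h2

/-- (END) TWO OVERLAPPING 4-CYCLES, one variable. -/
theorem l4_end (h : Tp j q f x y) (h' : Tp j q f' x y) (L : L4p j q f f' p c P g)
    (L' : L4p j q f' f p' c' P' g') (hq : (aeval Complex.I q : ℂ) ≠ 0) : False := by
  obtain ⟨rfl, rfl⟩ := O4C.l4_unit L L' h h' hq
  have e1 : p = P := by rw [L.cp, one_mul]
  have e2 : f' = g := by rw [L.cg, one_mul]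
  have e3 : p' = P' := by rw [L'.cp, one_mul]
  have e4 : f = g' := by rw [L'.cg, one_mul]
  subst e1 e2 e3 e4
  obtain ⟨k1, k2, k3⟩ := ubx h h' L.hX L'.hX (fun hg => L.bpf h hg) (fun hg => L'.bpf h' hg)
    L.bq L'.bq
  subst k1 k2
  have fin : ∀ (k : ℕ) (t r : ℤ), 1 ≤ k → p = C (j : ℤ) + C t * X ^ k → f = 1 + C r * X ^ k →
      False := by
    intro k t r hk hp hf
    obtain ⟨b1, b2⟩ := bin_bds hk hp hf L.zP L.le
    refine bin_fin hk h L.hX hp hf ?_ b1 b2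
    rintro rfl
    apply k3
    rw [hf]
    simp
  rcases bpf_fin h L.hX (L.bpf h k3) with ⟨k, t, r, hk, hp, hf⟩ | ⟨hj, hp, -⟩
  · exact fin k t r hk hp hf
  · rcases L.bd k3 with ⟨k, t, r, hk, hp, hf⟩ | ⟨k, t, r, hk, hp1, hf⟩ | ⟨s, M, F, hs, ⟨hM, -⟩, -⟩
    · exact fin k t r hk hp hf
    · refine fin k r r hk ?_ hf
      rw [hp, hf, hj]
      simp only [Nat.cast_ofNat, map_ofNat]
      ring
    · omega

end Pool.Agent.B5.O4X
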