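import Pool.Agent.Lib.MP_b5021c_nt.KO.H67.Tk

/-!
# MP_b5021c_nt, all `θ`, K ODD, (O4), ALPHA, row TK3: the end of TK_DT

An element of `DD` of rank `2 j - 2` with the apex `q + z (1 - z - z²) f + z (1 + z) f` contradicts
the one-variable data `TkD` of the face of `Z_0`, `Z_1`, `T`.
-/

set_option linter.unusedSectionVars false

namespace Pool.Agent.B5.O4X

open scoped LaurentPolynomial
open Polynomial
open Pool.Agent.B5 Pool.Agent.B5.KE
open Pool.Agent.B5.SFH27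
open Pool.Agent.B5.KO67

section

variable {P K : Type} [Fintype P] [DecidableEq P] [AddCommGroup K] [Module.Free ℤ K]
  [Module.Finite ℤ K]

/-- (TK_DT, END) -/
theorem dt_end (hCz : CzaS) (hLd : LdzS) {q f V : ℤ[X]} {a : ℝ} {j : ℕ} (h : TkD q f V a j)
    (ih : ∀ k < 2 * j + 1, Bnk k) {psi : K →+ (P → ℤ)} {W : AO ℤ K} {z0 : K} {e0 : (RO ℤ)ˣ}
    {θ : ℝ} (hD : DD psi W) (h2 : 2 ≤ Module.finrank ℤ K) (hP : ClassP θ (W.coeff 0))
    (r0 : Ray W z0) (hq : W.coeff 0 = toLaurent (q + X * ((1 - X - X ^ 2) * f)))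
    (hf : (e0 : RO ℤ) * W.coeff z0 = toLaurent (X * ((1 + X) * f)))
    {P' L' : Type} [Fintype P'] [DecidableEq P'] [AddCommGroup L'] [Module.Free ℤ L']
    [Module.Finite ℤ L'] {phi' : L' →+ (P' → ℤ)} {D' : AO ℤ L'} (hD' : DD phi' D')
    (hr' : Module.finrank ℤ L' + 2 = 2 * j)
    (h0' : D'.coeff 0 = toLaurent (q + X * ((1 - X - X ^ 2) * f) + X * ((1 + X) * f))) :
    False := by
  have hj : (2 : ℝ) ≤ j := by exact_mod_cast h.j2
  have hQ0 : (q + X * ((1 - X - X ^ 2) * f)).coeff 0 = 1 := by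
    rw [coeff_add, coeff_X_mul_zero, h.loc.q0, add_zero]
  have hq' : W.coeff 0 = LaurentPolynomial.T 0 *
      toLaurent (q + X * ((1 - X - X ^ 2) * f)) := by
    rw [LaurentPolynomial.T_zero, one_mul, hq]
  have hf' : (e0 : RO ℤ) * W.coeff z0 = LaurentPolynomial.T 0 *
      toLaurent (X * ((1 + X) * f)) := by
    rw [LaurentPolynomial.T_zero, one_mul, hf]
  obtain ⟨ld, -⟩ := hLd P K psi W z0 e0 θ 0 _ _ hD h2 r0 hP hq' (by rw [hQ0, abs_one]) hf'
  obtain ⟨T', s, Wc, c1⟩ := hCz _ _ ld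
  obtain ⟨b, hb0, hb1, hb⟩ := h.root
  have hroots := c1d_root c1 hQ0 hb0 hb1 hb
  have hc0 : (q + X * ((1 - X - X ^ 2) * f) + X * ((1 + X) * f)).coeff 0 = 1 := by
    rw [coeff_add, hQ0, coeff_X_mul_zero, add_zero]
  have hP' : ClassP b⁻¹ (D'.coeff 0) := by
    rw [h0']
    exact classP_of hb0 hb1 hc0 (by rw [pow_one] at hroots; exact hroots)
  have hbk := (ih (Module.finrank ℤ L') (by omega) b⁻¹ P' L' _ _ hD' hP' rfl).1
    ⟨j - 1, by omega⟩
  have hcast : (Module.finrank ℤ L' : ℝ) = 2 * j - 2 := by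
    have h3 : ((Module.finrank ℤ L' + 2 : ℕ) : ℝ) = ((2 * j : ℕ) : ℝ) := by rw [hr']
    push_cast at h3
    linarith
  rw [hcast, one_div, inv_inv] at hbk
  have hbj : (j : ℝ) - 1 ≤ b⁻¹ - b := by linarith
  -- the value at `t`
  obtain ⟨t, ht0, ht1, htj⟩ : ∃ t : ℝ, 0 < t ∧ t < 1 ∧ t ^ 2 + ((j : ℝ) - 1) * t = 1 := by
    have hc : ContinuousOn (fun t : ℝ => t ^ 2 + ((j : ℝ) - 1) * t) (Set.Icc 0 1) := by fun_prop
    have hmem : (1 : ℝ) ∈ Set.Icc ((0 : ℝ) ^ 2 + ((j : ℝ) - 1) * 0)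
        ((1 : ℝ) ^ 2 + ((j : ℝ) - 1) * 1) := by
      constructor <;> linarith
    obtain ⟨t, ht, ht1⟩ := intermediate_value_Icc zero_le_one hc hmem
    simp only at ht1
    refine ⟨t, ?_, ?_, ht1⟩
    · rcases lt_or_eq_of_le ht.1 with h2 | h2
      · exact h2
      · rw [← h2] at ht1
        norm_num at ht1
    · rcases lt_or_eq_of_le ht.2 with h2 | h2
      · exact h2
      · rw [h2] at ht1
        linarith
  have hbt : b ≤ t := by
    by_contra hc
    push Not at hc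
    have h1 : b⁻¹ < t⁻¹ := by
      rw [inv_lt_inv₀ hb0 ht0]
      exact hc
    have h2 : t⁻¹ - t = j - 1 := by
      field_simp
      linarith
    linarith
  have h3 := sgn (k := 1) (le_refl 1) (q := q + X * ((1 - X - X ^ 2) * f)) (f := (1 + X) * f) hQ0
    hb0 hroots hbt ht1
  rw [pow_one] at h3
  exact h.fin ht0 htj h3

end

end Pool.Agent.B5.O4X
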