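import Pool.Agent.Lib.MP_b5021c_nt.KO.H13.Tk3
import Pool.Agent.Lib.MP_b5021c_nt.KO.H13.TkE
import Pool.Agent.Lib.MP_b5021c_nt.KO.H71.Ncl

/-!
# MP_b5021c_nt, all `θ`, K ODD, (O4), ALPHA, row TK3: the closing of the killer at its load B

`Tf`: `T` kills a cycle of any length at its load A, `f_T = (1 - z - z²) f`, the load B is drop free
(helper67's `Tkr` without the condition on the length).  `Tf.full`: the closing `W` of `T` at the
load B is in `DD`, rank `2 j`, class `P`; `Tf.rim`, `Tf.cz`: the rays of the cycle in `W`;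
`Tf.tri`: they form a closed triple (length three); `Tk3.tf`.
-/

set_option linter.unusedSectionVars false

namespace Pool.Agent.B5.O4X

open scoped LaurentPolynomial
open Polynomial
open Pool.Agent.B5 Pool.Agent.B5.KE
open Pool.Agent.B5.Nr.Sch (Loc)
open Pool.Agent.B5.Nr (TrezS)
open Pool.Agent.B5.H61 (CuspS)
open Pool.Agent.B5.KO67
open Pool.Agent.B5.KO.H96 (Alp)

section

variable {P L : Type} [Fintype P] [DecidableEq P] [AddCommGroup L] [Module.Free ℤ L]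
  [Module.Finite ℤ L] {phi : L →+ (P → ℤ)} {D : AO ℤ L} {eta : L → (RO ℤ)ˣ} {k : ℕ}
  {Z : ZMod (k + 3) → L} {mu : ZMod (k + 3) → L →+ ℤ}

/-- A killer of a cycle of any length with `f_T = (1 - z - z²) f`, load A, load B drop free. -/
structure Tf (phi : L →+ (P → ℤ)) (D : AO ℤ L) (q f : ℤ[X]) (a : ℝ) (j : ℕ) (eta : L → (RO ℤ)ˣ)
    (k : ℕ) (Z : ZMod (k + 3) → L) (mu : ZMod (k + 3) → L →+ ℤ) (T : L) (eT : (RO ℤ)ˣ) : Prop where
  ko : Ko phi D q a j
  f0 : f.coeff 0 = 1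
  n : f.coeff 1 - q.coeff 1 = j + 1
  loc : Loc q f a
  ne : ∃ z : ℂ, ‖z‖ = 1 ∧ ‖aeval z f‖ ≠ ‖aeval z q‖
  cyc : Cyc phi D eta k Z mu
  cf : ∀ i, (eta (Z i) : RO ℤ) * D.coeff (Z i) = toLaurent (X * f)
  rT : Ray D T
  TZ : ∀ i, T ≠ Z i
  rn : RN D T q ((1 - X - X ^ 2) * f) eT a
  dfr : Dfr phi D T (ld eT 1)
  kil : ∀ i, Z i ∉ US (-eT) T D
  cusp : ∀ z : ℂ, ‖z‖ = 1 → (aeval z (q + X * f) : ℂ) ≠ 0

variable {q f : ℤ[X]} {a : ℝ} {j : ℕ} {T : L} {eT : (RO ℤ)ˣ}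

theorem Tf.dd (h : Tf phi D q f a j eta k Z mu T eT) : DD phi D := h.ko.min.fp.dd

theorem Tf.two (h : Tf phi D q f a j eta k Z mu T eT) : 2 ≤ Module.finrank ℤ L := by
  have h1 := h.ko.rk
  have h2 := h.ko.j2
  omega

theorem Tf.ray (h : Tf phi D q f a j eta k Z mu T eT) (i : ZMod (k + 3)) : Ray D (Z i) :=
  (h.cyc.mtl i).r0

theorem Tf.muT (h : Tf phi D q f a j eta k Z mu T eT) (i : ZMod (k + 3)) : mu i T = 0 :=
  h.cyc.oth i T h.rT (h.TZ _) (h.TZ _)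

/-- `T` is disjoint from the cycle. -/
theorem Tf.dis (hF2 : F2S) (h : Tf phi D q f a j eta k Z mu T eT) (i : ZMod (k + 3)) :
    ∀ p, phi T p = 0 ∨ phi (Z i) p = 0 := fun p =>
  (hF2 ℤ P L phi D (Z i) T (-eT) h.dd.inj h.dd.bin (h.ray i) h.rT (h.kil i) p).symm

/-- The killing. -/
theorem Tf.k0 (hF1 : F1S) (h : Tf phi D q f a j eta k Z mu T eT) {x : L}
    (hx : x ∉ US (-eT) T D) (hd : ∀ p, phi x p = 0 ∨ phi T p = 0) :
    (eT : RO ℤ) * D.coeff (x + T) = D.coeff x := by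
  have h1 := (hF1 ℤ P L phi D T (-eT) h.dd.inj h.dd.bin (h.dd.bin T h.rT.1) h.rT.2.1 x hx).2 hd
  rw [Units.val_neg] at h1
  linear_combination -h1

theorem Tf.kZ (hF1 : F1S) (hF2 : F2S) (h : Tf phi D q f a j eta k Z mu T eT)
    (i : ZMod (k + 3)) : (eT : RO ℤ) * D.coeff (Z i + T) = D.coeff (Z i) :=
  h.k0 hF1 (h.kil i) fun p => (h.dis hF2 i p).symm

/-- The sum of two neighbours is killed. -/
theorem Tf.kZZ (hF1 : F1S) (hF2 : F2S) (hF3 : F3S) (h : Tf phi D q f a j eta k Z mu T eT)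
    (i : ZMod (k + 3)) :
    (eT : RO ℤ) * D.coeff (Z i + Z (i + 1) + T) = D.coeff (Z i + Z (i + 1)) := by
  apply h.k0 hF1
  · intro hc
    have h1 := (KO.H40.cyc_killer hF3 h.dd h.cyc h.rT h.TZ (h.kil i) _ hc).1
    have h2 : mu i (Z i) = 0 := by
      obtain ⟨n1, n2, -⟩ := KO.H40.idx k i
      exact KO.H40.cyc_mu h.cyc n1 n2
    rw [map_add, h2, h.cyc.nxt, zero_add] at h1
    exact one_ne_zero h1
  · intro p
    rcases h.dis hF2 i p with h1 | h1
    · exact Or.inr h1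
    · rcases h.dis hF2 (i + 1) p with h2 | h2
      · exact Or.inr h2
      · left
        rw [map_add, Pi.add_apply, h1, h2, add_zero]

/-- The coefficient of `Z i` in the closing `T = 1` at the load B. -/
theorem Tf.cz (hF1 : F1S) (hF2 : F2S) (h : Tf phi D q f a j eta k Z mu T eT) {iT : P}
    (hT : co phi iT T = 1) (i : ZMod (k + 3)) {z : Ker (co phi iT)} (hz : (z : L) = Z i) :
    (eta (Z i) : RO ℤ) * (cl (co phi iT) T hT (ld eT 1) D).coeff z =
      toLaurent (X * ((1 + X) * f)) := by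
  rw [cl_co h.dd, hz, ld_val]
  have h1 := h.kZ hF1 hF2 i
  have h2 := h.cf i
  have e1 : (toLaurent (X * ((1 + X) * f)) : RO ℤ) =
      (1 + LaurentPolynomial.T 1) * toLaurent (X * f) := by
    simp only [map_mul, map_add, map_one, toLaurent_X]
    ring
  rw [e1, ← h2]
  linear_combination ((eta (Z i) : RO ℤ) * LaurentPolynomial.T 1) * h1

/-- The constant coefficient of the closing. -/
theorem Tf.cz0 (h : Tf phi D q f a j eta k Z mu T eT) {iT : P} (hT : co phi iT T = 1) :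
    (cl (co phi iT) T hT (ld eT 1) D).coeff 0 =
      toLaurent (q + X * ((1 - X - X ^ 2) * f)) := by
  rw [cl_co h.dd]
  have h1 := V0_ld h.rn 1
  rw [pow_one] at h1
  change D.coeff (0 : L) + ((ld eT 1 : (RO ℤ)ˣ) : RO ℤ) * D.coeff ((0 : L) + T) = _
  rw [zero_add]
  exact h1

/-- The face of `{T, Z i}`. -/
theorem Tf.fac (hRS : RaySpanS) (hE2 : E2S) (hF2 : F2S)
    (h : Tf phi D q f a j eta k Z mu T eT) (i : ZMod (k + 3)) :
    ∃ lam : L →+ ℤ, lam T = 0 ∧ lam (Z i) = 0 ∧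
      ∀ x ∈ supp D, x ≠ 0 → x ≠ T → x ≠ Z i → x ≠ T + Z i → 0 < lam x := by
  obtain ⟨lam, l1, l2, l3⟩ := KVH29.fsr hRS hE2 P L phi D eta (Z i) (Z (i + 1)) T h.dd h.two
    (kpr_cyc h.cyc i) h.rT (h.TZ i) (fun p => by
      rcases h.dis hF2 i p with h1 | h1
      · exact Or.inl h1
      · rcases h.dis hF2 (i + 1) p with h2 | h2
        · exact Or.inl h2
        · exact Or.inr ⟨h1, h2⟩) ((h.cyc.ker (i + 1) T).mpr (h.muT _))
  exact ⟨lam, l2, l1, fun x hx h0 hT hZ hs => l3 x hx h0 hZ hT (by rw [add_comm]; exact hs)⟩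

/-- Rays of the closing. -/
theorem Tf.rim (hFsp : FspS) (hRS : RaySpanS) (hE2 : E2S) (hF1 : F1S) (hF2 : F2S)
    (h : Tf phi D q f a j eta k Z mu T eT) {iT : P} (hT : co phi iT T = 1) (i : ZMod (k + 3))
    {z : Ker (co phi iT)} (hz : (z : L) = Z i) :
    Ray (cl (co phi iT) T hT (ld eT 1) D) z ∧ ImS (phO phi T iT) z := by
  obtain ⟨lam, l1, l2, l3⟩ := h.fac hRS hE2 hF2 i
  refine KV.H76.ray_im hFsp h.ko.min.fp hT hz h.rT (h.ray i)
    (fun p => (h.dis hF2 i p).symm) l1 l2 l3 (eta := ld eT 1) (c := 1) ?_ one_ne_zero ?_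
  · rw [show (cst 1 : AO ℤ (Ker (co phi iT))) = 1 from rfl, one_mul]
  · intro h0
    have h1 := h.cz hF1 hF2 hT i hz
    rw [cl_co h.dd, hz, h0, mul_zero] at h1
    have h2 := toLaurent_eq_zero.mp h1.symm
    have h3 := congrArg (fun p : ℤ[X] => p.coeff 1) h2
    simp only [coeff_X_mul, mul_coeff_zero, coeff_add, coeff_one_zero, coeff_X_zero, add_zero,
      one_mul, coeff_zero, h.f0] at h3
    exact one_ne_zero h3

/-- The face of `Z i`, `Z (i + 1)`, `T`. -/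
theorem Tf.tkD (hFcm : FcmS) (hMco : McoS) (hF1 : F1S) (hF2 : F2S) (hF3 : F3S)
    (h : Tf phi D q f a j eta k Z mu T eT) (i : ZMod (k + 3)) : ∃ V : ℤ[X], TkD q f V a j := by
  obtain ⟨V, hV⟩ : ∃ V : ℤ[X], X * V = (1 - X - X ^ 2) * f - q := by
    have h1 : X ∣ (1 - X - X ^ 2) * f - q := by
      rw [X_dvd_iff, coeff_sub, mul_coeff_zero, h.f0, h.loc.q0]
      simp
    obtain ⟨V, hV⟩ := h1
    exact ⟨V, hV.symm⟩
  refine ⟨V, h.loc, h.ne, h.f0, h.ko.j2, h.ko.lt, h.n, ?_, hV, ?_⟩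
  · intro hc
    apply h.cusp (-1) (by simp)
    rw [map_add, map_mul, aeval_X, hc]
    ring
  · intro zz hzz x y s hx hy hs
    obtain ⟨z, rfl⟩ := circle_of zz hzz
    have hD := h.dd
    obtain ⟨p1, p2, -⟩ := KO.H40.idx k i
    have hM := h.cyc.mtl i
    obtain ⟨hdis, -, h01, -⟩ := hMco ℤ P L phi D (Z i) (Z (i + 1)) _ _ hD.inj hD.bin hM
    rw [h.cf i] at h01
    -- the normal form
    obtain ⟨r, hr⟩ : ∃ r : RO ℤ, r = -(((eT⁻¹ : (RO ℤ)ˣ) : RO ℤ) * toLaurent (X * f)) := ⟨_, rfl⟩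
    have einv : ((eT⁻¹ : (RO ℤ)ˣ) : RO ℤ) * (eT : RO ℤ) = 1 := eT.inv_mul
    have g1 := h.kZ hF1 hF2 i
    have g2 := h.kZ hF1 hF2 (i + 1)
    have g3 := h.kZZ hF1 hF2 hF3 i
    have hN : Nf D (Z i) (Z (i + 1)) (eta (Z i)) (eta (Z (i + 1))) T 0 0 (D.coeff T - r) r := by
      refine ⟨Nat.zero_le _, Nat.zero_le _, ?_, ?_, ?_, ?_⟩
      · simp
      · simp only [zero_ne_one, false_and, if_false, zero_sub]
        have c1 := h.cf i
        rw [add_comm T (Z i), hr]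
        linear_combination ((eta (Z i) : RO ℤ) * ((eT⁻¹ : (RO ℤ)ˣ) : RO ℤ)) * g1 -
          ((eta (Z i) : RO ℤ) * D.coeff (Z i + T)) * einv + ((eT⁻¹ : (RO ℤ)ˣ) : RO ℤ) * c1
      · simp only [zero_ne_one, and_false, if_false, zero_sub]
        have c1 := h.cf (i + 1)
        rw [add_comm T (Z (i + 1)), hr]
        linear_combination ((eta (Z (i + 1)) : RO ℤ) * ((eT⁻¹ : (RO ℤ)ˣ) : RO ℤ)) * g2 -
          ((eta (Z (i + 1)) : RO ℤ) * D.coeff (Z (i + 1) + T)) * einv +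
          ((eT⁻¹ : (RO ℤ)ˣ) : RO ℤ) * c1
      · simp only [zero_ne_one, and_false, if_false, zero_add]
        have e1 : T + Z i + Z (i + 1) = Z i + Z (i + 1) + T := by abel
        rw [e1, hr]
        linear_combination ((eta (Z i) : RO ℤ) * (eta (Z (i + 1)) : RO ℤ) *
          ((eT⁻¹ : (RO ℤ)ˣ) : RO ℤ)) * g3 - ((eta (Z i) : RO ℤ) * (eta (Z (i + 1)) : RO ℤ) *
          D.coeff (Z i + Z (i + 1) + T)) * einv + ((eT⁻¹ : (RO ℤ)ˣ) : RO ℤ) * h01
    have hn : ‖evR z ((ld eT 1 : (RO ℤ)ˣ) : RO ℤ)‖ = 1 :=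
      H36.norm_evR_unit z _ (ld eT 1 : (RO ℤ)ˣ).isUnit
    have hout : Out phi (Z i) (Z (i + 1)) T := fun p => by
      rcases h.dis hF2 i p with h1 | h1
      · exact Or.inl h1
      · rcases h.dis hF2 (i + 1) p with h2 | h2
        · exact Or.inl h2
        · exact Or.inr ⟨h1, h2⟩
    have hf := H52.Face.face hFcm hD h.two (hD.bin _ (h.ray i).1) (hD.bin _ (h.ray (i + 1)).1)
      (hD.bin T h.rT.1) (h.ray i).2.1 (h.ray (i + 1)).2.1 h.rT.2.1 hdis hout (h.cf i)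
      (h.cf (i + 1)) h01 hN z (x := x) (y := y)
      (t := evR z ((ld eT 1 : (RO ℤ)ˣ) : RO ℤ) * s) hx hy (by rw [norm_mul, hn, one_mul]; exact hs)
    intro hcon
    apply hf
    have hD0 : D.coeff 0 = toLaurent q := h.rn.D0
    have c1 : ((ld eT 1 : (RO ℤ)ˣ) : RO ℤ) * r = -toLaurent (X ^ 2 * f) := by
      rw [ld_val, hr]
      have e1 : (toLaurent (X ^ 2 * f) : RO ℤ) = LaurentPolynomial.T 1 * toLaurent (X * f) := by
        rw [← toLaurent_X, ← map_mul]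
        congr 1
        ring
      rw [e1]
      linear_combination (-(LaurentPolynomial.T 1 : RO ℤ) * toLaurent (X * f)) * einv
    have c2 : ((ld eT 1 : (RO ℤ)ˣ) : RO ℤ) * (D.coeff T - r) =
        toLaurent (X * ((1 - X - X ^ 2) * f) + X ^ 2 * f) := by
      have h1 := ld_S h.rn 1
      rw [pow_one] at h1
      rw [mul_sub, c1, map_add, sub_neg_eq_add]
      congr 1
    have d1 := congrArg (evR z) c1
    have d2 := congrArg (evR z) c2
    rw [map_mul, map_neg, evR_poly] at d1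
    rw [map_mul, evR_poly] at d2
    rw [hD0, ← map_add toLaurent, evR_poly, evR_poly]
    linear_combination hcon + s * d2 + (s * ((1 - x) * (1 - y))) * d1

/-- The rays of the cycle have no port `iT`. -/
theorem Tf.zk (hF2 : F2S) (h : Tf phi D q f a j eta k Z mu T eT) {iT : P}
    (hT : co phi iT T = 1) (m : ZMod (k + 3)) : Z m ∈ Ker (co phi iT) := by
  change phi (Z m) iT = 0
  rcases h.dis hF2 m iT with h1 | h1
  · have h2 : phi T iT = 1 := hT
    rw [h2] at h1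
    exact absurd h1 one_ne_zero
  · exact h1

/-- THE CLOSING OF `T` AT THE LOAD B: `DD`, rank `2 j`, class `P`. -/
theorem Tf.full (hSf : SfzS) (hMm : MmulS) (hPc : PCZS) (hClp : ClpS) (hRk : RkS)
    (hFD : FDS) (hE1 : E1S) (hMV : MVS) (hM1 : M1S) (hF1 : F1S) (hF2 : F2S) (hI : Inj1S)
    (h : Tf phi D q f a j eta k Z mu T eT) {V : ℤ[X]} (hTD : TkD q f V a j) {iT : P}
    (hT : co phi iT T = 1) :
    DD (phO phi T iT) (cl (co phi iT) T hT (ld eT 1) D) ∧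
      Module.finrank ℤ (Ker (co phi iT)) = 2 * j ∧ ∃ bb : ℝ, 0 < bb ∧ bb < 1 ∧ 2 ≤ bb⁻¹ ∧
        ClassP bb⁻¹ ((cl (co phi iT) T hT (ld eT 1) D).coeff 0) := by
  have hj := h.ko.j2
  have hzk := h.zk hF2 hT
  obtain ⟨hdd, hfr, bb, hbb0, hbb1, hPW⟩ := dd_B hSf hMV hMm hE1 hM1 hPc hClp hI hRk hFD h.ko h.rT
    h.rn (by rw [mul_coeff_zero, h.f0]; simp) h.dfr hT (x := ⟨Z 0, hzk 0⟩) (by
      intro z h0 hx
      have h1 := V0_ld h.rn 1
      rw [pow_one] at h1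
      have h2 : evR z (toLaurent (q + X * ((1 - X - X ^ 2) * f)) : RO ℤ) = 0 := by
        rw [← h1]
        exact h0
      rw [evR_poly] at h2
      have h3 := congrArg (evR z) (h.cz hF1 hF2 hT 0 (z := ⟨Z 0, hzk 0⟩) rfl)
      rw [map_mul, hx, mul_zero, evR_poly] at h3
      simp only [map_mul, map_add, map_sub, map_pow, map_one, aeval_X] at h2 h3
      have hz1 : ‖(z : ℂ)‖ = 1 := Circle.norm_coe z
      have hz0 : (z : ℂ) ≠ 0 := by
        intro hc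
        rw [hc, norm_zero] at hz1
        exact zero_ne_one hz1
      rcases mul_eq_zero.mp h3.symm with h4 | h4
      · exact hz0 h4
      · rcases mul_eq_zero.mp h4 with h5 | h5
        · have h6 : (z : ℂ) = -1 := by linear_combination h5
          rw [h6] at h2
          apply hTD.m1
          linear_combination h2
        · rw [h5] at h2
          apply q_ne h.loc (z : ℂ) hz1
          linear_combination h2)
  refine ⟨hdd, hfr, bb, hbb0, hbb1, ?_, hPW⟩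
  have h1 := (h.ko.ih (2 * j) (by omega) bb⁻¹ P (Ker (co phi iT)) (phO phi T iT) _ hdd hPW
    hfr).1 ⟨j, by ring⟩
  have hj' : (2 : ℝ) ≤ j := by exact_mod_cast hj
  push_cast at h1
  have h2 : 0 < 1 / bb⁻¹ := by positivity
  linarith

/-- `Tf` for a cycle of a component. -/
theorem tf_of (hMm : MmulS) (hPc : PCZS) (hClp : ClpS) (hFD : FDS) (hE1 : E1S) (hMV : MVS)
    (hSf : SfzS) (hI3 : Io3S) (hMfc : MfcS) (hCa : Ca5S) (hGlc : GlcS) (hFou : FouS)
    (hDti : DtiS) (hCu : CuspS) {g : ℕ} {C : Set L} (W : KcB phi D q f a j eta g C)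
    (hu : f.coeff 0 = 1) (hn : f.coeff 1 - q.coeff 1 = j + 1) (h : Cyc phi D eta k Z mu) (hZ : ∀ i, Z i ∈ C)
    (hT : Ray D T) (hTZ : ∀ i, T ≠ Z i) (hR : RN D T q ((1 - X - X ^ 2) * f) eT a)
    (hdf : Dfr phi D T (ld eT 1)) (hall : ∀ n, Z n ∉ US (-eT) T D) :
    Tf phi D q f a j eta k Z mu T eT := by
  have hD := W.ko.min.fp.dd
  obtain ⟨e, he, hRZ⟩ := W.rn (Z 0) (hZ 0)
  obtain ⟨-, hzero, -⟩ := upper hMV hMm hE1 hPc hClp hFD hSf hI3 hMfc hCa hGlc hFou hDti W hu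
    (hZ 0) he hRZ
  have h2 : 2 ≤ Module.finrank ℤ L := by
    have h1 := W.ko.rk
    have h3 := W.ko.j2
    omega
  have hM := h.mtl 0
  rw [he] at hM
  have hcf : ∀ i, (eta (Z i) : RO ℤ) * D.coeff (Z i) = toLaurent (X * f) := by
    intro i
    obtain ⟨e', he', hR'⟩ := W.rn (Z i) (hZ i)
    have h1 := ld_S hR' 1
    rw [pow_one] at h1
    rw [he']
    exact h1
  exact
    { ko := W.ko
      f0 := hu
      n := hn
      loc := hRZ.loc
      ne := hRZ.ne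
      cyc := h
      cf := hcf
      rT := hT
      TZ := hTZ
      rn := hR
      dfr := hdf
      kil := hall
      cusp := fun z hz => cusp_m1 hCu hD h2 hRZ hM hzero hz }

/-- `Tf` from the data of TK3. -/
theorem Tk3.tf (hMm : MmulS) (hPc : PCZS) (hClp : ClpS) (hFD : FDS) (hE1 : E1S) (hMV : MVS)
    (hSf : SfzS) (hI3 : Io3S) (hMfc : MfcS) (hCa : Ca5S) (hGlc : GlcS) (hFou : FouS)
    (hDti : DtiS) (hCu : CuspS) {f' : ℤ[X]} {k' : ℕ} {Z : ZMod 3 → L} {mu : ZMod 3 → L →+ ℤ}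
    {Z' : ZMod (k' + 3) → L} {mu' : ZMod (k' + 3) → L →+ ℤ} {nuC : L →+ ℤ}
    (h : Tk3 phi D q f f' a j eta k' Z mu Z' mu' T eT nuC) :
    Tf phi D q f a j eta 0 Z mu T eT :=
  tf_of hMm hPc hClp hFD hE1 hMV hSf hI3 hMfc hCa hGlc hFou hDti hCu h.alp.w h.alp.u h.alp.n
    h.alp.c (fun i => ⟨i, rfl⟩) h.rT h.TZ h.rn h.dfr (fun n => by rw [← h.eT]; exact h.kil n)

/-- THE CLOSED TRIPLE in the closing of `T`. -/
theorem Tf.tri (hE2 : E2S) (hF2 : F2S) {Z : ZMod 3 → L} {mu : ZMod 3 → L →+ ℤ}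
    (h : Tf phi D q f a j eta 0 Z mu T eT) {iT : P} (hT : co phi iT T = 1) :
    KO.H71.Tri (phO phi T iT) (cl (co phi iT) T hT (ld eT 1) D)
      (fun i => (⟨Z i, h.zk hF2 hT i⟩ : Ker (co phi iT))) (fun i => eta (Z i))
      (fun i => (mu i).comp (incl (Ker (co phi iT)))) := by
  have hD := h.dd
  obtain ⟨-, -, -, -, hrk, -⟩ := hE2 ℤ P L phi D hD h.two
  have h1 := KO.H71.Tri.close (KO.H71.Cyc.tri hD hrk h.cyc) hT h.muT (ld eT 1)
  have hk0 : ∀ i, co phi iT (Z i) = 0 := fun i => h.zk hF2 hT i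
  have e1 : (fun i => prj (co phi iT) T hT (Z i)) =
      fun i => (⟨Z i, h.zk hF2 hT i⟩ : Ker (co phi iT)) := by
    funext i
    apply Subtype.ext
    rw [prj_coe, hk0, zero_smul, sub_zero]
  have e2 : (fun i => eta (Z i) * (ld eT 1) ^ (-(co phi iT (Z i)))) = fun i => eta (Z i) := by
    funext i
    rw [hk0, neg_zero, zpow_zero, mul_one]
  rw [e1, e2] at h1
  exact h1

end

end Pool.Agent.B5.O4X
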