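import Pool.Agent.Lib.MP_b5021c_nt.KO.H13.TkGb
import Pool.Agent.Lib.MP_b5021c_nt.KO.H42.Dtg

/-!
# MP_b5021c_nt, all `θ`, K ODD, (O4), ALPHA, row TK_DT: the glue

`W` = the closing of the killer `T` at its load B, a minimal moved set `R j`; the pointwise
inequality of `psi W` and `G = g0 W`, `G` stable, the rank: an element of `DD` of rank `2 j - 2`
with the apex `q + z (1 - z - z²) f + z (1 + z) f`.
-/

set_option linter.unusedSectionVars false

namespace Pool.Agent.B5.O4X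

open scoped LaurentPolynomial
open Polynomial
open Pool.Agent.B5 Pool.Agent.B5.KE
open Pool.Agent.B5.KO67
open Pool.Agent.B5.KO.H71 (Tri Fr z3v)
open Pool.Agent.B5.KO.H40 (flt flt_in flt_out)
open Pool.Agent.B5.KO.H96 (WKil)
open Pool.Agent.B5.KO52

section

variable {P L : Type} [Fintype P] [DecidableEq P] [AddCommGroup L] [Module.Free ℤ L]
  [Module.Finite ℤ L] {phi : L →+ (P → ℤ)} {D : AO ℤ L} {eta : L → (RO ℤ)ˣ}
  {Z : ZMod 3 → L} {mu : ZMod 3 → L →+ ℤ} {q f : ℤ[X]} {a : ℝ} {j : ℕ} {T : L} {eT : (RO ℤ)ˣ}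
  {iT p : P} {J : Type} [Fintype J] [DecidableEq J] {R : J → L} {nu : L →+ ℤ}

/-- The part of `psi` without the killers, in `W`. -/
theorem e_co (hT : co phi iT T = 1) (hb : ∀ a ∈ supp D, Bin phi a)
    (hd : ∀ i, Dj phi (Z i) T) (u : (RO ℤ)ˣ) (A : Set L) (hA : ∀ v ∈ A, Dj phi T v)
    (x : Ker (co phi iT)) :
    (cl (co phi iT) T hT u (flt A (psi phi D Z (fun i => eta (Z i)) mu))).coeff x =
      (flt A (psi phi D Z (fun i => eta (Z i)) mu)).coeff (x : L) := by
  rw [H36.ndz_clc (co phi iT) T hT u _ (fun b hb' => psi_deg hT hd hb b (fun h0 => hb' (by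
    by_cases hbA : b ∈ A
    · rw [flt_in _ hbA]
      exact h0
    · exact flt_out _ hbA))) x]
  have h1 : (x : L) + T ∉ A := by
    intro hc
    have h2 := hA _ hc iT
    have hx : co phi iT (x : L) = 0 := x.2
    have h3 : phi T iT = 1 := hT
    rcases h2 with h4 | h4
    · rw [map_add, Pi.add_apply, h3] at h4
      have h5 : phi (x : L) iT = 0 := hx
      rw [h5] at h4
      norm_num at h4
    · rw [h3] at h4
      norm_num at h4
  rw [flt_out _ h1, mul_zero, add_zero]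

/-- **TK_DT, the glue.** -/
theorem tk_dg (hFa : FaceS) (hEv : EvRS) (hCo : ComplS) (hCI : ComplIrrS) (hSh : SharpS)
    (hU : UnitAS) (hDe : DensS) (hB4 : B4S) (hMin : MinS) (hC0 : Coeff0S) (hWW : WWfS)
    (hTh : ThinS) (hC3 : C3S) (hC4 : C4S) (hPr : PrimS) (hE1 : E1S) (hMV : MVS) (hM1 : M1S)
    (hA1 : A1S) (hRW : ResWDS) (hRSt : ResStS) (hSp : StSpecS) (hE2 : E2S) (hF1 : F1S)
    (hF2 : F2S) (hF3 : F3S) (hRy : RaySpanS) (hFsp : FspS) (hSf : SfzS) (hMm : MmulS)
    (hPc : PCZS) (hClp : ClpS) (hRk : RkS) (hFD : FDS) (hI : Inj1S)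
    (h : Tf phi D q f a j eta 0 Z mu T eT) {V : ℤ[X]} (hTD : TkD q f V a j)
    (hT : co phi iT T = 1) (hp : phi (Z 0) p = 1)
    {z : ZMod 3 → Ker (co phi iT)} (hz : ∀ i, (z i : L) = Z i) [Nonempty J]
    (M : Mins phi D eta Z mu T eT R nu)
    (hA : ∀ (w : Circle) (u : AddChar (Ker (co phi iT)) Circle),
      ‖ev w u (psi (phO phi T iT) (cl (co phi iT) T hT (ld eT 1) D) z (fun i => eta (Z i))
        (fun i => (mu i).comp (incl (Ker (co phi iT)))))‖ ≤
      2 * ‖ev w u (g0 (phO phi T iT) (cl (co phi iT) T hT (ld eT 1) D) z (fun i => eta (Z i))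
        (fun i => (mu i).comp (incl (Ker (co phi iT)))) p)‖ ∧
      (‖ev w u (psi (phO phi T iT) (cl (co phi iT) T hT (ld eT 1) D) z (fun i => eta (Z i))
        (fun i => (mu i).comp (incl (Ker (co phi iT)))))‖ =
      2 * ‖ev w u (g0 (phO phi T iT) (cl (co phi iT) T hT (ld eT 1) D) z (fun i => eta (Z i))
        (fun i => (mu i).comp (incl (Ker (co phi iT)))) p)‖ →
      ev w u (psi (phO phi T iT) (cl (co phi iT) T hT (ld eT 1) D) z (fun i => eta (Z i))
        (fun i => (mu i).comp (incl (Ker (co phi iT))))) =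
      -(2 * ev w u (g0 (phO phi T iT) (cl (co phi iT) T hT (ld eT 1) D) z (fun i => eta (Z i))
        (fun i => (mu i).comp (incl (Ker (co phi iT)))) p))))
    (hGZ : Stable (g0 (phO phi T iT) (cl (co phi iT) T hT (ld eT 1) D) z (fun i => eta (Z i))
      (fun i => (mu i).comp (incl (Ker (co phi iT)))) p))
    (hR : rk (supp (g0 (phO phi T iT) (cl (co phi iT) T hT (ld eT 1) D) z (fun i => eta (Z i))
      (fun i => (mu i).comp (incl (Ker (co phi iT)))) p) ∪
      supp (cl (co phi iT) T hT (ld eT 1) (flt {v | (∀ i ∈ (Finset.univ : Finset J),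
        Dj phi (R i) v) ∧ Dj phi T v} (psi phi D Z (fun i => eta (Z i)) mu)))) + 4 =
      Module.finrank ℤ (Ker (co phi iT))) :
    ∃ (P' L' : Type) (_ : Fintype P') (_ : DecidableEq P') (_ : AddCommGroup L')
      (_ : Module.Free ℤ L') (_ : Module.Finite ℤ L') (phi' : L' →+ (P' → ℤ)) (D' : AO ℤ L'),
      DD phi' D' ∧ Module.finrank ℤ L' + 2 = 2 * j ∧
        D'.coeff 0 = toLaurent (q + X * ((1 - X - X ^ 2) * f) + X * ((1 + X) * f)) := by
  classical
  have hD := h.dd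
  obtain ⟨hdd, hfr, bb, hbb0, hbb1, -, hPW⟩ :=
    h.full hSf hMm hPc hClp hRk hFD hE1 hMV hM1 hF1 hF2 hI hTD hT
  have htri := h.triz hE2 hF2 hT hz
  have htD := h.triD hE2
  have hiT : phi T iT = 1 := hT
  have hTp : phi T p = 0 := (h.dis hF2 0 p).resolve_right (by rw [hp]; exact one_ne_zero)
  have hj2 : 2 ≤ Module.finrank ℤ (Ker (co phi iT)) := by
    have := h.ko.j2
    omega
  obtain ⟨hW0z, -, -, -, -, hKr⟩ := hE2 ℤ P _ _ _ hdd hj2
  have hz0 := h.rim hFsp hRy hE2 hF1 hF2 hT 0 (hz 0)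
  obtain ⟨-, -, lam, hlam0, hlam1⟩ := hz0.1
  obtain ⟨hKle, hKne⟩ := hKr _ hz0.1
  have hc0 := h.cz0 hT
  have hcz := h.cz hF1 hF2 hT 0 (hz 0)
  have hdZT : ∀ i, Dj phi (Z i) T := fun i => h.dis hF2 i
  -- the killers
  have hkT : Kfl phi (psi phi D Z (fun i => eta (Z i)) mu) T (-eT) := by
    refine psi_kfl htD hF1 hD.inj hD.bin (hD.bin T h.rT.1) ⟨iT, hiT⟩ hdZT ?_
    intro b hb i
    exact (KO.H40.cyc_killer hF3 hD h.cyc h.rT h.TZ (h.kil i) b hb).1
  have hport : ∀ i, ∃ s, phi (R i) s = 1 := by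
    intro i
    by_contra hcon
    push Not at hcon
    apply (M.ray i).2.1
    apply hD.inj
    rw [map_zero]
    ext s
    exact (hD.bin _ (M.ray i).1 s).resolve_right (hcon s)
  have hkR : ∀ i ∈ (Finset.univ : Finset J),
      Kfl phi (psi phi D Z (fun i => eta (Z i)) mu) (R i) (eta (R i)) := by
    intro i _
    refine psi_kfl htD hF1 hD.inj hD.bin (hD.bin _ (M.ray i).1) (hport i) (fun m => M.dZ i m) ?_
    intro b hb m
    exact (KO.H40.cyc_killer hF3 hD h.cyc (M.ray i) (M.out i) (M.kil i m) b hb).1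
  have hzp : z = fun i => prj (co phi iT) T hT (Z i) := by
    funext i
    apply Subtype.ext
    rw [hz, prj0 hT (h.zk hF2 hT i)]
  obtain ⟨W, hW⟩ : ∃ W, W = cl (co phi iT) T hT (ld eT 1) D := ⟨_, rfl⟩
  obtain ⟨E, hE⟩ : ∃ E, E = cl (co phi iT) T hT (ld eT 1)
      (flt {v | (∀ i ∈ (Finset.univ : Finset J), Dj phi (R i) v) ∧ Dj phi T v}
        (psi phi D Z (fun i => eta (Z i)) mu)) := ⟨_, rfl⟩
  obtain ⟨PS, hPS⟩ : ∃ PS, PS = psi (phO phi T iT) W z (fun i => eta (Z i))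
      (fun i => (mu i).comp (incl (Ker (co phi iT)))) := ⟨_, rfl⟩
  obtain ⟨G, hG⟩ : ∃ G, G = g0 (phO phi T iT) W z (fun i => eta (Z i))
      (fun i => (mu i).comp (incl (Ker (co phi iT)))) p := ⟨_, rfl⟩
  obtain ⟨R', hR'⟩ : ∃ R' : J → Ker (co phi iT), R' = fun i => prj (co phi iT) T hT (R i) :=
    ⟨_, rfl⟩
  rw [← hW, ← hPS, ← hG] at hA
  rw [← hW, ← hG] at hGZ
  rw [← hW, ← hG, ← hE] at hR
  rw [← hW] at hdd htri hz0 hW0z hlam1 hKle hKne hc0 hcz hPW
  have hRk0 : ∀ i, co phi iT (R i) = 0 := fun i =>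
    (M.dT i iT).resolve_right (by rw [hiT]; exact one_ne_zero)
  have hR'c : ∀ i, (R' i : L) = R i := by
    intro i
    rw [hR']
    exact prj0 hT (hRk0 i)
  have ht0 : (((-eT)⁻¹ : (RO ℤ)ˣ) : RO ℤ) * (eT : RO ℤ) = -1 := by
    have h1 := (-eT).inv_mul
    rw [Units.val_neg] at h1
    linear_combination -h1
  -- the product
  have hfac : PS = cst (1 + LaurentPolynomial.T 1) * (E * H42.Dt.Pd R' (fun i => eta (R i))) := by
    have h1 := psi_fac (u := ld eT 1) (tau := -eT) (e := fun i => eta (Z i)) hT hdZT h.muT hD.bin R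
      (fun i => eta (R i)) Finset.univ hkT hkR (fun i _ => M.dT i)
      (fun i _ i' _ hne s => (M.dis i i' hne s).symm)
    rw [← hzp, ← hW, ← hE] at h1
    rw [hPS, h1]
    have h2 : (1 - ((ld eT 1 : (RO ℤ)ˣ) : RO ℤ) * (((-eT)⁻¹ : (RO ℤ)ˣ) : RO ℤ)) =
        1 + LaurentPolynomial.T 1 := by
      rw [ld_val]
      linear_combination (-(LaurentPolynomial.T 1 : RO ℤ)) * ht0
    rw [h2, hR']
    rfl
  have h1T : (1 + LaurentPolynomial.T 1 : RO ℤ) ≠ 0 := by
    intro h0
    have h1 : (toLaurent (1 + X : ℤ[X]) : RO ℤ) = 0 := by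
      rw [map_add, map_one, toLaurent_X]
      exact h0
    have h2 := toLaurent_eq_zero.mp h1
    have h3 := congrArg (fun g : ℤ[X] => g.coeff 0) h2
    simp at h3
  obtain ⟨c, hc⟩ : ∃ c : RO ℤ, c = -(1 + LaurentPolynomial.T 1) := ⟨_, rfl⟩
  have hc0' : c ≠ 0 := by
    rw [hc]
    exact neg_ne_zero.mpr h1T
  have hcst : (cst c : AO ℤ (Ker (co phi iT))) = -cst (1 + LaurentPolynomial.T 1) := by
    rw [hc, eq_neg_iff_add_eq_zero]
    unfold cst
    rw [← AddMonoidAlgebra.single_add, neg_add_cancel, AddMonoidAlgebra.single_zero]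
  have hcP : cst c * (E * H42.Dt.Pd R' (fun i => eta (R i))) = -PS := by
    rw [hfac, hcst]
    ring
  -- the support of `E`
  have hEco : ∀ x : Ker (co phi iT), E.coeff x =
      (flt {v | (∀ i ∈ (Finset.univ : Finset J), Dj phi (R i) v) ∧ Dj phi T v}
        (psi phi D Z (fun i => eta (Z i)) mu)).coeff (x : L) := by
    intro x
    rw [hE]
    exact e_co hT hD.bin hdZT _ _ (fun v hv => hv.2) x
  have hEs : ∀ x ∈ supp E, (∀ i, Dj phi (R i) (x : L)) ∧ Dj phi T (x : L) ∧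
      (x : L) ∈ supp (psi phi D Z (fun i => eta (Z i)) mu) := by
    intro x hx
    have hx' : E.coeff x ≠ 0 := hx
    rw [hEco] at hx'
    by_cases hx2 : (x : L) ∈ {v | (∀ i ∈ (Finset.univ : Finset J), Dj phi (R i) v) ∧ Dj phi T v}
    · rw [flt_in _ hx2] at hx'
      exact ⟨fun i => hx2.1 i (Finset.mem_univ i), hx2.2, hx'⟩
    · exact absurd (flt_out _ hx2) hx'
  have hE0 : E.coeff 0 = toLaurent (X * f) := by
    rw [hEco]
    have h1 : ((0 : Ker (co phi iT)) : L) ∈
        {v | (∀ i ∈ (Finset.univ : Finset J), Dj phi (R i) v) ∧ Dj phi T v} :=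
      ⟨fun i _ => dj_zero, dj_zero⟩
    rw [flt_in _ h1]
    have h2 : (psi phi D Z (fun i => eta (Z i)) mu).coeff ((0 : Ker (co phi iT)) : L) =
        (eta (Z 0) : RO ℤ) * D.coeff (Z 0) := psi_zero
    rw [h2]
    exact h.cf 0
  have hEP : ∀ x ∈ supp E, x ∈ supp PS := by
    intro x hx h0
    obtain ⟨-, h2, h3⟩ := hEs x hx
    have h5 : PS = cl (co phi iT) T hT (ld eT 1) (psi phi D Z (fun i => eta (Z i)) mu) := by
      rw [hPS, hW, hzp]
      exact psi_cl hT hdZT h.muT hD.bin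
    change PS.coeff x = 0 at h0
    rw [h5, H36.ndz_clc (co phi iT) T hT _ _ (psi_deg hT hdZT hD.bin) x, ld_val] at h0
    have h6 := hkT.dj _ h2
    rw [Units.val_neg] at h6
    have h7 : (1 + LaurentPolynomial.T 1) *
        (psi phi D Z (fun i => eta (Z i)) mu).coeff (x : L) = 0 := by
      linear_combination h0 + (LaurentPolynomial.T 1 : RO ℤ) * h6
    exact h3 ((mul_eq_zero.mp h7).resolve_left h1T)
  have hcE : ∀ x, (cst c * E).coeff x = c * E.coeff x := fun x => H96.cst_mul_coeff c E x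
  have hcEs : supp (cst c * E) = supp E := by
    ext x
    change (cst c * E).coeff x ≠ 0 ↔ E.coeff x ≠ 0
    rw [hcE, mul_ne_zero_iff]
    exact and_iff_right hc0'
  -- the values at zero
  have hG0 : G.coeff 0 = toLaurent (q + X * ((1 - X - X ^ 2) * f) + X * ((1 + X) * f)) := by
    rw [hG, g0_zero, hc0, map_add toLaurent (q + X * ((1 - X - X ^ 2) * f)), ← hcz]
  have hd0 : (cst c * E).coeff 0 = -toLaurent (X * ((1 + X) * f)) := by
    rw [hcE, hE0, hc]
    have h1 : (toLaurent (X * ((1 + X) * f)) : RO ℤ) =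
        (1 + LaurentPolynomial.T 1) * toLaurent (X * f) := by
      simp only [map_mul, map_add, map_one, toLaurent_X]
      ring
    rw [h1]
    ring
  have hW0G : W.coeff 0 = G.coeff 0 + (cst c * E).coeff 0 := by
    rw [hG0, hd0, hc0, map_add toLaurent (q + X * ((1 - X - X ^ 2) * f))]
    ring
  have hdw : (cst c * E).coeff 0 = -((eta (Z 0) : RO ℤ) * W.coeff (z 0)) := by
    rw [hd0, hcz]
  have hnw : ∀ w : Circle, ‖evR w ((cst c * E).coeff 0)‖ = ‖evR w (W.coeff (z 0))‖ := by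
    intro w
    rw [hdw, map_neg, norm_neg, map_mul, norm_mul, H36.norm_evR_unit w _ (eta (Z 0)).isUnit,
      one_mul]
  have hpz : phO phi T iT (z 0) p = 1 := by
    rw [phO_eq _ hTp, hz]
    exact hp
  choose pt hpt using hport
  have hTpt : ∀ i, phi T (pt i) = 0 := fun i =>
    (M.dT i (pt i)).resolve_left (by rw [hpt]; exact one_ne_zero)
  have hX : ∀ g : ℤ[X], (toLaurent (1 + X * g) : RO ℤ) ≠ 0 := by
    intro g h0
    have h2 := toLaurent_eq_zero.mp h0
    have h3 := congrArg (fun g : ℤ[X] => g.coeff 0) h2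
    simp at h3
  have hface : gpart (co (phO phi T iT) p) 0 W =
      G + cst c * (E * H42.Dt.Pd R' (fun i => eta (R i))) *
        ((1 - AddMonoidAlgebra.single (z 1) (((eta (Z 1))⁻¹ : (RO ℤ)ˣ) : RO ℤ)) *
        (1 - AddMonoidAlgebra.single (z 2) (((eta (Z 2))⁻¹ : (RO ℤ)ˣ) : RO ℤ))) := by
    rw [hcP, face htri hF1 hdd.inj hdd.bin hpz, ← hG, ← hPS]
    ring
  obtain ⟨P', L', i1, i2, i3, i4, i5, phi', D', hD', hrk, h0'⟩ :=
    H42.Dt.dtg_neg hFa hEv hCo hCI hSh hU hDe hB4 hMin hC0 hWW hTh hC3 hC4 hPr hE1 hMV hM1 hA1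
    hRW hRSt (nu := (kp nu Z mu).comp (incl (Ker (co phi iT)))) (lam := lam)
    (fun i => co (phO phi T iT) (pt i)) hdd.inj hdd.bin hdd.irr hdd.st hface
    (by rw [hG]; exact g0_pos htri hlam0 hlam1)
    (by
      intro x hx hx0
      have h1 : x ∈ supp PS := hEP x (by
        rw [← hcEs]
        exact Finsupp.mem_support_iff.mp hx)
      rw [hPS] at h1
      exact psi_pos htri hlam0 hlam1 x (Finsupp.mem_support_iff.mpr h1) hx0)
    (by
      intro x hx
      rw [hG] at hx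
      exact g0_bin hdd.bin hx)
    (by
      intro x hx
      rw [hcEs] at hx
      have h1 := hEP x hx
      rw [hPS] at h1
      exact psi_bin hdd.bin h1)
    hW0G hPW hW0z (fun w => by rw [hnw]; exact hKle w)
    (by
      obtain ⟨w, hw⟩ := hKne
      exact ⟨w, by rw [hnw]; exact hw⟩)
    (by
      rw [hG0]
      intro h0
      have h2 := toLaurent_eq_zero.mp h0
      have h3 := congrArg (fun g : ℤ[X] => g.coeff 0) h2
      simp only [coeff_add, coeff_X_mul_zero, h.loc.q0, coeff_zero, add_zero] at h3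
      exact one_ne_zero h3)
    (by
      rw [hG0, hd0]
      intro h0
      have h1 : (toLaurent (q + X * ((1 - X - X ^ 2) * f) + X * ((1 + X) * f) +
          X * ((1 + X) * f)) : RO ℤ) = 0 := by
        rw [map_add toLaurent (q + X * ((1 - X - X ^ 2) * f) + X * ((1 + X) * f)), h0]
        ring
      have h2 := toLaurent_eq_zero.mp h1
      have h3 := congrArg (fun g : ℤ[X] => g.coeff 0) h2
      simp only [coeff_add, coeff_X_mul_zero, h.loc.q0, coeff_zero, add_zero] at h3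
      exact one_ne_zero h3)
    (by
      rw [hdw]
      refine neg_ne_zero.mpr (mul_ne_zero (eta (Z 0)).ne_zero ?_)
      exact hz0.1.1)
    hz0.1.1 hpz
    (fun i => by
      change kp nu Z mu ((R' i : Ker (co phi iT)) : L) ≠ 0
      rw [hR'c, kp_of nu Z mu (h.cyc.oth 1 (R i) (M.ray i) (M.out i _) (M.out i _))]
      exact M.mv i)
    (by
      intro x hx
      rw [hG, hW] at hx
      rw [hW] at hdd
      exact kp_g0 hE2 hF1 hF2 h hT hdd hp hz M.wk hx)
    (by
      intro x hx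
      obtain ⟨h1, -, h3⟩ := hEs x hx
      exact kp_psi hRy hE2 h M h3 h1)
    (by
      intro w u
      rw [hcP, map_neg, norm_neg]
      exact (hA w u).1)
    (by
      intro w u h1
      rw [hcP, map_neg, norm_neg] at h1
      rw [hcP, map_neg, (hA w u).2 h1, neg_neg])
    (fun i => by
      change phO phi T iT (R' i) (pt i) = 1
      rw [phO_eq _ (hTpt i), hR'c, hpt])
    (fun i i' hne => by
      change phO phi T iT (R' i') (pt i) = 0
      rw [phO_eq _ (hTpt i), hR'c]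
      exact (M.dis i i' hne (pt i)).resolve_left (by rw [hpt]; exact one_ne_zero))
    (fun i x hx => by
      change phO phi T iT x (pt i) = 0
      rw [phO_eq _ (hTpt i)]
      exact ((hEs x hx).1 i (pt i)).resolve_right (by rw [hpt]; exact one_ne_zero))
    (by
      have h1 := (hSp ℤ (Ker (co phi iT)) G).2.2 hGZ lam (by
        rw [hG]
        exact g0_pos htri hlam0 hlam1)
      exact h1)
  refine ⟨P', L', i1, i2, i3, i4, i5, phi', D', hD', ?_, ?_⟩
  · rw [hcEs] at hrk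
    omega
  · rw [h0', hG0]

end

end Pool.Agent.B5.O4X
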