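import Pool.Agent.Lib.MP_b5021c_nt.KO.H13.Mov
import Pool.Agent.Lib.MP_b5021c_nt.KO.H40.Df4u
import Pool.Agent.Lib.MP_b5021c_nt.KO.H96.Red2

/-!
# MP_b5021c_nt, all `θ`, K ODD, (O4): no ray is moved by a double closing of a cycle of length `≥ 4`

`px_fm`: PX at a fully mutual ray outside the cycle.  `no_out`: a cycle of length at least four, any
other components.  `df4m`: for EVERY 4-cycle of a component `V''` or its mirror is drop free (used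
for the mixed pair: a 4-cycle and a neutral 3-cycle, which may have killers).
-/

set_option linter.unusedSectionVars false

namespace Pool.Agent.B5.O4X

open scoped LaurentPolynomial
open Polynomial
open Pool.Agent.B5 Pool.Agent.B5.KE
open Pool.Agent.B5.Nr.Sch
open Pool.Agent.B5.Nr (TrezS)
open Pool.Agent.B5.H61 (CuspS)
open Pool.Agent.B5.KV67 (TT1 tA_val)

section

variable {P L : Type} [Fintype P] [DecidableEq P] [AddCommGroup L] [Module.Free ℤ L]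
  [Module.Finite ℤ L] {phi : L →+ (P → ℤ)} {D : AO ℤ L} {eta : L → (RO ℤ)ˣ}

/-- The killing functional of the mirrored double closing. -/
theorem kil_symm {S S1 : L} {u0 u1 : (RO ℤ)ˣ} {nu : L →+ ℤ} (h : Kil phi D S S1 u0 u1 nu) :
    Kil phi D S1 S u1 u0 nu := by
  refine ⟨h.s1, h.s0, fun a ha hn => ?_, fun b hb hp => h.part b hb hp.symm⟩
  have h1 := h.free a (fun i => (ha i).imp id And.symm) hn
  rw [add_right_comm a S1 S]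
  linear_combination h1

/-- (PX) at a fully mutual ray outside the cycle. -/
theorem px_fm (hM1 : M1S) (hMm : MmulS) (hMV : MVS) (hE1 : E1S) (hE2 : E2S) (hPc : PCZS)
    (hClp : ClpS) (hC0 : Coeff0S) (hG0 : G0S) (hI1 : Inj1S) (hRk : RkS) (hFD : FDS)
    (hWW : WWfS) (hRF : RayFacS) (hMug : MugS) (hMco : McoS) (hCu : CuspS) (hSf : SfzS)
    (hTr : TrezS) (hTsa : TsaS) (hI3 : Io3S) (hMfc : MfcS) (hCa : Ca5S) (hGlc : GlcS)
    (hFou : FouS) (hDti : DtiS) (hNbr : NbrS) (hF1 : F1S) (hF2 : F2S) (hKm : KmuS)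
    (hFsp : FspS) (hVco : VcoS) (hRy : RaySpanS) (hVf : KvfS) (hVv : KvvS) (hT : TsgS)
    (hNd : Nd3vS) (hNr : Nr3S) (hB : BpS) (hF3 : F3S) (hRkU : RkUSS) (hL : LMNS)
    (hOfb : OfbS) (hO4 : Oo4S) (hB2 : Ob2S) (hB3 : Ob3S) {q f : ℤ[X]} {a : ℝ} {j : ℕ}
    {C : Set L} (W : KcB phi D q f a j eta 1 C) (hu : f.coeff 0 = 1)
    (hn : f.coeff 1 - q.coeff 1 = j + 1) (des : KO.Des phi D q a eta) {k : ℕ}
    {Z : ZMod (k + 3) → L} {mu : ZMod (k + 3) → L →+ ℤ} (h : Cyc phi D eta k Z mu)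
    {i : ZMod (k + 3)} (hZ : Z i ∈ C) {S1 : L} (hM : Mut D (Z i) S1 (eta (Z i)) (eta S1)) (R : L)
    (r : RO ℤ) (hR : KO.Fm D eta R) (hRZ : ∀ n, R ≠ Z n) :
    ¬ T00 phi D eta (Z i) S1 R r := by
  intro t00
  obtain ⟨g', f', e', -, hu', -, W', hn', hg⟩ :=
    hR.kcZ hE2 hF3 hRkU hL hMco hOfb hO4 hB2 W.ko des
  have hg1 : g' = 1 := by
    rcases hg with h1 | h1
    · exact h1
    · subst h1
      exact (hB3 P L phi D q f' a j eta _ W' hu' hn').elim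
  subst hg1
  have hRC : R ∈ KO.Comp D eta R := Relation.ReflTransGen.refl
  obtain ⟨R1, hR1, mR⟩ := W'.kc.ex R hRC
  have hS1 : S1 ∈ C := (W.kc.mtl _ hZ _ hM.r1 hM.m0).1
  refine KO.H40.px_false hM1 hMm hMV hE1 hE2 hPc
    hClp hC0 hG0 hI1 hRk hFD hWW hRF hMug hMco hCu hSf hTr hTsa hI3 hMfc hCa hGlc hFou hDti
    hNbr hF1 hF2 hKm hFsp hVco hRy hVf hVv hT hNd hNr hB W hu hn W' hu' hn' hZ hS1 hM hRC hR1 mR
    t00 ?_
  by_contra hc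
  have h1 := (W'.kc.mtl R1 hR1 (Z i) hM.r0 hc).2.m1
  rcases cyc_nb h mR.r1 h1 with h3 | h3
  · rcases cyc_nb h t00.ray (i := i + 1) (by rw [← h3]; exact mR.m1) with h4 | h4
    · exact hRZ _ h4
    · exact hRZ _ h4
  · rcases cyc_nb h t00.ray (i := i - 1) (by rw [← h3]; exact mR.m1) with h4 | h4
    · exact hRZ _ h4
    · exact hRZ _ h4

/-- (NO_OUT) A CYCLE OF LENGTH AT LEAST FOUR: NO RAY OUTSIDE IS MOVED. -/
theorem no_out (hQs : QsgS) (hCz : CzaS) (hTz : TzaS) (hFj : FjtS) (hGa : GaiS) (hNz : NdzS)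
    (hNd3 : Nd3S) (hTa : Ta3S) (hLd : LdzS) (hRW : ResWDS) (hRs : ResStS) (hRes : ResKS)
    (hFact : FactS) (hC4 : C4S) (hThin : ThinS) (hMin : MinS) (hB5a : B5aS) (hUA : UnitAS)
    (hFcm : FcmS) (hM1 : M1S) (hMm : MmulS) (hMV : MVS) (hE1 : E1S) (hE2 : E2S) (hPc : PCZS)
    (hClp : ClpS) (hC0 : Coeff0S) (hG0 : G0S) (hI1 : Inj1S) (hRk : RkS) (hFD : FDS)
    (hWW : WWfS) (hRF : RayFacS) (hMug : MugS) (hMco : McoS) (hCu : CuspS) (hSf : SfzS)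
    (hTr : TrezS) (hTsa : TsaS) (hI3 : Io3S) (hMfc : MfcS) (hCa : Ca5S) (hGlc : GlcS)
    (hFou : FouS) (hDti : DtiS) (hNbr : NbrS) (hF1 : F1S) (hF2 : F2S) (hKm : KmuS)
    (hFsp : FspS) (hVco : VcoS) (hRy : RaySpanS) (hVf : KvfS) (hVv : KvvS) (hT : TsgS)
    (hNd : Nd3vS) (hNr : Nr3S) (hB : BpS) (hF3 : F3S) (hRkU : RkUSS) (hL : LMNS)
    (hOfb : OfbS) (hO4 : Oo4S) (hB2 : Ob2S) (hB3 : Ob3S) {q f : ℤ[X]} {a : ℝ} {j : ℕ}
    {C : Set L} (W : KcB phi D q f a j eta 1 C) (hu : f.coeff 0 = 1)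
    (hn : f.coeff 1 - q.coeff 1 = j + 1) (des : KO.Des phi D q a eta) {k : ℕ} (hk1 : 1 ≤ k)
    {Z : ZMod (k + 3) → L} {mu : ZMod (k + 3) → L →+ ℤ} (h : Cyc phi D eta k Z mu)
    (hZ : ∀ n, Z n ∈ C) (i : ZMod (k + 3)) {t0 t1 : (RO ℤ)ˣ} (ht : Lds t0 t1) {nu : L →+ ℤ}
    (hk : Kil phi D (Z i) (Z (i + 1)) (eta (Z i) * t0) (eta (Z (i + 1)) * t1) nu) {T : L}
    (rT : Ray D T) (hTZ : ∀ n, T ≠ Z n) : nu T = 0 := by
  by_contra hne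
  obtain ⟨e, he, hR⟩ := W.rn (Z i) (hZ i)
  have hco : (eta (Z i) : RO ℤ) * D.coeff (Z i) = toLaurent (X * f) := by
    rw [he, KO.ld_S1 hR]
  obtain ⟨hall, e', hRT, heT, hdf⟩ := mov_or hF1 hF2 hF3 hI1 hE2 hRkU W.ko des hu h hco
    (fun R r hR hRZ => px_fm hM1 hMm hMV hE1 hE2 hPc
      hClp hC0 hG0 hI1 hRk hFD hWW hRF hMug hMco hCu hSf hTr hTsa hI3 hMfc hCa hGlc hFou hDti
      hNbr hF1 hF2 hKm hFsp hVco hRy hVf hVv hT hNd hNr hB hF3 hRkU hL hOfb hO4 hB2 hB3 W hu hn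
      des h (hZ i) (h.mtl i) R r hR hRZ) ht hk rT hTZ hne
  exact KO67.tk_kcb hQs hCz hTz hFj hGa hNz hNd3 hNr hTa hLd hKm hRW hRs hSf hMm hPc hClp hRk
    hFD hRes hFact hC0 hE1 hMV hM1 hC4 hE2 hThin hF1 hF2 hF3 hMin hB5a hVco hWW hUA hI1 hMco
    hFsp hRy hFcm hI3 hMfc hCa hGlc hFou hDti hCu W hu hn hk1 h hZ rT hTZ hRT hdf
    (i := i) (by rw [← heT]; exact hall i)

/-- (DF4M) EVERY 4-CYCLE OF A COMPONENT: `V''` or its mirror is drop free. -/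
theorem df4m (hOfa : OfaS) (hO1 : Oo1S) (hTop : TopS) (hQs : QsgS) (hCz : CzaS) (hTz : TzaS)
    (hFj : FjtS) (hGa : GaiS) (hNz : NdzS)
    (hNd3 : Nd3S) (hTa : Ta3S) (hLd : LdzS) (hRW : ResWDS) (hRs : ResStS) (hRes : ResKS)
    (hFact : FactS) (hC4 : C4S) (hThin : ThinS) (hMin : MinS) (hB5a : B5aS) (hUA : UnitAS)
    (hFcm : FcmS) (hM1 : M1S) (hMm : MmulS) (hMV : MVS) (hE1 : E1S) (hE2 : E2S) (hPc : PCZS)
    (hClp : ClpS) (hC0 : Coeff0S) (hG0 : G0S) (hI1 : Inj1S) (hRk : RkS) (hFD : FDS)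
    (hWW : WWfS) (hRF : RayFacS) (hMug : MugS) (hMco : McoS) (hCu : CuspS) (hSf : SfzS)
    (hTr : TrezS) (hTsa : TsaS) (hI3 : Io3S) (hMfc : MfcS) (hCa : Ca5S) (hGlc : GlcS)
    (hFou : FouS) (hDti : DtiS) (hNbr : NbrS) (hF1 : F1S) (hF2 : F2S) (hKm : KmuS)
    (hFsp : FspS) (hVco : VcoS) (hRy : RaySpanS) (hVf : KvfS) (hVv : KvvS) (hT : TsgS)
    (hNd : Nd3vS) (hNr : Nr3S) (hB : BpS) (hF3 : F3S) (hRkU : RkUSS) (hL : LMNS)
    (hOfb : OfbS) (hO4 : Oo4S) (hB2 : Ob2S) (hB3 : Ob3S) {q f : ℤ[X]} {a : ℝ} {j : ℕ}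
    {C : Set L} (W0 : KcB phi D q f a j eta 1 C) (hu : f.coeff 0 = 1)
    (hn : f.coeff 1 - q.coeff 1 = j + 1) {Z : ZMod (1 + 3) → L}
    {mu : ZMod (1 + 3) → L →+ ℤ} (h0 : Cyc phi D eta 1 Z mu) (hZ : ∀ n, Z n ∈ C) :
    KO.H40.Dff phi D eta (Z 0) (Z 1) := by
  have h2 : 2 ≤ Module.finrank ℤ L := by have := W0.ko.rk; have := W0.ko.j2; omega
  obtain ⟨et, des⟩ := KO.des_exists hE2 hOfa hO1 W0.ko
  have hee := KO.Kc_des W0.kc des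
  have W : KcB phi D q f a j et 1 C := ⟨W0.ko, KO.Kc_congr W0.kc hee, fun S hS => by
    rw [hee S hS]
    exact W0.rn S hS⟩
  have h : Cyc phi D et 1 Z mu := KO.H96.Cyc.congr h0 (fun i => hee _ (hZ i))
  have e0 := hee _ (hZ 0)
  have e1 := hee _ (hZ 1)
  have key := fun {t0 t1 : (RO ℤ)ˣ} (ht : Lds t0 t1) {nu : L →+ ℤ}
    (hk : Kil phi D (Z 0) (Z (0 + 1)) (et (Z 0) * t0) (et (Z (0 + 1)) * t1) nu) (T : L)
    (rT : Ray D T) (hTZ : ∀ n, T ≠ Z n) => no_out hQs hCz hTz hFj hGa hNz hNd3 hTa hLd hRW hRs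
      hRes hFact hC4 hThin hMin hB5a hUA hFcm hM1 hMm hMV hE1 hE2 hPc
      hClp hC0 hG0 hI1 hRk hFD hWW hRF hMug hMco hCu hSf hTr hTsa hI3 hMfc hCa hGlc hFou hDti
      hNbr hF1 hF2 hKm hFsp hVco hRy hVf hVv hT hNd hNr hB hF3 hRkU hL hOfb hO4 hB2 hB3 W hu hn
      des le_rfl h hZ 0 ht hk rT hTZ
  rw [zero_add] at key
  by_contra hcon
  unfold KO.H40.Dff at hcon
  push Not at hcon
  obtain ⟨⟨nu, hk, hnu⟩, nu', hk', hnu'⟩ := hcon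
  rw [← e0, ← e1] at hk hk'
  exact KO.H40.df4v hTop hE2 hRk hF1 hRy W.ko.min.fp.dd h2 h hk hk' hnu hnu'
    (fun T rT hTZ => key lds_AC hk T rT hTZ)
    (fun T rT hTZ => key lds_AC.symm (kil_symm hk') T rT hTZ)

end

end Pool.Agent.B5.O4X
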