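import Pool.Agent.Lib.MP_b5021c_nt.KO.H13.MovX

/-!
# MP_b5021c_nt, all `θ`, K ODD, (O4), ALPHA, row TK3: the frame

`Z` a closed triple, `Z'` a neutral cycle.  If the double closing `V''` of `Z i`, `Z (i+1)` (loads
`(-1/z, z)` or `(z, -1/z)`) has a drop then there is a moved ray `T` outside `Z` with the data `Tk3`
(`tk3_red`).  `Tk3.dtr`: the coefficient of `T` and a fully mutual ray `R` outside `Z`.
-/

set_option linter.unusedSectionVars false

namespace Pool.Agent.B5.O4X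

open scoped LaurentPolynomial
open Polynomial
open Pool.Agent.B5 Pool.Agent.B5.KE
open Pool.Agent.B5.Nr.Sch
open Pool.Agent.B5.Nr (TrezS)
open Pool.Agent.B5.H61 (CuspS)
open Pool.Agent.B5.KV67 (TT1 tA_val)
open Pool.Agent.B5.KO.H96 (Alp)

section

variable {P L : Type} [Fintype P] [DecidableEq P] [AddCommGroup L] [Module.Free ℤ L]
  [Module.Finite ℤ L] {phi : L →+ (P → ℤ)} {D : AO ℤ L} {eta : L → (RO ℤ)ˣ}

/-- The largest exponent is killed. -/
theorem kil_top (fp : FP phi D) {S0 S1 t : L} {u u0 u1 : (RO ℤ)ˣ} {nu : L →+ ℤ}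
    (r0 : Ray D S0) (r1 : Ray D S1) (hdis : ∀ p, phi S0 p = 0 ∨ phi S1 p = 0)
    (hk : Kil phi D S0 S1 u0 u1 nu) (hap : blk D S0 S1 u0 u1 0 ≠ 0)
    (hrev : ∀ a : L, D.coeff (t - a) = (u : RO ℤ) * rsh (D.coeff a))
    (hpt : ∀ i, phi t i = 1) : nu t = 0 := by
  have hout : Out phi S0 S1 (t - S0 - S1) := by
    intro q
    by_cases h1 : phi S0 q = 0
    · by_cases h3 : phi S1 q = 0
      · exact Or.inr ⟨h1, h3⟩
      · left
        rw [map_sub, map_sub, Pi.sub_apply, Pi.sub_apply, hpt, h1,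
          (fp.dd.bin S1 r1.1 q).resolve_left h3]
        norm_num
    · left
      rw [map_sub, map_sub, Pi.sub_apply, Pi.sub_apply, hpt,
        (fp.dd.bin S0 r0.1 q).resolve_left h1, (hdis q).resolve_left h1]
      norm_num
  have hcs : blk D S0 S1 u0 u1 (t - S0 - S1) = (u : RO ℤ) * (u0 : RO ℤ) * (u1 : RO ℤ) *
      rsh (blk D S0 S1 u0 u1 0) := by
    have e1' := Pool.Agent.B5.H24.rsh_unit u0
    have e2' := Pool.Agent.B5.H24.rsh_unit u1
    have c0 : D.coeff (t - S0 - S1) = (u : RO ℤ) * rsh (D.coeff (S0 + S1)) := by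
      rw [← hrev]
      congr 1
      abel
    have c1 : D.coeff (t - S0 - S1 + S0) = (u : RO ℤ) * rsh (D.coeff S1) := by
      rw [← hrev]
      congr 1
      abel
    have c2 : D.coeff (t - S0 - S1 + S1) = (u : RO ℤ) * rsh (D.coeff S0) := by
      rw [← hrev]
      congr 1
      abel
    have c3 : D.coeff (t - S0 - S1 + S0 + S1) = (u : RO ℤ) * rsh (D.coeff 0) := by
      rw [← hrev]
      congr 1
      abel
    rw [blk, c0, c1, c2, c3, blk]
    simp only [map_add, map_mul, zero_add]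
    linear_combination (-(u : RO ℤ) * (u1 : RO ℤ) * rsh (D.coeff S0)
        - (u : RO ℤ) * rsh (D.coeff (S0 + S1))) * e1' +
      (-(u : RO ℤ) * (u0 : RO ℤ) * rsh (D.coeff S1)
        - (u : RO ℤ) * (u0 : RO ℤ) * rsh (u0 : RO ℤ) * rsh (D.coeff (S0 + S1))) * e2'
  by_contra hn
  have h1 : nu (t - S0 - S1) = nu t := by rw [map_sub, map_sub, hk.s0, hk.s1, sub_zero, sub_zero]
  have h3 := hk.free _ hout (by rw [h1]; exact hn)
  change blk D S0 S1 u0 u1 (t - S0 - S1) = 0 at h3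
  rw [hcs] at h3
  refine hap ?_
  have h4 := (mul_eq_zero.mp h3).resolve_left
    (mul_ne_zero (mul_ne_zero u.ne_zero u0.ne_zero) u1.ne_zero)
  exact Pool.Agent.B5.H59.rsh_eq_zero.mp h4

/-- A functional which kills the largest exponent has rays of both signs. -/
theorem both_signs (hE2 : E2S) (hRy : RaySpanS) (hD : DD phi D)
    (h2 : 2 ≤ Module.finrank ℤ L) {t : L} {u : (RO ℤ)ˣ}
    (hrev : ∀ a : L, D.coeff (t - a) = (u : RO ℤ) * rsh (D.coeff a)) {nu : L →+ ℤ}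
    (hnu : nu ≠ 0) (hnt : nu t = 0) :
    (∃ R, Ray D R ∧ 0 < nu R) ∧ ∃ R, Ray D R ∧ nu R < 0 := by
  classical
  have hmem : ∀ a ∈ supp D, t - a ∈ supp D := by
    intro a ha h
    change D.coeff (t - a) = 0 at h
    rw [hrev] at h
    have h1 := (mul_eq_zero.mp h).resolve_left u.ne_zero
    exact ha (Pool.Agent.B5.H59.rsh_eq_zero.mp h1)
  obtain ⟨-, hthin, -, -, -, -⟩ := hE2 ℤ P L phi D hD h2
  obtain ⟨lam, hpos, -⟩ := hD.st.2
  have hray := (hRy ℤ L D ⟨lam, hpos⟩ hthin).1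
  -- the positive half
  have key : ∀ mu : L →+ ℤ, mu ≠ 0 → mu t = 0 → ∃ R, Ray D R ∧ 0 < mu R := by
    intro mu hmu hmt
    by_contra hcon
    push Not at hcon
    apply hmu
    have hle : ∀ a ∈ supp D, mu a ≤ 0 := by
      intro a ha
      by_cases ha0 : a = 0
      · rw [ha0, map_zero]
      · obtain ⟨n, hn, h1⟩ := hray a ha ha0
        have h3 : ∀ x ∈ AddSubmonoid.closure {b | Ray D b}, mu x ≤ 0 := by
          intro x hx
          induction hx using AddSubmonoid.closure_induction with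
          | mem x hx => exact hcon x hx
          | zero => rw [map_zero]
          | add x y _ _ hx hy => rw [map_add]; omega
        have h4 := h3 _ h1
        rw [map_nsmul, nsmul_eq_mul] at h4
        by_contra h5
        push Not at h5
        have : 0 < (n : ℤ) * mu a := mul_pos (by exact_mod_cast hn) h5
        omega
    have hz : ∀ a ∈ supp D, mu a = 0 := by
      intro a ha
      have h1 := hle a ha
      have h3 := hle _ (hmem a ha)
      rw [map_sub, hmt] at h3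
      omega
    have h5 : supp D ⊆ (Ker mu : Set L) := fun a ha => hz a ha
    have h6 : Module.finrank ℤ (Ker mu) = Module.finrank ℤ L := by
      have h7 := Submodule.finrank_mono (Submodule.span_le.2 h5)
      have h8 : Module.finrank ℤ (Submodule.span ℤ (supp D)) = Module.finrank ℤ L := hD.spn
      have h9 := Submodule.finrank_le (Ker mu)
      omega
    ext x
    have h7 := Submodule.finrank_quotient_add_finrank (Ker mu)
    have h8 : Module.finrank ℤ (L ⧸ Ker mu) = 0 := by omega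
    rw [Module.finrank_eq_zero_iff_isTorsion] at h8
    obtain ⟨⟨n, hn⟩, h9⟩ := @h8 (Submodule.Quotient.mk x)
    have h10 : n • x ∈ Ker mu := by
      rw [← Submodule.Quotient.mk_eq_zero, Submodule.Quotient.mk_smul]
      exact h9
    have h11 : mu (n • x) = 0 := h10
    rw [map_zsmul, smul_eq_mul] at h11
    exact (mul_eq_zero.mp h11).resolve_left (nonZeroDivisors.ne_zero hn)
  refine ⟨key nu hnu hnt, ?_⟩
  obtain ⟨R, hR, h1⟩ := key (-nu) (neg_ne_zero.mpr hnu) (by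
    rw [AddMonoidHom.neg_apply, hnt, neg_zero])
  rw [AddMonoidHom.neg_apply] at h1
  exact ⟨R, hR, by omega⟩

/-- The apex of `V''`. -/
theorem blk_apex (hMco : McoS) {q f : ℤ[X]} {j : ℕ} (hD : DD phi D)
    (hq : D.coeff 0 = toLaurent q) (hn : f.coeff 1 - q.coeff 1 = j + 1) (hj : 2 ≤ j)
    (hu : f.coeff 0 = 1)
    {S S1 : L} (hM : Mut D S S1 (eta S) (eta S1))
    (hco : (eta S : RO ℤ) * D.coeff S = toLaurent (X * f)) {t0 t1 : (RO ℤ)ˣ} (ht : Lds t0 t1) :
    blk D S S1 (eta S * t0) (eta S1 * t1) 0 ≠ 0 := by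
  obtain ⟨-, h1, h01, -⟩ := hMco ℤ P L phi D S S1 _ _ hD.inj hD.bin hM
  rw [hco] at h1 h01
  unfold Lds at ht
  have key : blk D S S1 (eta S * t0) (eta S1 * t1) 0 =
      toLaurent (q - (1 - X - X ^ 2) * f) := by
    unfold blk
    rw [Units.val_mul, Units.val_mul, zero_add, zero_add, hq]
    simp only [map_mul, map_sub, map_one, map_pow, toLaurent_X] at *
    linear_combination (t0 : RO ℤ) * hco + (t1 : RO ℤ) * h1 +
      (t0 : RO ℤ) * (t1 : RO ℤ) * h01 - (LaurentPolynomial.T 1 * toLaurent f) * ht -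
      toLaurent f * TT1
  rw [key, toLaurent_ne_zero]
  intro h0
  have h3 := congrArg (fun p : ℤ[X] => p.coeff 1) h0
  have e1 : (1 - X - X ^ 2) * f = f - X * f - X * (X * f) := by ring
  rw [e1] at h3
  simp only [coeff_sub, coeff_X_mul, mul_coeff_zero, coeff_X_zero, zero_mul, coeff_zero, hu] at h3
  omega

/-- THE DATA OF ROW TK3. -/
structure Tk3 (phi : L →+ (P → ℤ)) (D : AO ℤ L) (q f f' : ℤ[X]) (a : ℝ) (j : ℕ)
    (eta : L → (RO ℤ)ˣ) (k' : ℕ) (Z : ZMod 3 → L) (mu : ZMod 3 → L →+ ℤ)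
    (Z' : ZMod (k' + 3) → L) (mu' : ZMod (k' + 3) → L →+ ℤ) (T : L) (e : (RO ℤ)ˣ)
    (nuC : L →+ ℤ) : Prop where
  alp : Alp phi D q f f' a j eta 0 k' Z mu Z' mu'
  des : KO.Des phi D q a eta
  rT : Ray D T
  TZ : ∀ n, T ≠ Z n
  TZ' : ∀ l, T ≠ Z' l
  kil : ∀ n, Z n ∉ US (eta T) T D
  rn : RN D T q ((1 - X - X ^ 2) * f) e a
  eT : eta T = -e
  dfr : Dfr phi D T (ld e 1)
  fm : ∀ R, KO.Fm D eta R → (∀ n, R ≠ Z n) → R ∈ US (eta T) T D
  nfm : ∀ R, KO.Fm D eta R → (∀ n, R ≠ Z n) → nuC R = 0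
  mv : ∃ (i : ZMod 3) (t0 t1 : (RO ℤ)ˣ), Lds t0 t1 ∧
    Kil phi D (Z i) (Z (i + 1)) (eta (Z i) * t0) (eta (Z (i + 1)) * t1) nuC
  nT : nuC T ≠ 0

/-- Two cycles for other loads which agree on them. -/
theorem alp_congr {q f f' : ℤ[X]} {a : ℝ} {j : ℕ} {eta' : L → (RO ℤ)ˣ} {k k' : ℕ}
    {Z : ZMod (k + 3) → L} {mu : ZMod (k + 3) → L →+ ℤ} {Z' : ZMod (k' + 3) → L}
    {mu' : ZMod (k' + 3) → L →+ ℤ} (A : Alp phi D q f f' a j eta k k' Z mu Z' mu')
    (h1 : ∀ i, eta' (Z i) = eta (Z i)) (h2 : ∀ l, eta' (Z' l) = eta (Z' l)) :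
    Alp phi D q f f' a j eta' k k' Z mu Z' mu' :=
  ⟨KO.H96.KcB.congr A.w (by rintro S ⟨i, rfl⟩; exact h1 i),
    KO.H96.KcB.congr A.w' (by rintro S ⟨l, rfl⟩; exact h2 l), A.u, A.u', A.n, A.n',
    KO.H96.Cyc.congr A.c h1, KO.H96.Cyc.congr A.c' h2, A.ne, A.z, A.z', A.nu, A.nu'⟩

/-- A ray in all `U` of the cycle: the coefficients with two neighbours. -/
theorem neu_step (hF1 : F1S) (hI : Inj1S) (fp : FP phi D) {k : ℕ} {Z : ZMod (k + 3) → L}
    {mu : ZMod (k + 3) → L →+ ℤ} (h : Cyc phi D eta k Z mu) {R : L} (hR : Ray D R)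
    (hRZ : ∀ n, R ≠ Z n) (i : ZMod (k + 3)) :
    (eta (Z i) : RO ℤ) * D.coeff (R + Z i) =
      (eta (Z (i + 1)) : RO ℤ) * D.coeff (R + Z (i + 1)) := by
  have hD := fp.dd
  have hM := h.mtl i
  have ne01 : i ≠ i + 1 := KO29.ne_succ i
  have dis := h.dis i (i + 1) ne01
  have hS := hF1 ℤ P L phi D (Z i) (eta (Z i)) hD.inj hD.bin (hD.bin _ hM.r0.1) hM.r0.2.1
  have hS1 := hF1 ℤ P L phi D (Z (i + 1)) (eta (Z (i + 1))) hD.inj hD.bin (hD.bin _ hM.r1.1)
    hM.r1.2.1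
  have u0 := cyc_out h hR hRZ i
  have u1 := cyc_out h hR hRZ (i + 1)
  have a0 : R + Z i ∉ US (eta (Z (i + 1))) (Z (i + 1)) D := fun h => hM.m1 (by
    have := Submodule.sub_mem _ h u1
    rwa [add_sub_cancel_left] at this)
  have a1 : R + Z (i + 1) ∉ US (eta (Z i)) (Z i) D := fun h => hM.m0 (by
    have := Submodule.sub_mem _ h u0
    rwa [add_sub_cancel_left] at this)
  -- a common port
  have two : ∀ {S : L}, Ray D S → ∀ {p : P}, phi R p = 1 → phi S p = 1 →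
      D.coeff (R + S) = 0 := by
    intro S hS' p h3 h4
    by_contra h5
    have h6 := hD.bin _ h5 p
    rw [map_add, Pi.add_apply, h3, h4] at h6
    omega
  -- a port outside `R`
  have mis : ∀ {S : L}, Ray D S → R ≠ S → ∃ p, phi R p = 0 ∧ phi S p = 1 := by
    intro S hS' hne
    by_contra hcon
    push Not at hcon
    apply hne
    have h3 : ∀ p, phi R p = 0 → phi S p = 0 := fun p hp =>
      (hD.bin S hS'.1 p).resolve_right (hcon p hp)
    obtain ⟨m, hm⟩ := (hI ℤ P L phi D fp R hR).1 S h3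
    obtain ⟨p, hp⟩ := exists_port hD hS'
    have h4 : phi S p = 1 := hp
    rw [hm, map_zsmul, Pi.smul_apply, smul_eq_mul] at h4
    rcases hD.bin R hR.1 p with h5 | h5
    · rw [h5, mul_zero] at h4
      omega
    · rw [h5, mul_one] at h4
      rw [hm, h4, one_smul]
  by_cases c0 : ∀ p, phi R p = 0 ∨ phi (Z i) p = 0
  · by_cases c1 : ∀ p, phi R p = 0 ∨ phi (Z (i + 1)) p = 0
    · have e0 := (hS1 _ a0).2 (fun p => by
        rw [map_add, Pi.add_apply]
        rcases dis p with h3 | h3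
        · rw [h3, add_zero]
          exact c1 p
        · exact Or.inr h3)
      have e1 := (hS _ a1).2 (fun p => by
        rw [map_add, Pi.add_apply]
        rcases dis p with h3 | h3
        · exact Or.inr h3
        · rw [h3, add_zero]
          exact c0 p)
      rw [show R + Z (i + 1) + Z i = R + Z i + Z (i + 1) by abel] at e1
      linear_combination (eta (Z i) : RO ℤ) * e0 - (eta (Z (i + 1)) : RO ℤ) * e1
    · push Not at c1
      obtain ⟨p, hp1, hp2⟩ := c1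
      have hp1' := (hD.bin R hR.1 p).resolve_left hp1
      have hp2' := (hD.bin _ hM.r1.1 p).resolve_left hp2
      have z0 : phi (Z i) p = 0 := (dis p).resolve_right hp2
      obtain ⟨p', h3, h4⟩ := mis hM.r1 (hRZ _)
      have z0' : phi (Z i) p' = 0 := (dis p').resolve_right (by rw [h4]; exact one_ne_zero)
      have e0 := (hS1 _ a0).1 ⟨p, by rw [map_add, Pi.add_apply, hp1', z0, add_zero], hp2'⟩
        ⟨p', by rw [map_add, Pi.add_apply, h3, z0', add_zero], h4⟩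
      rw [e0, two hM.r1 hp1' hp2', mul_zero, mul_zero]
  · push Not at c0
    obtain ⟨p, hp1, hp2⟩ := c0
    have hp1' := (hD.bin R hR.1 p).resolve_left hp1
    have hp2' := (hD.bin _ hM.r0.1 p).resolve_left hp2
    have z0 : phi (Z (i + 1)) p = 0 := (dis p).resolve_left hp2
    obtain ⟨p', h3, h4⟩ := mis hM.r0 (hRZ _)
    have z0' : phi (Z (i + 1)) p' = 0 := (dis p').resolve_left (by rw [h4]; exact one_ne_zero)
    have e0 := (hS _ a1).1 ⟨p, by rw [map_add, Pi.add_apply, hp1', z0, add_zero], hp2'⟩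
      ⟨p', by rw [map_add, Pi.add_apply, h3, z0', add_zero], h4⟩
    rw [e0, two hM.r0 hp1' hp2', mul_zero, mul_zero]

/-- All coefficients of `R` and a ray of the cycle are equal in the loads. -/
theorem neu_all (hF1 : F1S) (hI : Inj1S) (fp : FP phi D) {k : ℕ} {Z : ZMod (k + 3) → L}
    {mu : ZMod (k + 3) → L →+ ℤ} (h : Cyc phi D eta k Z mu) {R : L} (hR : Ray D R)
    (hRZ : ∀ n, R ≠ Z n) (i n : ZMod (k + 3)) :
    (eta (Z i) : RO ℤ) * D.coeff (R + Z i) = (eta (Z n) : RO ℤ) * D.coeff (R + Z n) := by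
  have key : ∀ c : ℕ, (eta (Z i) : RO ℤ) * D.coeff (R + Z i) =
      (eta (Z (i + c)) : RO ℤ) * D.coeff (R + Z (i + c)) := by
    intro c
    induction c with
    | zero => rw [Nat.cast_zero, add_zero]
    | succ c ih =>
      rw [ih, Nat.cast_succ, ← add_assoc]
      exact neu_step hF1 hI fp h hR hRZ _
  have h1 := key (ZMod.val (n - i))
  rw [ZMod.natCast_zmod_val, add_sub_cancel] at h1
  exact h1

/-- (D_TR) The coefficient of `T` and of a fully mutual ray outside the triple: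
`z D_(R+T) = -(1 - z - z²) D_(R+Z n)` in the loads. -/
theorem Tk3.dtr (hF1 : F1S) (hF2 : F2S) (hF3 : F3S) (hI : Inj1S) {q f f' : ℤ[X]} {a : ℝ}
    {j k' : ℕ} {Z : ZMod 3 → L} {mu : ZMod 3 → L →+ ℤ} {Z' : ZMod (k' + 3) → L}
    {mu' : ZMod (k' + 3) → L →+ ℤ} {T : L} {e : (RO ℤ)ˣ} {nuC : L →+ ℤ}
    (h : Tk3 phi D q f f' a j eta k' Z mu Z' mu' T e nuC) {R : L} (hR : KO.Fm D eta R)
    (hRZ : ∀ n, R ≠ Z n) (n : ZMod 3) :
    (LaurentPolynomial.T 1 : RO ℤ) * ((eta T : RO ℤ) * D.coeff (R + T)) =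
      -((1 - LaurentPolynomial.T 1 - LaurentPolynomial.T 2) *
        ((eta (Z n) : RO ℤ) * D.coeff (R + Z n))) := by
  have fp := h.alp.w.ko.min.fp
  have hD := fp.dd
  have hc := h.alp.c
  obtain ⟨i, t0, t1, ht, hk⟩ := h.mv
  rw [← neu_all hF1 hI fp hc hR.1 hRZ i n]
  have hM := hc.mtl i
  have ne01 : i ≠ i + 1 := KO29.ne_succ (k := 0) i
  have dis := hc.dis i (i + 1) ne01
  have hstep := neu_step hF1 hI fp hc hR.1 hRZ i
  have hTi := cyc_out hc h.rT h.TZ i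
  -- `T` is disjoint from the triple
  have hTZ : ∀ m p, phi (Z m) p = 0 ∨ phi T p = 0 := fun m p =>
    hF2 ℤ P L phi D (Z m) T (eta T) hD.inj hD.bin (hc.mtl m).r0 h.rT (h.kil m) p
  have hTF := hF1 ℤ P L phi D T (eta T) hD.inj hD.bin (hD.bin T h.rT.1) h.rT.2.1
  have hRT : R ∈ US (eta T) T D := h.fm R hR hRZ
  have hout : ∀ m, R + Z m ∉ US (eta T) T D := fun m hh => h.kil m (by
    have := Submodule.sub_mem _ hh hRT
    rwa [add_sub_cancel_left] at this)
  have hle := (KO.incl_US hF3 hD h.rT hM.r0 (h.kil i) hTi).1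
  have hout2 : R + Z i + Z (i + 1) ∉ US (eta T) T D := fun hh => hM.m0 (by
    have h1 := hle hh
    have h2 := cyc_out hc hR.1 hRZ i
    have h3 : Z i ∈ US (eta (Z i)) (Z i) D := (hc.ker i _).mpr (by
      rcases KO.H40.idx 0 i with ⟨n1, n2, -⟩
      exact KO.H40.cyc_mu hc n1 n2)
    have h4 := Submodule.sub_mem _ (Submodule.sub_mem _ h1 h2) h3
    have e1 : R + Z i + Z (i + 1) - R - Z i = Z (i + 1) := by abel
    rwa [e1] at h4)
  have hnRT : nuC (R + T) ≠ 0 := by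
    rw [map_add, h.nfm R hR hRZ, zero_add]
    exact h.nT
  have two : ∀ {S : L}, Ray D S → ∀ {p : P}, phi R p ≠ 0 → phi S p ≠ 0 →
      D.coeff (R + S) = 0 := by
    intro S hS' p h3 h4
    by_contra h5
    have h6 := hD.bin _ h5 p
    rw [map_add, Pi.add_apply, (hD.bin R hR.1.1 p).resolve_left h3,
      (hD.bin S hS'.1 p).resolve_left h4] at h6
    omega
  have mis : ∀ {S : L}, Ray D S → R ≠ S → ∃ p, phi R p = 0 ∧ phi S p = 1 := by
    intro S hS' hne
    by_contra hcon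
    push Not at hcon
    apply hne
    have h3 : ∀ p, phi R p = 0 → phi S p = 0 := fun p hp =>
      (hD.bin S hS'.1 p).resolve_right (hcon p hp)
    obtain ⟨m, hm⟩ := (hI ℤ P L phi D fp R hR.1).1 S h3
    obtain ⟨p, hp⟩ := exists_port hD hS'
    have h4 : phi S p = 1 := hp
    rw [hm, map_zsmul, Pi.smul_apply, smul_eq_mul] at h4
    rcases hD.bin R hR.1.1 p with h5 | h5
    · rw [h5, mul_zero] at h4
      omega
    · rw [h5, mul_one] at h4
      rw [hm, h4, one_smul]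
  by_cases cT : ∀ p, phi R p = 0 ∨ phi T p = 0
  swap
  · -- `R` meets `T`
    push Not at cT
    obtain ⟨p, hp1, hp2⟩ := cT
    have hne : R ≠ T := fun hh => h.nT (by rw [← hh]; exact h.nfm R hR hRZ)
    obtain ⟨p', h3, h4⟩ := mis h.rT hne
    have hp1' := (hD.bin R hR.1.1 p).resolve_left hp1
    have hp2' := (hD.bin T h.rT.1 p).resolve_left hp2
    have e0 := (hTF _ (hout i)).1
      ⟨p, by rw [map_add, Pi.add_apply, hp1', (hTZ i p).resolve_right hp2, add_zero], hp2'⟩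
      ⟨p', by
        rw [map_add, Pi.add_apply, h3, (hTZ i p').resolve_right (by rw [h4]; exact one_ne_zero),
          add_zero], h4⟩
    rw [e0, two h.rT hp1 hp2]
    ring
  -- `R` meets `Z i` or `Z (i + 1)`
  have meet : ∀ m, (∀ b ∈ supp D, Part phi (Z m) b → nuC b = 0) →
      ¬ (∀ p, phi R p = 0 ∨ phi (Z m) p = 0) → D.coeff (R + T) = 0 ∧ D.coeff (R + Z m) = 0 := by
    intro m hpt c0
    push Not at c0
    obtain ⟨p, hp1, hp2⟩ := c0
    refine ⟨?_, two (hc.mtl m).r0 hp1 hp2⟩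
    by_contra h5
    apply hnRT
    obtain ⟨p', h3, h4⟩ := mis (hc.mtl m).r0 (hRZ m)
    have hp1' := (hD.bin R hR.1.1 p).resolve_left hp1
    have hp2' := (hD.bin _ (hc.mtl m).r0.1 p).resolve_left hp2
    exact hpt _ h5 ⟨⟨p, by
      rw [map_add, Pi.add_apply, hp1', (hTZ m p).resolve_left hp2, add_zero], hp2'⟩,
      p', by
        rw [map_add, Pi.add_apply, h3, (hTZ m p').resolve_left (by rw [h4]; exact one_ne_zero),
          add_zero], h4⟩
  by_cases c0 : ∀ p, phi R p = 0 ∨ phi (Z i) p = 0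
  swap
  · obtain ⟨h1, h2⟩ := meet i (fun b hb hp => hk.part b hb (Or.inl hp)) c0
    rw [h1, h2]
    ring
  by_cases c1 : ∀ p, phi R p = 0 ∨ phi (Z (i + 1)) p = 0
  swap
  · obtain ⟨h1, h2⟩ := meet (i + 1) (fun b hb hp => hk.part b hb (Or.inr hp)) c1
    rw [hstep, h1, h2]
    ring
  -- the disjoint case
  have o : Out phi (Z i) (Z (i + 1)) (R + T) := fun p => by
    rcases c0 p with h1 | h1
    · rcases hTZ i p with h3 | h3
      · rcases c1 p with h4 | h4
        · rcases hTZ (i + 1) p with h5 | h5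
          · exact Or.inr ⟨h3, h5⟩
          · left
            rw [map_add, Pi.add_apply, h1, h5, add_zero]
        · exact Or.inr ⟨h3, h4⟩
      · left
        rw [map_add, Pi.add_apply, h1, h3, add_zero]
    · rcases c1 p with h4 | h4
      · rcases hTZ (i + 1) p with h5 | h5
        · exact Or.inr ⟨h1, h5⟩
        · left
          rw [map_add, Pi.add_apply, h4, h5, add_zero]
      · exact Or.inr ⟨h1, h4⟩
  have hb := hk.free (R + T) o hnRT
  have dT : ∀ {x : L}, (∀ p, phi x p = 0 ∨ phi T p = 0) → ∀ m, ∀ p, phi (x + Z m) p = 0 ∨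
      phi T p = 0 := fun {x} hx m p => by
    rcases hx p with h1 | h1
    · rcases hTZ m p with h3 | h3
      · left
        rw [map_add, Pi.add_apply, h1, h3, add_zero]
      · exact Or.inr h3
    · exact Or.inr h1
  have k0 := (hTF _ (hout i)).2 (dT cT i)
  have k1 := (hTF _ (hout (i + 1))).2 (dT cT (i + 1))
  have k2 := (hTF _ hout2).2 (dT (dT cT i) (i + 1))
  have e0 : R + Z i + T = R + T + Z i := by abel
  have e1 : R + Z (i + 1) + T = R + T + Z (i + 1) := by abel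
  have e2 : R + Z i + Z (i + 1) + T = R + T + Z i + Z (i + 1) := by abel
  rw [e0] at k0
  rw [e1] at k1
  rw [e2] at k2
  -- the flip
  have a0 : R + Z i ∉ US (eta (Z (i + 1))) (Z (i + 1)) D := fun hh => hM.m1 (by
    have := Submodule.sub_mem _ hh (cyc_out hc hR.1 hRZ (i + 1))
    rwa [add_sub_cancel_left] at this)
  have f0 := (hF1 ℤ P L phi D (Z (i + 1)) (eta (Z (i + 1))) hD.inj hD.bin (hD.bin _ hM.r1.1)
    hM.r1.2.1 _ a0).2 (fun p => by
      rcases dis p with h3 | h3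
      · rcases c1 p with h4 | h4
        · left
          rw [map_add, Pi.add_apply, h3, h4, add_zero]
        · exact Or.inr h4
      · exact Or.inr h3)
  rw [Units.val_mul, Units.val_mul] at hb
  unfold Lds at ht
  have hTT : (LaurentPolynomial.T 1 : RO ℤ) * (1 - ((t0 : RO ℤ) + (t1 : RO ℤ) -
      (t0 : RO ℤ) * (t1 : RO ℤ))) = 1 - LaurentPolynomial.T 2 := by
    have h1 : (LaurentPolynomial.T 1 : RO ℤ) * LaurentPolynomial.T 1 = LaurentPolynomial.T 2 := by
      rw [← LaurentPolynomial.T_add]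
      norm_num
    linear_combination (LaurentPolynomial.T 1 : RO ℤ) * ht + TT1 - h1
  linear_combination (LaurentPolynomial.T 1 : RO ℤ) * (eta T : RO ℤ) * hb -
    (LaurentPolynomial.T 1 : RO ℤ) * (eta (Z i) : RO ℤ) * (t0 : RO ℤ) * k0 -
    (LaurentPolynomial.T 1 : RO ℤ) * (eta (Z (i + 1)) : RO ℤ) * (t1 : RO ℤ) * k1 -
    (LaurentPolynomial.T 1 : RO ℤ) * (eta (Z i) : RO ℤ) * (t0 : RO ℤ) *
      (eta (Z (i + 1)) : RO ℤ) * (t1 : RO ℤ) * k2 +
    (LaurentPolynomial.T 1 : RO ℤ) * (eta (Z i) : RO ℤ) * (t0 : RO ℤ) * (t1 : RO ℤ) * f0 -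
    (LaurentPolynomial.T 1 : RO ℤ) * (t1 : RO ℤ) * hstep -
    (eta (Z i) : RO ℤ) * D.coeff (R + Z i) * hTT

theorem three_cases : ∀ i n : ZMod 3, n = i ∨ n = i + 1 ∨ n = i + 2 := by decide

/-- (TK3, FRAME) `V''` of a closed triple with a neutral cycle beside it is drop free in both
orientations, if the data `Tk3` are impossible. -/
theorem tk3_red (hTop : TopS) (hOfa : OfaS) (hO1 : Oo1S) (hM1 : M1S) (hMm : MmulS) (hMV : MVS)
    (hE1 : E1S) (hE2 : E2S) (hPc : PCZS)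
    (hClp : ClpS) (hC0 : Coeff0S) (hG0 : G0S) (hI1 : Inj1S) (hRk : RkS) (hFD : FDS)
    (hWW : WWfS) (hRF : RayFacS) (hMug : MugS) (hMco : McoS) (hCu : CuspS) (hSf : SfzS)
    (hTr : TrezS) (hTsa : TsaS) (hI3 : Io3S) (hMfc : MfcS) (hCa : Ca5S) (hGlc : GlcS)
    (hFou : FouS) (hDti : DtiS) (hNbr : NbrS) (hF1 : F1S) (hF2 : F2S) (hKm : KmuS)
    (hFsp : FspS) (hVco : VcoS) (hRy : RaySpanS) (hVf : KvfS) (hVv : KvvS) (hT : TsgS)
    (hNd : Nd3vS) (hNr : Nr3S) (hB : BpS) (hF3 : F3S) (hRkU : RkUSS) (hL : LMNS)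
    (hOfb : OfbS) (hO4 : Oo4S) (hB2 : Ob2S) (hB3 : Ob3S) {q f f' : ℤ[X]} {a : ℝ} {j k' : ℕ}
    {Z : ZMod 3 → L} {mu : ZMod 3 → L →+ ℤ} {Z' : ZMod (k' + 3) → L}
    {mu' : ZMod (k' + 3) → L →+ ℤ} (A : Alp phi D q f f' a j eta 0 k' Z mu Z' mu')
    (H : ∀ (et : L → (RO ℤ)ˣ) (T : L) (e : (RO ℤ)ˣ) (nuC : L →+ ℤ),
      Tk3 phi D q f f' a j et k' Z mu Z' mu' T e nuC → False) (i : ZMod 3) :
    (∀ nu, Kil phi D (Z i) (Z (i + 1)) (eta (Z i) * tA) (eta (Z (i + 1)) * tC) nu → nu = 0) ∧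
    (∀ nu, Kil phi D (Z (i + 1)) (Z i) (eta (Z (i + 1)) * tA) (eta (Z i) * tC) nu → nu = 0) := by
  have fp := A.w.ko.min.fp
  have hD := fp.dd
  have h2 : 2 ≤ Module.finrank ℤ L := by have := A.w.ko.rk; have := A.w.ko.j2; omega
  obtain ⟨et, des⟩ := KO.des_exists hE2 hOfa hO1 A.w.ko
  have hee : ∀ n, et (Z n) = eta (Z n) := fun n => KO.Kc_des A.w.kc des _ ⟨n, rfl⟩
  have hee' : ∀ l, et (Z' l) = eta (Z' l) := fun l => KO.Kc_des A.w'.kc des _ ⟨l, rfl⟩
  have A' := alp_congr A hee hee'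
  have hM := A'.c.mtl i
  have dis := A'.c.dis i (i + 1) (KO29.ne_succ (k := 0) i)
  obtain ⟨ei, hei, hRi⟩ := A'.w.rn (Z i) ⟨i, rfl⟩
  have hco : (et (Z i) : RO ℤ) * D.coeff (Z i) = toLaurent (X * f) := by
    rw [hei, KO.ld_S1 hRi]
  obtain ⟨t, u, hrev, hport, -⟩ := hTop ℤ P L phi D hD h2
  have hpt : ∀ p, phi t p = 1 := fun p => hport p (fp.fac p).1
  have key : ∀ {t0 t1 : (RO ℤ)ˣ}, Lds t0 t1 → ∀ nu,
      Kil phi D (Z i) (Z (i + 1)) (et (Z i) * t0) (et (Z (i + 1)) * t1) nu → nu = 0 := by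
    intro t0 t1 ht nu hk
    by_contra hnu
    have hap := blk_apex hMco hD A'.w.ko.D0 A'.n A'.w.ko.j2 A'.u hM hco ht
    have hnt := kil_top fp hM.r0 hM.r1 dis hk hap hrev hpt
    obtain ⟨⟨R, hR, hRp⟩, R', hR', hRn⟩ := both_signs hE2 hRy hD h2 hrev hnu hnt
    have hex : ∃ T, Ray D T ∧ (∀ n, T ≠ Z n) ∧ nu T ≠ 0 := by
      by_contra hcon
      push Not at hcon
      have hin : ∀ S, Ray D S → nu S ≠ 0 → S = Z (i + 2) := by
        intro S hS hSn
        by_contra h4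
        apply hSn
        apply hcon S hS
        intro n hn
        have h5 : n = i ∨ n = i + 1 ∨ n = i + 2 := three_cases i n
        rcases h5 with h5 | h5 | h5
        · rw [hn, h5] at hSn
          exact hSn hk.s0
        · rw [hn, h5] at hSn
          exact hSn hk.s1
        · exact h4 (by rw [hn, h5])
      have h5 := hin R hR (by omega)
      have h6 := hin R' hR' (by omega)
      rw [h5] at hRp
      rw [h6] at hRn
      omega
    obtain ⟨T, hT1, hTZ, hnT⟩ := hex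
    have hpx : ∀ R r, KO.Fm D et R → (∀ n, R ≠ Z n) → ¬ T00 phi D et (Z i) (Z (i + 1)) R r :=
      fun R r hR hRZ => px_fm hM1 hMm hMV hE1 hE2 hPc
        hClp hC0 hG0 hI1 hRk hFD hWW hRF hMug hMco hCu hSf hTr hTsa hI3 hMfc hCa hGlc hFou hDti
        hNbr hF1 hF2 hKm hFsp hVco hRy hVf hVv hT hNd hNr hB hF3 hRkU hL hOfb hO4 hB2 hB3 A'.w
        A'.u A'.n des A'.c ⟨i, rfl⟩ hM R r hR hRZ
    obtain ⟨hall, e, hRN, heT, hdf⟩ := mov_or hF1 hF2 hF3 hI1 hE2 hRkU A'.w.ko des A'.u A'.c hco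
      hpx ht hk hT1 hTZ hnT
    refine H et T e nu ⟨A', des, hT1, hTZ, ?_, hall, hRN, heT, hdf, ?_, ?_,
      ⟨i, t0, t1, ht, hk⟩, hnT⟩
    · rintro l rfl
      exact hall 0 (A'.nu' 0 l _)
    · intro R hR hRZ
      exact mov_only hF1 hF2 hF3 hI1 hE2 hRkU A'.w.ko des A'.c hpx ht hk hT1 hTZ hnT hR hRZ
    · intro R hR hRZ
      by_contra hne
      obtain ⟨ho, hb⟩ := mov_blk hI1 fp hM.r0 hM.r1 hk hR.1 hne
      obtain ⟨r, t00⟩ := t00_blk hF1 hD ht hM dis ho hR.1 (cyc_out A'.c hR.1 hRZ i)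
        (cyc_out A'.c hR.1 hRZ (i + 1)) hb
      exact hpx R r hR hRZ t00
  rw [← hee i, ← hee (i + 1)]
  exact ⟨fun nu hk => key lds_AC nu hk, fun nu hk => key lds_AC.symm nu (kil_symm hk)⟩

end

end Pool.Agent.B5.O4X
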