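import Pool.Agent.Lib.MP_b5021c_nt.KO.H52.Kcl
import Pool.Agent.Lib.MP_b5021c_nt.KO.H96.TkWs
import Pool.Agent.Lib.MP_b5021c_nt.KO.H13.TkF

/-!
# MP_b5021c_nt, all `θ`, K ODD, (O4), ALPHA, row TK_DT: supports of the face

`G` = the part killed by all `mu` and `psi` = the free part of a closed triple: binary, positive for
the face functional of `r 0`; a functional zero on the rays outside is zero on the free part.
-/

set_option linter.unusedSectionVars false

namespace Pool.Agent.B5.O4X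

open scoped LaurentPolynomial
open AddMonoidAlgebra
open Pool.Agent.B5.KO.H71 (Tri Fr z3v)
open Pool.Agent.B5.KO.H40 (flt flt_in flt_out)
open Pool.Agent.B5.KO52

section gen

variable {O : Type} [CommRing O] [IsDomain O] [IsPrincipalIdealRing O] [Coef O] {P : Type}
  [Fintype P] [DecidableEq P] {L : Type} [AddCommGroup L] [Module.Free ℤ L] [Module.Finite ℤ L]
  {phi : L →+ (P → ℤ)} {D : AO O L} {r : ZMod 3 → L} {e : ZMod 3 → (RO O)ˣ}
  {mu : ZMod 3 → L →+ ℤ} {p : P}

/-- `a + r 0` with `a` killed by all `mu`: an exponent only if `a` is free. -/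
theorem fr_of (h : Tri phi D r e mu) (hF1 : F1S) (hI : Function.Injective phi)
    (hb : ∀ a ∈ supp D, Bin phi a) {a : L} (ha : ∀ i, mu i a = 0) (hs : a + r 0 ∈ supp D) :
    Fr phi r mu a := by
  obtain ⟨k1, k2, k3⟩ := h.va 0 a
  have h1 := h.ty1 hF1 hI hb (i := 0) hs (by rw [k1, ha]) (by rw [k2, ha]; norm_num)
    (by rw [k3, ha]; norm_num)
  rwa [add_sub_cancel_right] at h1

theorem g0_eq (h : Tri phi D r e mu) (hF1 : F1S) (hI : Function.Injective phi)
    (hb : ∀ a ∈ supp D, Bin phi a) {a : L} (ha : Im0 phi p mu a) :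
    (g0 phi D r e mu p).coeff a = D.coeff a + (e 0 : RO O) * D.coeff (a + r 0) := by
  rw [g0_in ha]
  by_cases hf : Fr phi r mu a
  · rw [psi_in hf]
  · rw [psi_out hf]
    have h0 : D.coeff (a + r 0) = 0 := by
      by_contra hne
      exact hf (fr_of h hF1 hI hb ha.2 hne)
    rw [h0, mul_zero]

theorem psi_bin (hb : ∀ a ∈ supp D, Bin phi a) {a : L}
    (ha : a ∈ supp (psi phi D r e mu)) : Bin phi a := by
  obtain ⟨hf, hs⟩ := psi_supp ha
  intro q
  have h1 := hb _ hs q
  rw [map_add, Pi.add_apply] at h1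
  rcases hf.1 0 q with h2 | h2
  · exact Or.inl h2
  · rwa [h2, add_zero] at h1

theorem g0_bin (hb : ∀ a ∈ supp D, Bin phi a) {a : L}
    (ha : a ∈ supp (g0 phi D r e mu p)) : Bin phi a := by
  rcases (g0_supp ha).2 with h1 | h1
  · exact hb _ h1
  · exact psi_bin hb h1

theorem mu1_add (h : Tri phi D r e mu) {a : L} (ha : ∀ i, mu i a = 0) :
    mu 1 (a + r 0) = -1 := by
  rw [map_add, ha, show mu 1 (r 0) = -1 from h.prv' 0, zero_add]

/-- The face functional of `r 0` is positive on the free part. -/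
theorem psi_pos (h : Tri phi D r e mu) {lam : L →+ ℤ} (h0 : lam (r 0) = 0)
    (h1 : ∀ a ∈ supp D, a ≠ 0 → a ≠ r 0 → 0 < lam a) : Pos lam (psi phi D r e mu) := by
  intro a ha ha0
  obtain ⟨hf, hs⟩ := psi_supp (Finsupp.mem_support_iff.mp ha)
  have h2 := h1 _ hs (fun hc => by
    have h3 := mu1_add h hf.2
    rw [hc, map_zero] at h3
    norm_num at h3) (fun hc => ha0 (by
      have h3 : a + r 0 = 0 + r 0 := by rw [hc, zero_add]
      exact add_right_cancel h3))
  rwa [map_add, h0, add_zero] at h2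

theorem g0_pos (h : Tri phi D r e mu) {lam : L →+ ℤ} (h0 : lam (r 0) = 0)
    (h1 : ∀ a ∈ supp D, a ≠ 0 → a ≠ r 0 → 0 < lam a) : Pos lam (g0 phi D r e mu p) := by
  intro a ha ha0
  obtain ⟨him, hs⟩ := g0_supp (Finsupp.mem_support_iff.mp ha)
  rcases hs with hs | hs
  · refine h1 _ hs ha0 (fun hc => ?_)
    have h3 := him.2 1
    rw [hc, show mu 1 (r 0) = -1 from h.prv' 0] at h3
    norm_num at h3
  · exact psi_pos h h0 h1 a (Finsupp.mem_support_iff.mpr hs) ha0

/-- (I) A functional which is `-(mu 1) nu (r 0)` on the rays without ports in `Q` is zero on the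
free exponents without ports in `Q`. -/
theorem nu_psi (hRy : RaySpanS) (hE2 : E2S) (hD : DD phi D) (h2 : 2 ≤ Module.finrank ℤ L)
    (h : Tri phi D r e mu) {Q : P → Prop} {nu : L →+ ℤ}
    (hn : ∀ S, Ray D S → (∀ q, Q q → phi S q = 0) → nu S = -(mu 1 S * nu (r 0))) {v : L}
    (hv : ∀ i, mu i v = 0) (hs : v + r 0 ∈ supp D) (hQ : ∀ q, Q q → phi (v + r 0) q = 0) :
    nu v = 0 := by
  obtain ⟨-, hthin, -, -, -, -⟩ := hE2 O P L phi D hD h2
  obtain ⟨-, lam, hlam, -⟩ := hD.st
  obtain ⟨n, hn0, hcl⟩ := (hRy O L D ⟨lam, hlam⟩ hthin).1 _ hs (fun hc => by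
    have h3 := mu1_add h hv
    rw [hc, map_zero] at h3
    norm_num at h3)
  have key : ∀ x ∈ AddSubmonoid.closure {b | Ray D b}, (∀ q, 0 ≤ phi x q) ∧
      ((∀ q, Q q → phi x q = 0) → nu x = -(mu 1 x * nu (r 0))) := by
    intro x hx
    induction hx using AddSubmonoid.closure_induction with
    | mem S hS =>
      refine ⟨fun q => ?_, hn S hS⟩
      rcases hD.bin S hS.1 q with h4 | h4 <;> omega
    | zero =>
      refine ⟨fun q => by rw [map_zero]; rfl, fun _ => ?_⟩
      rw [map_zero, map_zero, zero_mul, neg_zero]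
    | add x y _ _ hx hy =>
      refine ⟨fun q => ?_, fun h4 => ?_⟩
      · rw [map_add, Pi.add_apply]
        exact add_nonneg (hx.1 q) (hy.1 q)
      · have h5 : ∀ q, Q q → phi x q = 0 ∧ phi y q = 0 := by
          intro q hq
          have h6 := h4 q hq
          rw [map_add, Pi.add_apply] at h6
          have h7 := hx.1 q
          have h8 := hy.1 q
          omega
        rw [map_add, map_add, hx.2 fun q hq => (h5 q hq).1, hy.2 fun q hq => (h5 q hq).2]
        ring
  have h4 := (key _ hcl).2 (fun q hq => by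
    rw [map_nsmul, Pi.smul_apply, hQ q hq, smul_zero])
  rw [map_nsmul, map_nsmul, mu1_add h hv, map_add] at h4
  simp only [nsmul_eq_mul] at h4
  have h5 : (n : ℤ) * nu v = 0 := by linear_combination h4
  rcases mul_eq_zero.mp h5 with h6 | h6
  · omega
  · exact h6

end gen

end Pool.Agent.B5.O4X
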