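import Pool.Agent.Lib.MP_b5021c_nt.KO.H13.TkGa
import Pool.Agent.Lib.MP_b5021c_nt.KO.H52.Mins

/-!
# MP_b5021c_nt, all `θ`, K ODD, (O4), ALPHA, row TK_DT: the functional of the minimal moved set is
zero on the supports of `G` and `E`
-/

set_option linter.unusedSectionVars false

namespace Pool.Agent.B5.O4X

open scoped LaurentPolynomial
open Polynomial
open Pool.Agent.B5 Pool.Agent.B5.KE
open Pool.Agent.B5.KO67
open Pool.Agent.B5.KO.H71 (Tri Fr z3v)
open Pool.Agent.B5.KO.H40 (flt flt_in flt_out)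
open Pool.Agent.B5.KO.H96 (WKil)
open Pool.Agent.B5.KO52

section

variable {P L : Type} [Fintype P] [DecidableEq P] [AddCommGroup L] [Module.Free ℤ L]
  [Module.Finite ℤ L] {phi : L →+ (P → ℤ)} {D : AO ℤ L} {eta : L → (RO ℤ)ˣ}
  {Z : ZMod 3 → L} {mu : ZMod 3 → L →+ ℤ} {q f : ℤ[X]} {a : ℝ} {j : ℕ} {T : L} {eT : (RO ℤ)ˣ}
  {iT p : P}

/-- The closed triple of `W`. -/
theorem Tf.triz (hE2 : E2S) (hF2 : F2S) (h : Tf phi D q f a j eta 0 Z mu T eT)
    (hT : co phi iT T = 1) {z : ZMod 3 → Ker (co phi iT)} (hz : ∀ i, (z i : L) = Z i) :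
    Tri (phO phi T iT) (cl (co phi iT) T hT (ld eT 1) D) z (fun i => eta (Z i))
      (fun i => (mu i).comp (incl (Ker (co phi iT)))) := by
  have e : z = fun i => (⟨Z i, h.zk hF2 hT i⟩ : Ker (co phi iT)) :=
    funext fun i => Subtype.ext (hz i)
  rw [e]
  exact h.tri hE2 hF2 hT

/-- The triple in `D`. -/
theorem Tf.triD (hE2 : E2S) (h : Tf phi D q f a j eta 0 Z mu T eT) :
    Tri phi D Z (fun i => eta (Z i)) mu := by
  have hD := h.dd
  obtain ⟨-, -, -, -, hrk, -⟩ := hE2 ℤ P L phi D hD h.two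
  exact KO.H71.Cyc.tri hD hrk h.cyc

/-- A functional which kills the closing `Z 0 = 1` of `W` is zero on the support of `G`. -/
theorem wk_g0 (hE2 : E2S) (hF1 : F1S) (hF2 : F2S) (h : Tf phi D q f a j eta 0 Z mu T eT)
    (hT : co phi iT T = 1)
    (hdd : DD (phO phi T iT) (cl (co phi iT) T hT (ld eT 1) D)) (hp : phi (Z 0) p = 1)
    {z : ZMod 3 → Ker (co phi iT)} (hz : ∀ i, (z i : L) = Z i) {nu : L →+ ℤ}
    (hk : WKil phi D (Z 0) T (eta (Z 0)) (ld eT 1) nu) {x : Ker (co phi iT)}
    (hx : x ∈ supp (g0 (phO phi T iT) (cl (co phi iT) T hT (ld eT 1) D) z (fun i => eta (Z i))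
      (fun i => (mu i).comp (incl (Ker (co phi iT)))) p)) : nu (x : L) = 0 := by
  have hD := h.dd
  have htri := h.triz hE2 hF2 hT hz
  have hb := hdd.bin
  have hTp : phi T p = 0 := (h.dis hF2 0 p).resolve_right (by rw [hp]; exact one_ne_zero)
  have hiT : phi T iT = 1 := hT
  by_contra hn
  obtain ⟨him, -⟩ := g0_supp hx
  have hx' : (g0 (phO phi T iT) (cl (co phi iT) T hT (ld eT 1) D) z (fun i => eta (Z i))
      (fun i => (mu i).comp (incl (Ker (co phi iT)))) p).coeff x ≠ 0 := hx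
  rw [g0_eq htri hF1 hdd.inj hb him] at hx'
  -- an exponent of `W` which is moved is disjoint from `T`
  have dj : ∀ y : Ker (co phi iT), nu (y : L) ≠ 0 →
      (cl (co phi iT) T hT (ld eT 1) D).coeff y ≠ 0 → ∀ q, phi (y : L) q = 0 ∨ phi T q = 0 := by
    intro y hny hne q
    have hyi : phi (y : L) iT = 0 := y.2
    rw [cl_co hD] at hne
    by_contra hcon
    push Not at hcon
    obtain ⟨hq1, hq2⟩ := hcon
    have hTq : phi T q = 1 := (hD.bin T h.rT.1 q).resolve_left hq2
    by_cases h1 : D.coeff (y : L) = 0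
    · have h2 : (y : L) + T ∈ supp D := by
        intro h3
        change D.coeff ((y : L) + T) = 0 at h3
        rw [h1, h3, mul_zero, add_zero] at hne
        exact hne rfl
      apply hny
      have h3 : Part phi T ((y : L) + T) := by
        refine ⟨⟨iT, ?_, hiT⟩, q, ?_, hTq⟩
        · rw [map_add, Pi.add_apply, hyi, hiT, zero_add]
        · rcases hD.bin _ h2 q with h4 | h4
          · exact h4
          · exfalso
            rw [map_add, Pi.add_apply, hTq] at h4
            apply hq1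
            omega
      have h4 := hk.pT _ h2 h3
      rwa [map_add, hk.t, add_zero] at h4
    · have h2 : (y : L) ∈ supp D := h1
      apply hny
      exact hk.pT _ h2 ⟨⟨q, (hD.bin _ h2 q).resolve_left hq1, hTq⟩, iT, hyi, hiT⟩
  -- free in `Z 0`
  have hxT : ∀ q, phi (x : L) q = 0 ∨ phi T q = 0 := by
    by_cases hW : (cl (co phi iT) T hT (ld eT 1) D).coeff x = 0
    · have hne : (cl (co phi iT) T hT (ld eT 1) D).coeff (x + z 0) ≠ 0 := by
        intro h1
        rw [hW, h1, mul_zero, add_zero] at hx'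
        exact hx' rfl
      have h1 := dj (x + z 0) (by
        rw [Submodule.coe_add, hz, map_add, hk.s, add_zero]
        exact hn) hne
      intro q
      by_cases hq : phi T q = 0
      · exact Or.inr hq
      · left
        have h2 := (h1 q).resolve_right hq
        rwa [Submodule.coe_add, hz, map_add, Pi.add_apply, (h.dis hF2 0 q).resolve_left hq,
          add_zero] at h2
    · exact dj x hn hW
  have hxZ : ∀ q, phi (x : L) q = 0 ∨ phi (Z 0) q = 0 := by
    intro q
    by_cases hqT : phi T q = 0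
    swap
    · exact Or.inr ((h.dis hF2 0 q).resolve_left hqT)
    by_cases hW : (cl (co phi iT) T hT (ld eT 1) D).coeff x = 0
    · have hne : x + z 0 ∈ supp (cl (co phi iT) T hT (ld eT 1) D) := by
        intro h1
        change (cl (co phi iT) T hT (ld eT 1) D).coeff (x + z 0) = 0 at h1
        rw [hW, h1, mul_zero, add_zero] at hx'
        exact hx' rfl
      have h1 := (fr_of htri hF1 hdd.inj hb him.2 hne).1 0 q
      rw [phO_eq _ hqT, phO_eq _ hqT, hz] at h1
      exact h1
    · by_contra hcon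
      push Not at hcon
      obtain ⟨hq1, hq2⟩ := hcon
      have h1 : phi (x : L) q = 1 := by
        have h2 := hb x hW q
        rw [phO_eq _ hqT] at h2
        exact h2.resolve_left hq1
      have hxp : phi (x : L) p = 0 := by
        have h2 : phO phi T iT x p = 0 := him.1
        rwa [phO_eq _ hTp] at h2
      apply hW
      rw [cl_co hD]
      exact hk.pS _ hxT ⟨⟨q, h1, (hD.bin _ (h.ray 0).1 q).resolve_left hq2⟩, p, hxp, hp⟩ hn
  apply hx'
  have h1 := hk.fr (x : L) (fun q => by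
    rcases hxT q with h2 | h2
    · exact Or.inl h2
    · rcases hxZ q with h3 | h3
      · exact Or.inl h3
      · exact Or.inr ⟨h3, h2⟩) hn
  rw [cl_co hD, cl_co hD, Submodule.coe_add, hz]
  linear_combination h1

variable {J : Type} {R : J → L} {nu : L →+ ℤ}

/-- `nu` shifted to vanish on `Z 1` and `Z 2`. -/
def kp (nu : L →+ ℤ) (Z : ZMod 3 → L) (mu : ZMod 3 → L →+ ℤ) : L →+ ℤ := nu - nu (Z 2) • mu 1

theorem kp_of (nu : L →+ ℤ) (Z : ZMod 3 → L) (mu : ZMod 3 → L →+ ℤ) {x : L} (h : mu 1 x = 0) :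
    kp nu Z mu x = nu x := by
  change (nu - nu (Z 2) • mu 1) x = nu x
  rw [AddMonoidHom.sub_apply, AddMonoidHom.smul_apply, h, smul_zero, sub_zero]

theorem kp_g0 (hE2 : E2S) (hF1 : F1S) (hF2 : F2S) (h : Tf phi D q f a j eta 0 Z mu T eT)
    (hT : co phi iT T = 1)
    (hdd : DD (phO phi T iT) (cl (co phi iT) T hT (ld eT 1) D)) (hp : phi (Z 0) p = 1)
    {z : ZMod 3 → Ker (co phi iT)} (hz : ∀ i, (z i : L) = Z i)
    (hk : WKil phi D (Z 0) T (eta (Z 0)) (ld eT 1) nu) {x : Ker (co phi iT)}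
    (hx : x ∈ supp (g0 (phO phi T iT) (cl (co phi iT) T hT (ld eT 1) D) z (fun i => eta (Z i))
      (fun i => (mu i).comp (incl (Ker (co phi iT)))) p)) : kp nu Z mu (x : L) = 0 := by
  have hm : mu 1 (x : L) = 0 := (g0_supp hx).1.2 1
  rw [kp_of nu Z mu hm]
  exact wk_g0 hE2 hF1 hF2 h hT hdd hp hz hk hx

/-- `kp` on the rays. -/
theorem kp_ray (h : Tf phi D q f a j eta 0 Z mu T eT) (M : Mins phi D eta Z mu T eT R nu) {S : L}
    (hS : Ray D S) (h1 : ∀ q, phi (Z 1) q = 1 → phi S q = 0)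
    (h2 : ∀ q, phi (Z 2) q = 1 → phi S q = 0)
    (h3 : ∀ i q, phi (R i) q = 1 → phi S q = 0) :
    kp nu Z mu S = -(mu 1 S * kp nu Z mu (Z 0)) := by
  have hD := h.dd
  have hport : ∀ {x : L}, Ray D x → ∃ q, phi x q = 1 := by
    intro x hx
    by_contra hcon
    push Not at hcon
    apply hx.2.1
    apply hD.inj
    rw [map_zero]
    ext q
    exact (hD.bin x hx.1 q).resolve_right (hcon q)
  have hn1 : S ≠ Z 1 := by
    rintro rfl
    obtain ⟨q, hq⟩ := hport hS
    have := h1 q hq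
    omega
  have hn2 : S ≠ Z 2 := by
    rintro rfl
    obtain ⟨q, hq⟩ := hport hS
    have := h2 q hq
    omega
  have hnR : ∀ i, S ≠ R i := by
    rintro i rfl
    obtain ⟨q, hq⟩ := hport hS
    have := h3 i q hq
    omega
  have m1 : mu 1 (Z 0) = -1 := h.cyc.prv 1
  by_cases h0 : S = Z 0
  · rw [h0, m1]
    ring
  · have hm : mu 1 S = 0 := h.cyc.oth 1 S hS hn2 h0
    rw [kp_of nu Z mu hm, hm, zero_mul, neg_zero]
    by_contra hne
    obtain ⟨i, hi⟩ := M.fix S hS (fun m => by
      rcases z3v m with rfl | rfl | rfl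
      · exact h0
      · exact hn1
      · exact hn2) hne
    exact hnR i hi

/-- `kp` is zero on the free exponents without ports of the killers. -/
theorem kp_psi (hRy : RaySpanS) (hE2 : E2S) (h : Tf phi D q f a j eta 0 Z mu T eT)
    (M : Mins phi D eta Z mu T eT R nu) {v : L} (hv : v ∈ supp (psi phi D Z (fun i => eta (Z i)) mu))
    (hR : ∀ i, Dj phi (R i) v) : kp nu Z mu v = 0 := by
  have hD := h.dd
  have htri := h.triD hE2
  obtain ⟨hf, hs⟩ := psi_supp hv
  refine nu_psi hRy hE2 hD h.two htri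
    (Q := fun q => phi (Z 1) q = 1 ∨ phi (Z 2) q = 1 ∨ ∃ i, phi (R i) q = 1) ?_ hf.2 hs ?_
  · intro S hS hq
    exact kp_ray h M hS (fun q hq' => hq q (Or.inl hq')) (fun q hq' => hq q (Or.inr (Or.inl hq')))
      (fun i q hq' => hq q (Or.inr (Or.inr ⟨i, hq'⟩)))
  · rintro q (hq | hq | ⟨i, hq⟩)
    · rw [map_add, Pi.add_apply, (hf.1 1 q).resolve_right (by rw [hq]; exact one_ne_zero),
        (htri.dis 0 1 (by decide) q).resolve_right (by rw [hq]; exact one_ne_zero), add_zero]
    · rw [map_add, Pi.add_apply, (hf.1 2 q).resolve_right (by rw [hq]; exact one_ne_zero),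
        (htri.dis 0 2 (by decide) q).resolve_right (by rw [hq]; exact one_ne_zero), add_zero]
    · rw [map_add, Pi.add_apply, (hR i q).resolve_right (by rw [hq]; exact one_ne_zero),
        (M.dZ i 0 q).resolve_left (by rw [hq]; exact one_ne_zero), add_zero]

end

end Pool.Agent.B5.O4X
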